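import Mathlib

set_option autoImplicit false

namespace Pool.MP_a3a325_al

/-- The alternating product `x y x y ⋯` with `n` factors. -/
def alt {G : Type*} [Monoid G] : G → G → ℕ → G
  | _, _, 0 => 1
  | x, y, n + 1 => x * alt y x n

/-- The relators `s t s ⋯ (t s t ⋯)⁻¹` (`M s t` letters on both sides); `M s t = 0` means
infinity and gives the empty relator. -/
def artinRels {S : Type*} (M : CoxeterMatrix S) : Set (FreeGroup S) :=
  {r | ∃ s t : S, r = alt (FreeGroup.of s) (FreeGroup.of t) (M s t) *
    (alt (FreeGroup.of t) (FreeGroup.of s) (M s t))⁻¹}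

/-- The Artin group `A_M`. -/
abbrev ArtinGroup {S : Type*} (M : CoxeterMatrix S) : Type _ := PresentedGroup (artinRels M)

/-- The generator `s` of the Artin group. -/
def gen {S : Type*} (M : CoxeterMatrix S) (s : S) : ArtinGroup M := PresentedGroup.of s

/-- `Out(A)` is finite: the inner automorphisms have finitely many cosets in `Aut(A)`. -/
def FiniteOut (A : Type*) [Group A] : Prop :=
  Finite (MulAut A ⧸ (MulAut.conj : A →* MulAut A).range)

lemma map_alt {G H : Type*} [Monoid G] [Monoid H] (φ : G →* H) (x y : G) (n : ℕ) :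
    φ (alt x y n) = alt (φ x) (φ y) n := by
  induction n generalizing x y with
  | zero => exact map_one φ
  | succ n ih =>
    change φ (x * alt y x n) = φ x * alt (φ y) (φ x) n
    rw [map_mul, ih]

/-- The homomorphism with given values on the generators. -/
def lift {S : Type*} {M : CoxeterMatrix S} {G : Type*} [Group G] (f : S → G)
    (hf : ∀ s t, alt (f s) (f t) (M s t) = alt (f t) (f s) (M s t)) : ArtinGroup M →* G :=
  PresentedGroup.toGroup (f := f) (by
    rintro r ⟨s, t, rfl⟩
    rw [map_mul, map_inv, map_alt, map_alt, mul_inv_eq_one]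
    simpa using hf s t)

/-- The degree homomorphism `A_M → ℤ` (written multiplicatively), sending every generator
to `1`. -/
def degHom {S : Type*} (M : CoxeterMatrix S) : ArtinGroup M →* Multiplicative ℤ :=
  lift (fun _ => Multiplicative.ofAdd 1) (fun _ _ => rfl)

/-- The graph `Γ_M`: `s`, `t` adjacent when `m_st < ∞`. -/
def artinGraph {S : Type*} (M : CoxeterMatrix S) : SimpleGraph S where
  Adj s t := s ≠ t ∧ M s t ≠ 0
  symm := ⟨fun s t h => ⟨h.1.symm, by
    have : M t s = M s t := M.isSymm.apply s t
    rw [this]; exact h.2⟩⟩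
  loopless := ⟨fun _ h => h.1 rfl⟩

/-- `T` is irreducible: it is not the union of two disjoint non-empty sets with all labels
between them equal to two. -/
def IrredSet {S : Type*} (M : CoxeterMatrix S) (T : Set S) : Prop :=
  ∀ U ⊆ T, U.Nonempty → (T \ U).Nonempty → ∃ s ∈ U, ∃ t ∈ T \ U, M s t ≠ 2

/-- The subgroup generated by `T` has a central element of non-zero degree. -/
def HasCentralElement {S : Type*} (M : CoxeterMatrix S) (T : Set S) : Prop :=
  ∃ z ∈ Subgroup.closure (gen M '' T), (∀ t ∈ T, Commute z (gen M t)) ∧ degHom M z ≠ 1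

/-- The set `T^⊥` of the vertices outside `T` joined to every vertex of `T` by an edge labelled
two. -/
def perp {S : Type*} (M : CoxeterMatrix S) (T : Set S) : Set S :=
  {s | s ∉ T ∧ ∀ t ∈ T, M s t = 2}

/-- A decomposition `S = {v, w} ⊔ C ⊔ D` into disjoint sets, `C` and `D` non-empty, with all
labels between `C` and `D` infinite. -/
structure EdgeSplit {S : Type*} (M : CoxeterMatrix S) (v w : S) (C D : Set S) : Prop where
  hC : C.Nonempty
  hD : D.Nonempty
  vC : v ∉ C
  wC : w ∉ C
  vD : v ∉ D
  wD : w ∉ D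
  cover : ∀ s, s = v ∨ s = w ∨ s ∈ C ∨ s ∈ D
  disj : ∀ s ∈ C, s ∉ D
  sep : ∀ c ∈ C, ∀ d ∈ D, M c d = 0

end Pool.MP_a3a325_al
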