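import Mathlib
import Pool.Agent.Lib_helper76.AO.Defs

set_option autoImplicit false

namespace Pool.MP_a3a325_al

section alt

variable {G H : Type*}

@[simp] lemma alt_zero [Monoid G] (x y : G) : alt x y 0 = 1 := rfl

lemma alt_succ [Monoid G] (x y : G) (n : ℕ) : alt x y (n + 1) = x * alt y x n := rfl

@[simp] lemma alt_one [Monoid G] (x y : G) : alt x y 1 = x := by simp [alt_succ]

lemma alt_two [Monoid G] (x y : G) : alt x y 2 = x * y := by simp [alt_succ]

lemma alt_add_two [Monoid G] (x y : G) (n : ℕ) : alt x y (n + 2) = x * y * alt x y n := by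
  rw [alt_succ, alt_succ, mul_assoc]

lemma alt_even [Monoid G] (x y : G) (k : ℕ) : alt x y (2 * k) = (x * y) ^ k := by
  induction k with
  | zero => simp
  | succ k ih => rw [Nat.mul_succ, alt_add_two, ih, pow_succ']

lemma alt_odd [Monoid G] (x y : G) (k : ℕ) : alt x y (2 * k + 1) = x * (y * x) ^ k := by
  rw [alt_succ, alt_even]

lemma alt_conj [Group G] (c x y : G) (n : ℕ) :
    alt (c * x * c⁻¹) (c * y * c⁻¹) n = c * alt x y n * c⁻¹ := by
  have := map_alt (MulAut.conj c).toMonoidHom x y n
  simpa [MulAut.conj_apply] using this.symm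

end alt

section lift

variable {S : Type*} {M : CoxeterMatrix S} {G : Type*} [Group G]

lemma gen_rel (M : CoxeterMatrix S) (s t : S) :
    alt (gen M s) (gen M t) (M s t) = alt (gen M t) (gen M s) (M s t) := by
  have h : (PresentedGroup.mk (artinRels M)) (alt (FreeGroup.of s) (FreeGroup.of t) (M s t) *
      (alt (FreeGroup.of t) (FreeGroup.of s) (M s t))⁻¹) = 1 :=
    PresentedGroup.one_of_mem ⟨s, t, rfl⟩
  rw [map_mul, map_inv, mul_inv_eq_one, map_alt, map_alt] at h
  exact h

@[simp] lemma lift_gen (f : S → G)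
    (hf : ∀ s t, alt (f s) (f t) (M s t) = alt (f t) (f s) (M s t)) (s : S) :
    lift f hf (gen M s) = f s := PresentedGroup.toGroup.of _

lemma hom_ext {φ ψ : ArtinGroup M →* G} (h : ∀ s, φ (gen M s) = ψ (gen M s)) : φ = ψ :=
  PresentedGroup.ext h

lemma closure_gen (M : CoxeterMatrix S) : Subgroup.closure (Set.range (gen M)) = ⊤ :=
  PresentedGroup.closure_range_of (artinRels M)

end lift

/-- A family of automorphisms `φ n` (`n : ℤ`) with `φ n * φ m = φ (n + m)` none of which is inner
except `φ 0` shows that `Out` is infinite. -/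
lemma not_finiteOut_of_family {A : Type*} [Group A] (φ : ℤ → MulAut A)
    (hadd : ∀ n m, φ (n + m) = φ n * φ m)
    (hinner : ∀ n : ℤ, n ≠ 0 → ∀ g : A, ¬ (∀ a, φ n a = g * a * g⁻¹)) : ¬ FiniteOut A := by
  intro hfin
  have h0 : φ 0 = 1 := by
    have := hadd 0 0
    rw [add_zero] at this
    exact (mul_eq_left.mp this.symm)
  have hneg : ∀ n, (φ n)⁻¹ = φ (-n) := by
    intro n
    rw [inv_eq_iff_mul_eq_one, ← hadd, add_neg_cancel, h0]
  unfold FiniteOut at hfin
  have hinj : Function.Injective
      (fun n : ℤ => (QuotientGroup.mk (φ n) : MulAut A ⧸ (MulAut.conj : A →* MulAut A).range)) := by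
    intro n m hnm
    by_contra hne
    have h1 := QuotientGroup.eq.mp hnm
    rw [hneg, ← hadd] at h1
    obtain ⟨g, hg⟩ := h1
    refine hinner (-n + m) (by omega) g (fun a => ?_)
    rw [← hg, MulAut.conj_apply]
  exact not_injective_infinite_finite _ hinj

end Pool.MP_a3a325_al
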