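import Mathlib
import Pool.Agent.Lib_helper76.AO.Basic

set_option autoImplicit false

namespace Pool.MP_a3a325_al

/-- coefficients of the alternating products in the algebra generated by `E`, `F` -/
noncomputable def al (q κ : ℝ) : ℕ → ℝ × ℝ × ℝ × ℝ
  | 0 => (1, 0, 0, 0)
  | n + 1 =>
    let p := al q κ n
    (1 - q * p.2.1 + κ * p.2.2.1, p.1, p.1 - q * p.2.2.2, p.2.2.1)

/-- `alt (1-E) (1-F) (n+1) = 1 - a E - b F + c EF + d FE` with `(a,b,c,d) = al q κ n`. -/
lemma alt_formula {R : Type*} [Ring R] [Algebra ℝ R] (q κ : ℝ) (n : ℕ) :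
    ∀ E F : R, E * E = (1 + q) • E → F * F = (1 + q) • F → E * F * E = κ • E →
      F * E * F = κ • F →
      alt (1 - E) (1 - F) (n + 1) = 1 - (al q κ n).1 • E - (al q κ n).2.1 • F
        + (al q κ n).2.2.1 • (E * F) + (al q κ n).2.2.2 • (F * E) := by
  induction n with
  | zero =>
    intro E F _ _ _ _
    simp [al]
  | succ n ih =>
    intro E F hE hF hEF hFE
    rw [alt_succ, ih F E hF hE hFE hEF]
    have e1 : E * (F * E) = κ • E := by rw [← mul_assoc, hEF]
    have e2 : E * (E * F) = (1 + q) • (E * F) := by rw [← mul_assoc, hE, smul_mul_assoc]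
    have : (1 - E) * (1 - (al q κ n).1 • F - (al q κ n).2.1 • E
        + (al q κ n).2.2.1 • (F * E) + (al q κ n).2.2.2 • (E * F))
        = 1 - (al q κ n).1 • F - (al q κ n).2.1 • E
        + (al q κ n).2.2.1 • (F * E) + (al q κ n).2.2.2 • (E * F)
        - (E - (al q κ n).1 • (E * F) - (al q κ n).2.1 • (E * E)
        + (al q κ n).2.2.1 • (E * (F * E)) + (al q κ n).2.2.2 • (E * (E * F))) := by
      simp only [sub_mul, one_mul, mul_add, mul_sub, mul_one, mul_smul_comm]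
      module
    rw [this, hE, e1, e2]
    simp only [al]
    module

/-- at `θ = π/m`, `κ = 4 q cos² θ` the two alternating products of length `m` agree -/
lemma al_trig (a : ℝ) (ha : a ≠ 0) (m : ℕ) (hm : 3 ≤ m) :
    (al (a ^ 2) (4 * a ^ 2 * Real.cos (Real.pi / m) ^ 2) (m - 1)).1 =
      (al (a ^ 2) (4 * a ^ 2 * Real.cos (Real.pi / m) ^ 2) (m - 1)).2.1 ∧
    (al (a ^ 2) (4 * a ^ 2 * Real.cos (Real.pi / m) ^ 2) (m - 1)).2.2.1 =
      (al (a ^ 2) (4 * a ^ 2 * Real.cos (Real.pi / m) ^ 2) (m - 1)).2.2.2 := by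
  set θ : ℝ := Real.pi / m with hθ
  set κ : ℝ := 4 * a ^ 2 * Real.cos θ ^ 2 with hκ
  have hmpos : (0 : ℝ) < m := by positivity
  have hθ0 : 0 < θ := by positivity
  have hθ1 : θ < Real.pi / 2 := by
    rw [hθ]
    have h3 : (3 : ℝ) ≤ m := by exact_mod_cast hm
    rw [div_lt_div_iff₀ hmpos (by norm_num)]
    nlinarith [Real.pi_pos]
  have hs : 0 < Real.sin θ := Real.sin_pos_of_pos_of_lt_pi hθ0 (by linarith [Real.pi_pos])
  have hc : 0 < Real.cos θ := Real.cos_pos_of_mem_Ioo ⟨by linarith, hθ1⟩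
  have hsin : ∀ n : ℕ, Real.sin ((n + 2 + 1 : ℝ) * θ) =
      2 * Real.cos θ * Real.sin ((n + 1 + 1 : ℝ) * θ) - Real.sin ((n + 1 : ℝ) * θ) := by
    intro n
    have e1 : (n + 2 + 1 : ℝ) * θ = (n + 1 + 1 : ℝ) * θ + θ := by ring
    have e2 : (n + 1 : ℝ) * θ = (n + 1 + 1 : ℝ) * θ - θ := by ring
    rw [e1, e2, Real.sin_add, Real.sin_sub]
    ring
  -- x n, y n
  have key : ∀ n : ℕ,
      ((Even n → ((al (a ^ 2) κ n).1 - (al (a ^ 2) κ n).2.1) * Real.sin θ
          = a ^ n * Real.sin ((n + 1 : ℝ) * θ) ∧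
          (al (a ^ 2) κ n).2.2.1 - (al (a ^ 2) κ n).2.2.2 = 0) ∧
       (¬ Even n → (al (a ^ 2) κ n).1 - (al (a ^ 2) κ n).2.1 = 0 ∧
          2 * a * Real.cos θ * (((al (a ^ 2) κ n).2.2.1 - (al (a ^ 2) κ n).2.2.2) * Real.sin θ)
          = a ^ n * Real.sin ((n + 1 : ℝ) * θ))) ∧
      ((Even (n + 1) → ((al (a ^ 2) κ (n + 1)).1 - (al (a ^ 2) κ (n + 1)).2.1) * Real.sin θ
          = a ^ (n + 1) * Real.sin ((n + 1 + 1 : ℝ) * θ) ∧
          (al (a ^ 2) κ (n + 1)).2.2.1 - (al (a ^ 2) κ (n + 1)).2.2.2 = 0) ∧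
       (¬ Even (n + 1) → (al (a ^ 2) κ (n + 1)).1 - (al (a ^ 2) κ (n + 1)).2.1 = 0 ∧
          2 * a * Real.cos θ * (((al (a ^ 2) κ (n + 1)).2.2.1 -
            (al (a ^ 2) κ (n + 1)).2.2.2) * Real.sin θ)
          = a ^ (n + 1) * Real.sin ((n + 1 + 1 : ℝ) * θ))) := by
    intro n
    induction n with
    | zero =>
      refine ⟨⟨fun _ => ?_, fun h => absurd (by simp : Even 0) h⟩,
        ⟨fun h => absurd h (by decide), fun _ => ?_⟩⟩
      · simp [al]
      · have : Real.sin ((0 + 1 + 1 : ℝ) * θ) = 2 * Real.sin θ * Real.cos θ := by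
          rw [show (0 + 1 + 1 : ℝ) * θ = 2 * θ by ring, Real.sin_two_mul]
        simp only [al, Nat.cast_zero, this]
        constructor <;> ring
    | succ n ih =>
      obtain ⟨h1, h2⟩ := ih
      refine ⟨?_, ?_⟩
      · simpa using h2
      · have e1 : (al (a ^ 2) κ (n + 1 + 1)).1 - (al (a ^ 2) κ (n + 1 + 1)).2.1
            = - a ^ 2 * ((al (a ^ 2) κ n).1 - (al (a ^ 2) κ n).2.1)
              + κ * ((al (a ^ 2) κ (n + 1)).2.2.1 - (al (a ^ 2) κ (n + 1)).2.2.2) := by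
          simp only [al]
          ring
        have e2 : (al (a ^ 2) κ (n + 1 + 1)).2.2.1 - (al (a ^ 2) κ (n + 1 + 1)).2.2.2
            = ((al (a ^ 2) κ (n + 1)).1 - (al (a ^ 2) κ (n + 1)).2.1)
              - a ^ 2 * ((al (a ^ 2) κ n).2.2.1 - (al (a ^ 2) κ n).2.2.2) := by
          simp only [al]
          ring
        rw [e1, e2]
        have hsn := hsin n
        have hcast : ((n + 1 : ℕ) : ℝ) + 1 + 1 = n + 2 + 1 := by push_cast; ring
        rw [hcast, hsn]
        by_cases hn : Even n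
        · have hn1 : ¬ Even (n + 1) := by simpa [Nat.even_add_one] using hn
          have hn2 : Even (n + 1 + 1) := by simpa [Nat.even_add_one] using hn
          obtain ⟨p1, p2⟩ := h1.1 hn
          obtain ⟨p3, p4⟩ := h2.2 hn1
          refine ⟨fun _ => ⟨?_, ?_⟩, fun h => absurd hn2 h⟩
          · have : κ * ((al (a ^ 2) κ (n + 1)).2.2.1 - (al (a ^ 2) κ (n + 1)).2.2.2) * Real.sin θ
                = 2 * a * Real.cos θ * (2 * a * Real.cos θ *
                  (((al (a ^ 2) κ (n + 1)).2.2.1 - (al (a ^ 2) κ (n + 1)).2.2.2) *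
                    Real.sin θ)) := by rw [hκ]; ring
            rw [add_mul, this, p4]
            have : -a ^ 2 * ((al (a ^ 2) κ n).1 - (al (a ^ 2) κ n).2.1) * Real.sin θ
                = -a ^ 2 * (((al (a ^ 2) κ n).1 - (al (a ^ 2) κ n).2.1) * Real.sin θ) := by ring
            rw [this, p1]
            ring
          · rw [p3, p2]; ring
        · have hn1 : Even (n + 1) := by simpa [Nat.even_add_one] using hn
          have hn2 : ¬ Even (n + 1 + 1) := by simpa [Nat.even_add_one] using hn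
          obtain ⟨p1, p2⟩ := h1.2 hn
          obtain ⟨p3, p4⟩ := h2.1 hn1
          refine ⟨fun h => absurd h hn2, fun _ => ⟨?_, ?_⟩⟩
          · rw [p1, p4]; ring
          · have : 2 * a * Real.cos θ * (((al (a ^ 2) κ (n + 1)).1 - (al (a ^ 2) κ (n + 1)).2.1
                - a ^ 2 * ((al (a ^ 2) κ n).2.2.1 - (al (a ^ 2) κ n).2.2.2)) * Real.sin θ)
                = 2 * a * Real.cos θ * (((al (a ^ 2) κ (n + 1)).1 - (al (a ^ 2) κ (n + 1)).2.1) *
                  Real.sin θ) - a ^ 2 * (2 * a * Real.cos θ *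
                  (((al (a ^ 2) κ n).2.2.1 - (al (a ^ 2) κ n).2.2.2) * Real.sin θ)) := by ring
            rw [this, p3, p2]
            ring
  obtain ⟨k, rfl⟩ : ∃ k, m = k + 1 := ⟨m - 1, by omega⟩
  have hk := (key k).1
  have hsk : Real.sin ((k + 1 : ℝ) * θ) = 0 := by
    have : (k + 1 : ℝ) * θ = Real.pi := by
      rw [hθ]; push_cast; field_simp
    rw [this, Real.sin_pi]
  rw [Nat.add_sub_cancel]
  rw [hsk, mul_zero] at hk
  by_cases hev : Even k
  · obtain ⟨p1, p2⟩ := hk.1 hev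
    refine ⟨?_, by linarith⟩
    rcases mul_eq_zero.mp p1 with h | h
    · linarith
    · exact absurd h hs.ne'
  · obtain ⟨p1, p2⟩ := hk.2 hev
    refine ⟨by linarith, ?_⟩
    rcases mul_eq_zero.mp p2 with h | h
    · exfalso
      have : 2 * a * Real.cos θ ≠ 0 := by positivity
      exact this h
    · rcases mul_eq_zero.mp h with h | h
      · linarith
      · exact absurd h hs.ne'

/-- the braid relation of length `m` -/
lemma braid_relation {R : Type*} [Ring R] [Algebra ℝ R] (a : ℝ) (ha : a ≠ 0) (m : ℕ)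
    (hm : 3 ≤ m) (E F : R)
    (hE : E * E = (1 + a ^ 2) • E) (hF : F * F = (1 + a ^ 2) • F)
    (hEF : E * F * E = (4 * a ^ 2 * Real.cos (Real.pi / m) ^ 2) • E)
    (hFE : F * E * F = (4 * a ^ 2 * Real.cos (Real.pi / m) ^ 2) • F) :
    alt (1 - E) (1 - F) m = alt (1 - F) (1 - E) m := by
  obtain ⟨k, hk⟩ : ∃ k, m = k + 1 := ⟨m - 1, by omega⟩
  have h := al_trig a ha m hm
  have hk' : m - 1 = k := by omega
  rw [hk'] at h
  have e1 := alt_formula (a ^ 2) (4 * a ^ 2 * Real.cos (Real.pi / m) ^ 2) k E F hE hF hEF hFE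
  have e2 := alt_formula (a ^ 2) (4 * a ^ 2 * Real.cos (Real.pi / m) ^ 2) k F E hF hE hFE hEF
  rw [show alt (1 - E) (1 - F) m = alt (1 - E) (1 - F) (k + 1) by rw [hk],
    show alt (1 - F) (1 - E) m = alt (1 - F) (1 - E) (k + 1) by rw [hk], e1, e2, ← h.1, ← h.2]
  module

end Pool.MP_a3a325_al
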