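import Mathlib
import Pool.Agent.Lib_helper76.AO.Defs

set_option autoImplicit false

namespace Pool.MP_a3a325_al

/-- A graph is chordal if it has no induced cycle with at least four vertices. -/
def Chordal {V : Type*} (G : SimpleGraph V) : Prop :=
  ∀ n, 4 ≤ n → IsEmpty (SimpleGraph.cycleGraph n ↪g G)

/-- The vertex `v` is joined to every other vertex of `Γ_M` (the labels at `v` are finite). -/
def Full {S : Type*} (M : CoxeterMatrix S) (v : S) : Prop := ∀ s, M v s ≠ 0

end Pool.MP_a3a325_al
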