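import Mathlib
import Pool.Agent.Lib_helper76.AO.ChDefs

set_option autoImplicit false
set_option linter.unusedSectionVars false

namespace Pool.MP_a3a325_al

section

variable {V : Type*} {G : SimpleGraph V}

lemma cycleGraph_adj_lt {n : ℕ} (hn : 4 ≤ n) {u v : Fin n} (h : u.val < v.val) :
    (SimpleGraph.cycleGraph n).Adj u v ↔ (v.val = u.val + 1 ∨ (u.val = 0 ∧ v.val = n - 1)) := by
  rw [SimpleGraph.cycleGraph_adj', Fin.val_sub, Fin.val_sub]
  have hu := u.isLt
  have hv := v.isLt
  have h1 : (n - v.val + u.val) % n = n - v.val + u.val := Nat.mod_eq_of_lt (by omega)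
  have h2 : (n - u.val + v.val) % n = v.val - u.val := by
    have : n - u.val + v.val = (v.val - u.val) + n := by omega
    rw [this, Nat.add_mod_right]
    exact Nat.mod_eq_of_lt (by omega)
  rw [h1, h2]
  omega

lemma not_chordal_of_cycle (q : ℕ → V) (n : ℕ) (hn : 4 ≤ n)
    (hinj : ∀ i j, i < j → j < n → q i ≠ q j)
    (hadj : ∀ i j, i < j → j < n → (G.Adj (q i) (q j) ↔ (j = i + 1 ∨ (i = 0 ∧ j = n - 1)))) :
    ¬ Chordal G := by
  intro hch
  refine (hch n hn).elim ⟨⟨fun i => q i.val, ?_⟩, ?_⟩
  · intro a b hab
    rcases lt_trichotomy a.val b.val with h | h | h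
    · exact absurd hab (hinj _ _ h b.isLt)
    · exact Fin.ext h
    · exact absurd hab.symm (hinj _ _ h a.isLt)
  · intro a b
    change G.Adj (q a.val) (q b.val) ↔ _
    rcases lt_trichotomy a.val b.val with h | h | h
    · rw [hadj _ _ h b.isLt, cycleGraph_adj_lt hn h]
    · have hab : a = b := Fin.ext h
      subst hab
      constructor
      · intro h'; exact absurd rfl h'.ne
      · intro h'; exact absurd rfl h'.ne
    · rw [G.adj_comm (q a.val), (SimpleGraph.cycleGraph n).adj_comm a, hadj _ _ h a.isLt,
        cycleGraph_adj_lt hn h]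

/-- A path in `R` whose last vertex is adjacent to `b`. -/
structure IsLine (G : SimpleGraph V) (R : Set V) (b : V) (p : ℕ → V) (m : ℕ) : Prop where
  mem : ∀ i ≤ m, p i ∈ R
  step : ∀ i < m, G.Adj (p i) (p (i + 1))
  last : G.Adj (p m) b

lemma exists_line {R : Set V} (hR : (G.induce R).Preconnected) {r r' b : V} (hr : r ∈ R)
    (hr' : r' ∈ R) (hb : G.Adj r' b) : ∃ m, ∃ p : ℕ → V, p 0 = r ∧ IsLine G R b p m := by
  obtain ⟨w⟩ := hR ⟨r, hr⟩ ⟨r', hr'⟩
  refine ⟨w.length, fun i => (w.getVert i).val, ?_, ?_, ?_, ?_⟩
  · simp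
  · intro i _; exact (w.getVert i).2
  · intro i hi
    exact w.adj_getVert_succ hi
  · simpa using hb

lemma shortcut {R : Set V} {b : V} {p : ℕ → V} {m : ℕ} (h : IsLine G R b p m) {i j : ℕ}
    (hij : i + 2 ≤ j) (hj : j ≤ m) (hadj : G.Adj (p i) (p j)) :
    ∃ m' < m, ∃ p' : ℕ → V, p' 0 = p 0 ∧ IsLine G R b p' m' := by
  refine ⟨m - (j - i - 1), by omega, fun k => if k ≤ i then p k else p (k + (j - i - 1)), ?_, ?_,
    ?_, ?_⟩
  · simp
  · intro k hk
    by_cases hki : k ≤ i
    · simp only [hki, if_true]; exact h.mem k (by omega)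
    · simp only [hki, if_false]; exact h.mem _ (by omega)
  · intro k hk
    by_cases hki : k ≤ i
    · by_cases hk1 : k + 1 ≤ i
      · simp only [hki, hk1, if_true]; exact h.step k (by omega)
      · have hkk : k = i := by omega
        subst hkk
        simp only [le_refl, if_true, hk1, if_false]
        have : k + 1 + (j - k - 1) = j := by omega
        rw [this]; exact hadj
    · have hk1 : ¬ (k + 1 ≤ i) := by omega
      simp only [hki, hk1, if_false]
      have : k + 1 + (j - i - 1) = (k + (j - i - 1)) + 1 := by omega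
      rw [this]
      exact h.step _ (by omega)
  · by_cases hki : m - (j - i - 1) ≤ i
    · omega
    · simp only [hki, if_false]
      have : m - (j - i - 1) + (j - i - 1) = m := by omega
      rw [this]; exact h.last

lemma exists_geodesic {R : Set V} (hR : (G.induce R).Preconnected) {r r' b : V} (hr : r ∈ R)
    (hr' : r' ∈ R) (hb : G.Adj r' b) : ∃ m, ∃ p : ℕ → V, p 0 = r ∧ IsLine G R b p m ∧
      (∀ i < m, ¬ G.Adj (p i) b) ∧ (∀ i j, i < j → j ≤ m → p i ≠ p j) ∧
      (∀ i j, i < j → j ≤ m → G.Adj (p i) (p j) → j = i + 1) := by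
  classical
  have hex : ∃ m, ∃ p : ℕ → V, p 0 = r ∧ IsLine G R b p m := exists_line hR hr hr' hb
  obtain ⟨p, hp0, hp⟩ := Nat.find_spec hex
  set m := Nat.find hex with hm
  have hmin : ∀ m' < m, ¬ ∃ p : ℕ → V, p 0 = r ∧ IsLine G R b p m' := fun m' hm' =>
    Nat.find_min hex hm'
  have hA : ∀ i < m, ¬ G.Adj (p i) b := by
    intro i hi hadj
    exact hmin i hi ⟨p, hp0, fun k hk => hp.mem k (by omega), fun k hk => hp.step k (by omega),
      hadj⟩
  have hB : ∀ i j, i < j → j ≤ m → G.Adj (p i) (p j) → j = i + 1 := by
    intro i j hij hj hadj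
    by_contra hne
    obtain ⟨m', hm', p', hp'0, hp'⟩ := shortcut hp (i := i) (j := j) (by omega) hj hadj
    exact hmin m' hm' ⟨p', by rw [hp'0, hp0], hp'⟩
  refine ⟨m, p, hp0, hp, hA, ?_, hB⟩
  intro i j hij hj heq
  by_cases hjm : j = m
  · subst hjm
    exact hA i hij (by rw [heq]; exact hp.last)
  · have h1 : G.Adj (p i) (p (j + 1)) := by rw [heq]; exact hp.step j (by omega)
    have := hB i (j + 1) (by omega) (by omega) h1
    omega

/-- In a chordal graph, if `R` is connected, `K` is a clique outside `R` and every vertex of `K`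
has a neighbour in `R`, then some vertex of `R` is adjacent to all of `K`. -/
lemma chordal_clique [Finite V] (hch : Chordal G) {R K : Set V}
    (hR : (G.induce R).Preconnected) (hRne : R.Nonempty)
    (hK : ∀ a ∈ K, ∀ b ∈ K, a ≠ b → G.Adj a b) (hKR : ∀ k ∈ K, k ∉ R)
    (hnb : ∀ k ∈ K, ∃ r ∈ R, G.Adj r k) : ∃ r ∈ R, ∀ k ∈ K, G.Adj r k := by
  classical
  obtain ⟨r, hr, hmax⟩ := Set.exists_max_image R (fun r => ({k ∈ K | G.Adj r k} : Set V).ncard)
    (Set.toFinite R) hRne
  refine ⟨r, hr, ?_⟩
  by_contra hcon
  push Not at hcon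
  obtain ⟨k, hk, hrk⟩ := hcon
  obtain ⟨r', hr', hr'k⟩ := hnb k hk
  obtain ⟨m, p, hp0, hp, hA, hB, hC⟩ := exists_geodesic hR hr hr' hr'k
  have hm : m ≠ 0 := by
    rintro rfl
    have := hp.last
    rw [hp0] at this
    exact hrk this
  have key : ∀ k' ∈ K, G.Adj r k' → G.Adj (p m) k' := by
    intro k' hk' hrk'
    by_contra hnot
    have h0 : G.Adj (p 0) k' := by rw [hp0]; exact hrk'
    set i := Nat.findGreatest (fun i => G.Adj (p i) k') m with hi
    have hi1 : G.Adj (p i) k' :=
      Nat.findGreatest_spec (P := fun i => G.Adj (p i) k') (Nat.zero_le m) h0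
    have hi2 : ∀ j, i < j → j ≤ m → ¬ G.Adj (p j) k' := fun j h1 h2 =>
      Nat.findGreatest_is_greatest (P := fun i => G.Adj (p i) k') h1 h2
    have him : i ≤ m := Nat.findGreatest_le m
    have him' : i ≠ m := by
      intro h; rw [h] at hi1; exact hnot hi1
    have hkk' : k' ≠ k := by rintro rfl; exact hrk hrk'
    obtain ⟨q, hq0, hq1, hqn⟩ : ∃ q : ℕ → V, q 0 = k' ∧
        (∀ j, 1 ≤ j → j ≤ m - i + 1 → q j = p (i + j - 1)) ∧ (∀ j, m - i + 1 < j → q j = k) :=
      ⟨fun j => if j = 0 then k' else if j ≤ m - i + 1 then p (i + j - 1) else k, if_pos rfl,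
        fun j h1 h2 => by
          have : j ≠ 0 := by omega
          simp only [this, if_false, h2, if_true],
        fun j h1 => by
          have h2 : j ≠ 0 := by omega
          have h3 : ¬ j ≤ m - i + 1 := by omega
          simp only [h2, if_false, h3]⟩
    refine not_chordal_of_cycle (G := G) q (m - i + 3) (by omega) ?_ ?_ hch
    · intro a b hab hb
      by_cases ha0 : a = 0
      · rw [ha0, hq0]
        by_cases hb1 : b ≤ m - i + 1
        · rw [hq1 b (by omega) hb1]
          intro h
          exact hKR k' hk' (by rw [h]; exact hp.mem _ (by omega))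
        · rw [hqn b (by omega)]
          exact hkk'
      · rw [hq1 a (by omega) (by omega)]
        by_cases hb1 : b ≤ m - i + 1
        · rw [hq1 b (by omega) hb1]
          exact hB _ _ (by omega) (by omega)
        · rw [hqn b (by omega)]
          intro h
          exact hKR k hk (by rw [← h]; exact hp.mem _ (by omega))
    · intro a b hab hb
      by_cases ha0 : a = 0
      · rw [ha0, hq0]
        by_cases hb1 : b ≤ m - i + 1
        · rw [hq1 b (by omega) hb1]
          constructor
          · intro h
            left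
            by_contra hne
            exact hi2 (i + b - 1) (by omega) (by omega) h.symm
          · intro h
            have : i + b - 1 = i := by omega
            rw [this]; exact hi1.symm
        · rw [hqn b (by omega)]
          constructor
          · intro _; right; exact ⟨rfl, by omega⟩
          · intro _; exact hK k' hk' k hk hkk'
      · rw [hq1 a (by omega) (by omega)]
        by_cases hb1 : b ≤ m - i + 1
        · rw [hq1 b (by omega) hb1]
          constructor
          · intro h
            have := hC _ _ (by omega) (by omega) h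
            left; omega
          · intro h
            have h2 := hp.step (i + a - 1) (by omega)
            have : i + b - 1 = i + a - 1 + 1 := by omega
            rw [this]; exact h2
        · rw [hqn b (by omega)]
          constructor
          · intro h
            left
            by_contra hne
            exact hA (i + a - 1) (by omega) h
          · intro h
            have : i + a - 1 = m := by omega
            rw [this]; exact hp.last
  have h1 := hmax (p m) (hp.mem m le_rfl)
  have h2 : ({k ∈ K | G.Adj r k} : Set V).ncard < ({k ∈ K | G.Adj (p m) k} : Set V).ncard := by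
    apply Set.ncard_lt_ncard _ (Set.toFinite _)
    refine ⟨fun k' hk' => ⟨hk'.1, key k' hk'.1 hk'.2⟩, ?_⟩
    intro hsub
    exact hrk (hsub ⟨hk, hp.last⟩).2
  omega

/-- In a chordal graph, two distinct neighbours of `z` which both have neighbours in a connected
set `R` not adjacent to `z` are adjacent. -/
lemma chordal_pair (hch : Chordal G) {R : Set V} (hR : (G.induce R).Preconnected) {z a b : V}
    (hza : G.Adj z a) (hzb : G.Adj z b) (hzR : z ∉ R) (haR : a ∉ R) (hbR : b ∉ R)
    (hz : ∀ r ∈ R, ¬ G.Adj z r) (ha : ∃ r ∈ R, G.Adj r a) (hb : ∃ r ∈ R, G.Adj r b)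
    (hab : a ≠ b) : G.Adj a b := by
  classical
  by_contra hnab
  obtain ⟨r, hr, hra⟩ := ha
  obtain ⟨r', hr', hr'b⟩ := hb
  obtain ⟨m, p, hp0, hp, hA, hB, hC⟩ := exists_geodesic hR hr hr' hr'b
  have h0 : G.Adj (p 0) a := by rw [hp0]; exact hra
  set i := Nat.findGreatest (fun i => G.Adj (p i) a) m with hi
  have hi1 : G.Adj (p i) a :=
    Nat.findGreatest_spec (P := fun i => G.Adj (p i) a) (Nat.zero_le m) h0
  have hi2 : ∀ j, i < j → j ≤ m → ¬ G.Adj (p j) a := fun j h1 h2 =>
    Nat.findGreatest_is_greatest (P := fun i => G.Adj (p i) a) h1 h2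
  have him : i ≤ m := Nat.findGreatest_le m
  obtain ⟨q, hq0, hq1, hq2, hqn⟩ : ∃ q : ℕ → V, q 0 = z ∧ q 1 = a ∧
      (∀ j, 2 ≤ j → j ≤ m - i + 2 → q j = p (i + j - 2)) ∧ (∀ j, m - i + 2 < j → q j = b) :=
    ⟨fun j => if j = 0 then z else if j = 1 then a else if j ≤ m - i + 2 then p (i + j - 2)
        else b, if_pos rfl, rfl,
      fun j h1 h2 => by
        have h3 : j ≠ 0 := by omega
        have h4 : j ≠ 1 := by omega
        simp only [h3, h4, if_false, h2, if_true],
      fun j h1 => by
        have h3 : j ≠ 0 := by omega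
        have h4 : j ≠ 1 := by omega
        have h5 : ¬ j ≤ m - i + 2 := by omega
        simp only [h3, h4, if_false, h5]⟩
  refine not_chordal_of_cycle (G := G) q (m - i + 4) (by omega) ?_ ?_ hch
  · intro x y hxy hy
    by_cases hx0 : x = 0
    · rw [hx0, hq0]
      by_cases hy1 : y = 1
      · rw [hy1, hq1]; exact hza.ne
      · by_cases hy2 : y ≤ m - i + 2
        · rw [hq2 y (by omega) hy2]
          intro h
          exact hzR (by rw [h]; exact hp.mem _ (by omega))
        · rw [hqn y (by omega)]; exact hzb.ne
    · by_cases hx1 : x = 1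
      · rw [hx1, hq1]
        by_cases hy2 : y ≤ m - i + 2
        · rw [hq2 y (by omega) hy2]
          intro h
          exact haR (by rw [h]; exact hp.mem _ (by omega))
        · rw [hqn y (by omega)]; exact hab
      · rw [hq2 x (by omega) (by omega)]
        by_cases hy2 : y ≤ m - i + 2
        · rw [hq2 y (by omega) hy2]
          exact hB _ _ (by omega) (by omega)
        · rw [hqn y (by omega)]
          intro h
          exact hbR (by rw [← h]; exact hp.mem _ (by omega))
  · intro x y hxy hy
    by_cases hx0 : x = 0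
    · rw [hx0, hq0]
      by_cases hy1 : y = 1
      · rw [hy1, hq1]
        exact ⟨fun _ => Or.inl rfl, fun _ => hza⟩
      · by_cases hy2 : y ≤ m - i + 2
        · rw [hq2 y (by omega) hy2]
          constructor
          · intro h; exact absurd h (hz _ (hp.mem _ (by omega)))
          · intro h; omega
        · rw [hqn y (by omega)]
          exact ⟨fun _ => Or.inr ⟨rfl, by omega⟩, fun _ => hzb⟩
    · by_cases hx1 : x = 1
      · rw [hx1, hq1]
        by_cases hy2 : y ≤ m - i + 2
        · rw [hq2 y (by omega) hy2]
          constructor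
          · intro h
            left
            by_contra hne
            exact hi2 (i + y - 2) (by omega) (by omega) h.symm
          · intro h
            have : i + y - 2 = i := by omega
            rw [this]; exact hi1.symm
        · rw [hqn y (by omega)]
          constructor
          · intro h; exact absurd h hnab
          · intro h; omega
      · rw [hq2 x (by omega) (by omega)]
        by_cases hy2 : y ≤ m - i + 2
        · rw [hq2 y (by omega) hy2]
          constructor
          · intro h
            have := hC _ _ (by omega) (by omega) h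
            left; omega
          · intro h
            have h2 := hp.step (i + x - 2) (by omega)
            have : i + y - 2 = i + x - 2 + 1 := by omega
            rw [this]; exact h2
        · rw [hqn y (by omega)]
          constructor
          · intro h
            left
            by_contra hne
            exact hA (i + x - 2) (by omega) h
          · intro h
            have : i + x - 2 = m := by omega
            rw [this]; exact hp.last

/-- An edge leaving a set in a connected induced subgraph. -/
lemma exists_crossing {X : Set V} (hX : (G.induce X).Preconnected) {a b : V} (ha : a ∈ X)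
    (hb : b ∈ X) (A : Set V) (haA : a ∈ A) (hbA : b ∉ A) :
    ∃ x ∈ X, ∃ y ∈ X, x ∈ A ∧ y ∉ A ∧ G.Adj x y := by
  obtain ⟨w⟩ := hX ⟨a, ha⟩ ⟨b, hb⟩
  obtain ⟨d, _, h1, h2⟩ := w.exists_boundary_dart {x | x.val ∈ A} haA hbA
  exact ⟨d.fst.val, d.fst.2, d.snd.val, d.snd.2, h1, h2, d.adj⟩

end

end Pool.MP_a3a325_al
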