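import Mathlib
import Pool.Agent.Lib_helper76.AO.Defs
import Pool.Agent.Lib_helper76.AO.Chord

set_option autoImplicit false

namespace Pool.MP_a3a325_al

/-- Every non-empty irreducible clique `T` of `Γ_M` generates a subgroup of `A_M` which has a
central element of non-zero degree.  (This holds when every clique is of finite type.) -/
def CentralCliques {S : Type*} (M : CoxeterMatrix S) : Prop :=
  ∀ T : Set S, T.Nonempty → (∀ s ∈ T, ∀ t ∈ T, M s t ≠ 0) → IrredSet M T →
    HasCentralElement M T

/-- A decomposition `S = T ⊔ C ⊔ D` into disjoint sets, `C` and `D` non-empty, with all labels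
in `T` finite and all labels between `C` and `D` infinite. -/
structure CliqueSplit {S : Type*} (M : CoxeterMatrix S) (T C D : Set S) : Prop where
  clq : ∀ s ∈ T, ∀ t ∈ T, M s t ≠ 0
  neC : C.Nonempty
  neD : D.Nonempty
  TC : ∀ t ∈ T, t ∉ C
  TD : ∀ t ∈ T, t ∉ D
  cover : ∀ s, s ∈ T ∨ s ∈ C ∨ s ∈ D
  sep : ∀ c ∈ C, ∀ d ∈ D, M c d = 0

end Pool.MP_a3a325_al
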