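import Mathlib
import Pool.Agent.Lib_helper76.AO.Basic
import Pool.Agent.Lib_helper76.AO.Braid

set_option autoImplicit false
set_option linter.unusedSectionVars false

namespace Pool.MP_a3a325_al

open Matrix

variable {S : Type*} [Fintype S] [DecidableEq S]

/-- the form data of a deformed reflection representation -/
structure Good (M : CoxeterMatrix S) (a : ℝ) (B : Matrix S S ℝ) : Prop where
  a0 : a ≠ 0
  diag : ∀ s, B s s = 1 + a ^ 2
  br : ∀ s t, s ≠ t → 3 ≤ M s t → B s t * B t s = 4 * a ^ 2 * Real.cos (Real.pi / M s t) ^ 2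
  two : ∀ s t, M s t = 2 → B s t = 0

/-- `x ↦ B_s(x) e_s` -/
def EE (B : Matrix S S ℝ) (s : S) : Matrix S S ℝ := vecMulVec (Pi.single s 1) (B s)

lemma EE_mul_EE (B : Matrix S S ℝ) (s t : S) :
    EE B s * EE B t = B s t • vecMulVec (Pi.single s 1) (B t) := by
  unfold EE
  rw [vecMulVec_mul_vecMulVec, dotProduct_single_one, vecMulVec_smul]

lemma EE_mul_self (B : Matrix S S ℝ) (s : S) : EE B s * EE B s = B s s • EE B s := EE_mul_EE B s s

lemma EE_mul_three (B : Matrix S S ℝ) (s t : S) :
    EE B s * EE B t * EE B s = (B s t * B t s) • EE B s := by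
  rw [EE_mul_EE, smul_mul_assoc]
  unfold EE
  rw [vecMulVec_mul_vecMulVec, dotProduct_single_one, vecMulVec_smul, smul_smul]

variable {M : CoxeterMatrix S} {a : ℝ} {B : Matrix S S ℝ}

/-- the pseudo-reflection `1 - B_s ⊗ e_s` -/
noncomputable def refl (hG : Good M a B) (s : S) : (Matrix S S ℝ)ˣ where
  val := 1 - EE B s
  inv := 1 - (a ^ 2)⁻¹ • EE B s
  val_inv := by
    have h := EE_mul_self B s
    rw [hG.diag] at h
    have ha : a ^ 2 ≠ 0 := pow_ne_zero 2 hG.a0
    have : (1 - EE B s) * (1 - (a ^ 2)⁻¹ • EE B s)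
        = 1 - EE B s - (a ^ 2)⁻¹ • EE B s + (a ^ 2)⁻¹ • (EE B s * EE B s) := by
      simp only [sub_mul, mul_sub, one_mul, mul_one, mul_smul_comm]
      module
    rw [this, h, smul_smul]
    have e : (a ^ 2)⁻¹ * (1 + a ^ 2) = (a ^ 2)⁻¹ + 1 := by
      rw [mul_add, mul_one, inv_mul_cancel₀ ha]
    rw [e]
    module
  inv_val := by
    have h := EE_mul_self B s
    rw [hG.diag] at h
    have ha : a ^ 2 ≠ 0 := pow_ne_zero 2 hG.a0
    have : (1 - (a ^ 2)⁻¹ • EE B s) * (1 - EE B s)
        = 1 - EE B s - (a ^ 2)⁻¹ • EE B s + (a ^ 2)⁻¹ • (EE B s * EE B s) := by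
      simp only [sub_mul, mul_sub, one_mul, mul_one, smul_mul_assoc]
      module
    rw [this, h, smul_smul]
    have e : (a ^ 2)⁻¹ * (1 + a ^ 2) = (a ^ 2)⁻¹ + 1 := by
      rw [mul_add, mul_one, inv_mul_cancel₀ ha]
    rw [e]
    module

lemma refl_val (hG : Good M a B) (s : S) : (refl hG s : Matrix S S ℝ) = 1 - EE B s := rfl

lemma refl_braid (hG : Good M a B) (s t : S) :
    alt (refl hG s) (refl hG t) (M s t) = alt (refl hG t) (refl hG s) (M s t) := by
  apply Units.ext
  have h1 := map_alt (Units.coeHom (Matrix S S ℝ)) (refl hG s) (refl hG t) (M s t)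
  have h2 := map_alt (Units.coeHom (Matrix S S ℝ)) (refl hG t) (refl hG s) (M s t)
  simp only [Units.coeHom_apply, refl_val] at h1 h2
  rw [h1, h2]
  by_cases hst : s = t
  · subst hst; rfl
  have h1' := M.off_diagonal s t hst
  rcases Nat.lt_or_ge (M s t) 3 with hlt | hge
  · have hcases : M s t = 0 ∨ M s t = 2 := by
      have : M s t ≠ 1 := h1'
      omega
    rcases hcases with h | h
    · rw [h]; rfl
    · rw [h, alt_two, alt_two]
      have h' : M t s = 2 := by
        rw [← h]; exact M.isSymm.apply s t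
      have e1 : EE B s * EE B t = 0 := by rw [EE_mul_EE, hG.two s t h, zero_smul]
      have e2 : EE B t * EE B s = 0 := by rw [EE_mul_EE, hG.two t s h', zero_smul]
      simp only [sub_mul, mul_sub, one_mul, mul_one, e1, e2]
      abel
  · have hb := hG.br s t hst hge
    apply braid_relation a hG.a0 (M s t) hge (EE B s) (EE B t)
    · rw [EE_mul_self, hG.diag]
    · rw [EE_mul_self, hG.diag]
    · rw [EE_mul_three, hb]
    · rw [EE_mul_three, mul_comm (B t s) (B s t), hb]

/-- the representation -/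
noncomputable def rho (hG : Good M a B) : ArtinGroup M →* (Matrix S S ℝ)ˣ := lift (refl hG) (refl_braid hG)

@[simp] lemma rho_gen (hG : Good M a B) (s : S) : rho hG (gen M s) = refl hG s := lift_gen _ _ _

lemma eigen_of_comm (hG : Good M a B) {s : S} {x : ArtinGroup M} (h : Commute x (gen M s)) :
    ∃ l : ℝ, (rho hG x : Matrix S S ℝ) *ᵥ Pi.single s 1 = l • Pi.single s 1 ∧
      B s ᵥ* (rho hG x : Matrix S S ℝ) = l • B s := by
  set X : Matrix S S ℝ := (rho hG x).val with hX
  have h1 : X * (1 - EE B s) = (1 - EE B s) * X := by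
    have := congrArg (Units.val) (h.map (rho hG)).eq
    simpa [refl_val] using this
  have h2 : X * EE B s = EE B s * X := by
    have : X - X * EE B s = X - EE B s * X := by
      simpa [mul_sub, sub_mul] using h1
    simpa using this
  unfold EE at h2
  rw [mul_vecMulVec, vecMulVec_mul] at h2
  have h3 : ∀ i j, (X *ᵥ Pi.single s 1) i * B s j = (Pi.single s (1 : ℝ) : S → ℝ) i *
      (B s ᵥ* X) j := by
    intro i j
    have := congrFun (congrFun h2 i) j
    simpa [vecMulVec_apply] using this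
  have hb : B s s ≠ 0 := by rw [hG.diag]; positivity
  refine ⟨(B s ᵥ* X) s / B s s, ?_, ?_⟩
  · ext i
    have := h3 i s
    rw [Pi.smul_apply, smul_eq_mul, div_mul_eq_mul_div, eq_div_iff hb, this]
    ring
  · ext j
    have e1 := h3 s s
    have e2 := h3 s j
    simp only [Pi.single_eq_same, one_mul] at e1 e2
    rw [Pi.smul_apply, smul_eq_mul, div_mul_eq_mul_div, eq_div_iff hb, ← e2, ← e1]
    ring

lemma coord_fixed (hG : Good M a B) (T : Set S) {y : ArtinGroup M}
    (hy : y ∈ Subgroup.closure (gen M '' T)) :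
    ∀ (v : S → ℝ) (i : S), i ∉ T → ((rho hG y : Matrix S S ℝ) *ᵥ v) i = v i := by
  induction hy using Subgroup.closure_induction with
  | mem x hx =>
    obtain ⟨t, ht, rfl⟩ := hx
    intro v i hi
    rw [rho_gen, refl_val, sub_mulVec, one_mulVec]
    unfold EE
    rw [vecMulVec_mulVec]
    have : i ≠ t := fun h => hi (h ▸ ht)
    simp [this]
  | one => intro v i _; simp
  | mul x y _ _ hx hy =>
    intro v i hi
    rw [map_mul, Units.val_mul, ← mulVec_mulVec, hx _ i hi, hy _ i hi]
  | inv x _ hx =>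
    intro v i hi
    have := hx (((rho hG x⁻¹ : (Matrix S S ℝ)ˣ) : Matrix S S ℝ) *ᵥ v) i hi
    rw [mulVec_mulVec, map_inv, Units.mul_inv, one_mulVec] at this
    rw [map_inv]
    exact this.symm

@[simp] lemma degHom_gen (s : S) : degHom M (gen M s) = Multiplicative.ofAdd 1 := lift_gen _ _ _

lemma det_refl (hG : Good M a B) (s : S) : det (refl hG s : Matrix S S ℝ) = -(a ^ 2) := by
  rw [refl_val]
  have h1 : (1 : Matrix S S ℝ) - EE B s
      = 1 + replicateCol Unit (-(Pi.single s (1 : ℝ) : S → ℝ)) * replicateRow Unit (B s) := by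
    ext i j
    simp [EE, vecMulVec_apply, Matrix.mul_apply, sub_eq_add_neg]
  rw [h1, det_one_add_replicateCol_mul_replicateRow, dotProduct_neg, dotProduct_single_one,
    hG.diag]
  ring

lemma det_rho (hG : Good M a B) (x : ArtinGroup M) :
    det (rho hG x : Matrix S S ℝ) = (-(a ^ 2)) ^ (Multiplicative.toAdd (degHom M x)) := by
  have ha : -(a ^ 2) ≠ 0 := neg_ne_zero.mpr (pow_ne_zero 2 hG.a0)
  have key : (Units.map (Matrix.detMonoidHom (n := S) (R := ℝ))).comp (rho hG)
      = (zpowersHom ℝˣ (Units.mk0 _ ha)).comp (degHom M) := by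
    apply hom_ext
    intro s
    apply Units.ext
    simp [det_refl]
  have := congrArg Units.val (DFunLike.congr_fun key x)
  simpa using this

lemma det_eq_one_of_unipotent (hG : Good M a B) (T : Set S) {y : ArtinGroup M}
    (hy : y ∈ Subgroup.closure (gen M '' T))
    (h1 : ∀ t ∈ T, (rho hG y : Matrix S S ℝ) *ᵥ Pi.single t 1 = Pi.single t 1) :
    det (rho hG y : Matrix S S ℝ) = 1 := by
  classical
  set Y : Matrix S S ℝ := (rho hG y).val with hY
  set P : Matrix S S ℝ := diagonal (fun i => if i ∈ T then (1 : ℝ) else 0) with hP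
  have hcol : ∀ i j, Y i j = (Y *ᵥ Pi.single j 1) i := by
    intro i j; simp
  have e1 : Y = 1 + P * (Y - 1) := by
    ext i j
    rw [Matrix.add_apply, hP, diagonal_mul]
    by_cases hi : i ∈ T
    · simp [hi]
    · rw [if_neg hi, zero_mul, add_zero, hcol, coord_fixed hG T hy _ i hi, Matrix.one_apply,
        Pi.single_apply]
  have e2 : (Y - 1) * P = 0 := by
    ext i j
    rw [hP, mul_diagonal]
    by_cases hj : j ∈ T
    · rw [Matrix.sub_apply, hcol, h1 j hj, Matrix.one_apply, Pi.single_apply]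
      simp
    · simp [hj]
  rw [e1, det_one_add_mul_comm, e2, add_zero, det_one]

end Pool.MP_a3a325_al
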