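import Mathlib
import Pool.Agent.Lib_helper76.AO.Basic
import Pool.Agent.Lib_helper76.AO.Braid
import Pool.Agent.Lib_helper76.AO.Rep

set_option autoImplicit false
set_option linter.unusedSectionVars false

namespace Pool.MP_a3a325_al

open Matrix

variable {S : Type*} [Fintype S] [DecidableEq S]

/-- families of endomorphisms give families of automorphisms -/
lemma not_finiteOut_of_homs {A : Type*} [Group A] (τ : ℤ → (A →* A))
    (h0 : τ 0 = MonoidHom.id A) (hadd : ∀ n m, τ (n + m) = (τ n).comp (τ m))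
    (hinner : ∀ n : ℤ, n ≠ 0 → ∀ g : A, ¬ (∀ a, τ n a = g * a * g⁻¹)) : ¬ FiniteOut A := by
  have hl : ∀ n, (τ (-n)).comp (τ n) = MonoidHom.id A := by
    intro n; rw [← hadd, neg_add_cancel, h0]
  have hr : ∀ n, (τ n).comp (τ (-n)) = MonoidHom.id A := by
    intro n; rw [← hadd, add_neg_cancel, h0]
  refine not_finiteOut_of_family (fun n => (MonoidHom.toMulEquiv (τ n) (τ (-n)) (hl n) (hr n) :
    MulAut A)) ?_ ?_
  · intro n m
    ext a
    simp [hadd]
  · intro n hn g hg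
    exact hinner n hn g (fun a => hg a)

/-- the restricted matrix of the form -/
noncomputable def AA (T : Set S) (B : Matrix S S ℝ) : Matrix S S ℝ :=
  Matrix.of fun i j => by
    classical
    exact if i ∈ T ∧ j ∈ T then B i j else if i = j then 1 else 0

lemma AA_in (T : Set S) (B : Matrix S S ℝ) {i j : S} (hi : i ∈ T) (hj : j ∈ T) :
    AA T B i j = B i j := by
  classical
  simp [AA, hi, hj]

lemma AA_out_left (T : Set S) (B : Matrix S S ℝ) {i j : S} (hi : i ∉ T) :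
    AA T B i j = if i = j then 1 else 0 := by
  classical
  simp [AA, hi]

lemma AA_out_right (T : Set S) (B : Matrix S S ℝ) {i j : S} (hj : j ∉ T) :
    AA T B i j = if i = j then 1 else 0 := by
  classical
  simp [AA, hj]

lemma AA_det_ne_zero (T : Set S) (B : Matrix S S ℝ) (a : ℝ) (ha : 0 < a)
    (hcard : 2 * a * Fintype.card S ≤ 1) (hdiag : ∀ i ∈ T, B i i = 1 + a ^ 2)
    (hoff : ∀ i ∈ T, ∀ j ∈ T, i ≠ j → |B i j| ≤ 2 * a) : (AA T B).det ≠ 0 := by
  classical
  apply det_ne_zero_of_sum_row_lt_diag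
  intro k
  have hle : ∑ j ∈ Finset.univ.erase k, ‖AA T B k j‖ ≤ ∑ _j ∈ Finset.univ.erase k, 2 * a := by
    apply Finset.sum_le_sum
    intro j hj
    have hjk : k ≠ j := fun h => (Finset.ne_of_mem_erase hj) h.symm
    by_cases hk : k ∈ T
    · by_cases hj' : j ∈ T
      · rw [AA_in T B hk hj']; exact hoff k hk j hj' hjk
      · rw [AA_out_right T B hj', if_neg hjk]; simp; linarith
    · rw [AA_out_left T B hk, if_neg hjk]; simp; linarith
  have hsum : ∑ _j ∈ Finset.univ.erase k, 2 * a = ((Fintype.card S : ℝ) - 1) * (2 * a) := by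
    rw [Finset.sum_const, Finset.card_erase_of_mem (Finset.mem_univ k), Finset.card_univ,
      nsmul_eq_mul, Nat.cast_sub (Fintype.card_pos_iff.mpr ⟨k⟩)]
    simp
  have hkk : 1 ≤ ‖AA T B k k‖ := by
    by_cases hk : k ∈ T
    · rw [AA_in T B hk hk, hdiag k hk, Real.norm_eq_abs, abs_of_pos (by positivity)]
      nlinarith [sq_nonneg a]
    · rw [AA_out_left T B hk]; simp
  calc ∑ j ∈ Finset.univ.erase k, ‖AA T B k j‖ ≤ ((Fintype.card S : ℝ) - 1) * (2 * a) := by
        rw [← hsum]; exact hle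
    _ < 1 := by nlinarith
    _ ≤ _ := hkk

lemma AA_mulVec (T : Set S) (B : Matrix S S ℝ) (v : S → ℝ) (hv : ∀ i, i ∉ T → v i = 0) :
    (∀ t ∈ T, (AA T B *ᵥ v) t = B t ⬝ᵥ v) ∧ ∀ i, i ∉ T → (AA T B *ᵥ v) i = 0 := by
  classical
  constructor
  · intro t ht
    unfold mulVec dotProduct
    apply Finset.sum_congr rfl
    intro j _
    show AA T B t j * v j = B t j * v j
    by_cases hj : j ∈ T
    · rw [AA_in T B ht hj]
    · rw [hv j hj, mul_zero, mul_zero]
  · intro i hi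
    unfold mulVec dotProduct
    simp only [AA_out_left T B hi]
    simp [hv i hi]

lemma exists_w (T : Set S) (B : Matrix S S ℝ) (hdet : (AA T B).det ≠ 0) (β : S → ℝ) :
    ∃ w : S → ℝ, (∀ i, i ∉ T → w i = 0) ∧ ∀ t ∈ T, B t ⬝ᵥ w = β t := by
  classical
  set β' : S → ℝ := fun i => if i ∈ T then β i else 0 with hβ
  set w : S → ℝ := (AA T B)⁻¹ *ᵥ β' with hw
  have hA : AA T B *ᵥ w = β' := by
    rw [hw, mulVec_mulVec, mul_nonsing_inv _ (isUnit_iff_ne_zero.mpr hdet), one_mulVec]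
  have hsupp : ∀ i, i ∉ T → w i = 0 := by
    intro i hi
    have h1 : (AA T B *ᵥ w) i = 0 := by rw [hA, hβ]; simp [hi]
    have h2 : (AA T B *ᵥ w) i = w i := by
      unfold mulVec dotProduct
      simp only [AA_out_left T B hi]
      simp
    rw [← h2, h1]
  refine ⟨w, hsupp, fun t ht => ?_⟩
  rw [← (AA_mulVec T B w hsupp).1 t ht, hA, hβ]
  simp [ht]

lemma unique_w (T : Set S) (B : Matrix S S ℝ) (hdet : (AA T B).det ≠ 0) (v : S → ℝ)
    (hv : ∀ i, i ∉ T → v i = 0) (h0 : ∀ t ∈ T, B t ⬝ᵥ v = 0) : v = 0 := by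
  apply Matrix.eq_zero_of_mulVec_eq_zero hdet
  ext i
  by_cases hi : i ∈ T
  · rw [(AA_mulVec T B v hv).1 i hi, h0 i hi]; rfl
  · rw [(AA_mulVec T B v hv).2 i hi]; rfl

/-- the key computation: if `y` is central in the parabolic of `T` (irreducible) and the twist by
`y` on `C` is inner then the value `B d c` is forced. -/
lemma forced_value {M : CoxeterMatrix S} {a : ℝ} {B : Matrix S S ℝ} (hG : Good M a B)
    (ha : a ^ 2 < 1) (T C : Set S) (hdet : (AA T B).det ≠ 0)
    (hirr : ∀ U ⊆ T, U.Nonempty → (T \ U).Nonempty → ∃ s ∈ U, ∃ t ∈ T \ U, M s t ≠ 2)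
    (hTC : ∀ t ∈ T, t ∉ C)
    (hnz : ∀ s t, M s t ≠ 2 → (s ∈ T ∨ t ∈ T) → B s t ≠ 0)
    {y : ArtinGroup M} (hy : y ∈ Subgroup.closure (gen M '' T))
    (hcomm : ∀ t ∈ T, Commute y (gen M t)) (hdeg : degHom M y ≠ 1)
    {c d : S} (hc : c ∈ C) (hd : d ∉ C)
    (hct : ∃ t ∈ T, M c t ≠ 2) (hdt : ∃ t ∈ T, M d t ≠ 2)
    {g : ArtinGroup M} (hg1 : ∀ s, s ∉ C → Commute g (gen M s))
    (hg2 : ∀ s ∈ C, Commute (y⁻¹ * g) (gen M s)) :
    ∃ w : S → ℝ, (∀ i, i ∉ T → w i = 0) ∧ (∀ t ∈ T, B t ⬝ᵥ w = B t c) ∧ B d c = B d ⬝ᵥ w := by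
  classical
  obtain ⟨w, hw1, hw2⟩ := exists_w T B hdet (fun t => B t c)
  refine ⟨w, hw1, hw2, ?_⟩
  -- notation
  set G : Matrix S S ℝ := (rho hG g).val with hGdef
  set Y : Matrix S S ℝ := (rho hG y).val with hYdef
  set H : Matrix S S ℝ := (rho hG (y⁻¹ * g)).val with hHdef
  have hYH : Y * H = G := by
    rw [hYdef, hHdef, hGdef, ← Units.val_mul, ← map_mul, mul_inv_cancel_left]
  -- eigenvalues
  have hlam : ∀ s, ∃ l : ℝ, s ∉ C → G *ᵥ Pi.single s 1 = l • Pi.single s 1 ∧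
      B s ᵥ* G = l • B s := by
    intro s
    by_cases hs : s ∈ C
    · exact ⟨0, fun h => absurd hs h⟩
    · obtain ⟨l, hl⟩ := eigen_of_comm hG (hg1 s hs)
      exact ⟨l, fun _ => hl⟩
  choose lam hlam using hlam
  have hzet : ∀ s, ∃ l : ℝ, s ∈ T → Y *ᵥ Pi.single s 1 = l • Pi.single s 1 ∧
      B s ᵥ* Y = l • B s := by
    intro s
    by_cases hs : s ∈ T
    · obtain ⟨l, hl⟩ := eigen_of_comm hG (hcomm s hs)
      exact ⟨l, fun _ => hl⟩
    · exact ⟨0, fun h => absurd h hs⟩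
  choose zet hzet using hzet
  obtain ⟨mu, hmu1, hmu2⟩ := eigen_of_comm hG (hg2 c hc)
  have hconst : ∀ f : S → ℝ, (∀ s ∈ T, ∀ t ∈ T, M s t ≠ 2 → f s = f t) →
      ∀ s ∈ T, ∀ t ∈ T, f s = f t := by
    intro f hf s hs t ht
    by_contra hne
    obtain ⟨s', hs', t', ht', hst'⟩ := hirr {x ∈ T | f x = f s} (fun x hx => hx.1) ⟨s, hs, rfl⟩
      ⟨t, ht, fun h => hne h.2.symm⟩
    apply ht'.2
    exact ⟨ht'.1, by rw [← hf s' hs'.1 t' ht'.1 hst']; exact hs'.2⟩
  have hlam_eq : ∀ s, s ∉ C → ∀ t, t ∉ C → B s t ≠ 0 → lam s = lam t := by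
    intro s hs t ht hst
    have e1 : B s ⬝ᵥ (G *ᵥ Pi.single t 1) = lam t * B s t := by
      rw [(hlam t ht).1, dotProduct_smul, dotProduct_single_one, smul_eq_mul]
    have e2 : B s ⬝ᵥ (G *ᵥ Pi.single t 1) = lam s * B s t := by
      rw [dotProduct_mulVec, (hlam s hs).2, smul_dotProduct, dotProduct_single_one, smul_eq_mul]
    exact mul_right_cancel₀ hst (e2.symm.trans e1)
  have hzet_eq : ∀ s ∈ T, ∀ t ∈ T, B s t ≠ 0 → zet s = zet t := by
    intro s hs t ht hst
    have e1 : B s ⬝ᵥ (Y *ᵥ Pi.single t 1) = zet t * B s t := by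
      rw [(hzet t ht).1, dotProduct_smul, dotProduct_single_one, smul_eq_mul]
    have e2 : B s ⬝ᵥ (Y *ᵥ Pi.single t 1) = zet s * B s t := by
      rw [dotProduct_mulVec, (hzet s hs).2, smul_dotProduct, dotProduct_single_one, smul_eq_mul]
    exact mul_right_cancel₀ hst (e2.symm.trans e1)
  obtain ⟨tc, htc, htc2⟩ := hct
  obtain ⟨td, htd, htd2⟩ := hdt
  have hlamT : ∀ s ∈ T, lam s = lam td := fun s hs =>
    hconst lam (fun s hs t ht h => hlam_eq s (hTC s hs) t (hTC t ht) (hnz s t h (Or.inl hs)))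
      s hs td htd
  have hzetT : ∀ s ∈ T, zet s = zet td := fun s hs =>
    hconst zet (fun s hs t ht h => hzet_eq s hs t ht (hnz s t h (Or.inl hs))) s hs td htd
  have hlamd : lam d = lam td := hlam_eq d hd td (hTC td htd) (hnz d td htd2 (Or.inr htd))
  set L := lam td with hL
  set Z := zet td with hZ
  -- Z ≠ 1
  have hZ1 : Z ≠ 1 := by
    intro hZ1
    have hdet1 := det_eq_one_of_unipotent hG T hy (fun t ht => by
      have := (hzet t ht).1
      rw [hzetT t ht, hZ1, one_smul] at this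
      exact this)
    rw [det_rho] at hdet1
    set k := Multiplicative.toAdd (degHom M y) with hk
    have hk0 : k ≠ 0 := by
      intro h
      apply hdeg
      rw [← ofAdd_toAdd (degHom M y), ← hk, h, ofAdd_zero]
    have habs : (a ^ 2) ^ k = 1 := by
      have := congrArg abs hdet1
      rwa [abs_zpow, abs_neg, abs_of_nonneg (sq_nonneg a), abs_one] at this
    have := (zpow_eq_one_iff_right₀ (sq_nonneg a) (ne_of_lt ha)).mp habs
    exact hk0 this
  -- Z ≠ 0
  have hYinv : ∀ v : S → ℝ, ((rho hG y)⁻¹.val) *ᵥ (Y *ᵥ v) = v := by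
    intro v
    rw [mulVec_mulVec, hYdef, Units.inv_mul, one_mulVec]
  have hZ0 : Z ≠ 0 := by
    intro h
    have h1 := (hzet td htd).1
    rw [show zet td = 0 from h, zero_smul] at h1
    have h2 := hYinv (Pi.single td 1)
    rw [h1, mulVec_zero] at h2
    have := congrFun h2 td
    simp at this
  have hHinv : ∀ v : S → ℝ, ((rho hG (y⁻¹ * g))⁻¹.val) *ᵥ (H *ᵥ v) = v := by
    intro v
    rw [mulVec_mulVec, hHdef, Units.inv_mul, one_mulVec]
  have hmu0 : mu ≠ 0 := by
    intro h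
    rw [h, zero_smul] at hmu1
    have h2 := hHinv (Pi.single c 1)
    rw [show H *ᵥ Pi.single c 1 = 0 from hmu1, mulVec_zero] at h2
    have := congrFun h2 c
    simp at this
  -- H on e_{tc}: Z * H e = L e
  have hHt : Z • (H *ᵥ Pi.single tc 1) = L • (Pi.single tc (1 : ℝ) : S → ℝ) := by
    have h1 : Y *ᵥ (H *ᵥ Pi.single tc 1) = L • Pi.single tc (1 : ℝ) := by
      rw [mulVec_mulVec, hYH, (hlam tc (hTC tc htc)).1, hlamT tc htc]
    have h2 : Y *ᵥ (Pi.single tc (1 : ℝ)) = Z • Pi.single tc (1 : ℝ) := by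
      rw [(hzet tc htc).1, hzetT tc htc]
    have h3 : H *ᵥ Pi.single tc 1 = L • ((rho hG y)⁻¹.val *ᵥ Pi.single tc (1 : ℝ)) := by
      rw [← mulVec_smul, ← h1, hYinv]
    have h4 : (Pi.single tc (1 : ℝ) : S → ℝ)
        = Z • ((rho hG y)⁻¹.val *ᵥ Pi.single tc (1 : ℝ)) := by
      rw [← mulVec_smul, ← h2, hYinv]
    rw [h3, smul_comm, ← h4]
  have hmuZ : Z * mu = L := by
    have hBct : B c tc ≠ 0 := hnz c tc htc2 (Or.inr htc)
    have e1 : B c ⬝ᵥ (Z • (H *ᵥ Pi.single tc 1)) = Z * mu * B c tc := by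
      rw [dotProduct_smul, dotProduct_mulVec, show B c ᵥ* H = mu • B c from hmu2,
        smul_dotProduct, dotProduct_single_one, smul_eq_mul, smul_eq_mul]
      ring
    rw [hHt, dotProduct_smul, dotProduct_single_one, smul_eq_mul] at e1
    exact (mul_right_cancel₀ hBct e1).symm
  -- u
  set u : S → ℝ := Y *ᵥ Pi.single c 1 - Pi.single c 1 with hu
  have hu1 : ∀ i, i ∉ T → u i = 0 := by
    intro i hi
    rw [hu, Pi.sub_apply, coord_fixed hG T hy _ i hi, sub_self]
  have hu2 : ∀ t ∈ T, B t ⬝ᵥ u = (Z - 1) * B t c := by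
    intro t ht
    rw [hu, dotProduct_sub, dotProduct_mulVec, (hzet t ht).2, hzetT t ht, smul_dotProduct,
      dotProduct_single_one, smul_eq_mul]
    ring
  have huw : u = (Z - 1) • w := by
    have := unique_w T B hdet (u - (Z - 1) • w) (fun i hi => by
      rw [Pi.sub_apply, Pi.smul_apply, hu1 i hi, hw1 i hi]; simp) (fun t ht => by
      rw [dotProduct_sub, dotProduct_smul, hu2 t ht, hw2 t ht, smul_eq_mul, sub_self])
    exact sub_eq_zero.mp this
  have hfin : L * B d c = mu * (B d c + B d ⬝ᵥ u) := by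
    have e1 : B d ⬝ᵥ (G *ᵥ Pi.single c 1) = L * B d c := by
      rw [dotProduct_mulVec, (hlam d hd).2, hlamd, smul_dotProduct, dotProduct_single_one,
        smul_eq_mul]
    have e2 : G *ᵥ Pi.single c 1 = mu • (Pi.single c (1 : ℝ) + u) := by
      rw [← hYH, ← mulVec_mulVec, show H *ᵥ Pi.single c 1 = mu • Pi.single c 1 from hmu1,
        mulVec_smul, hu]
      congr 1
      abel
    rw [← e1, e2, dotProduct_smul, dotProduct_add, dotProduct_single_one, smul_eq_mul]
  rw [huw, dotProduct_smul, smul_eq_mul, ← hmuZ] at hfin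
  have h1 : mu * ((Z - 1) * (B d c - B d ⬝ᵥ w)) = 0 := by linear_combination hfin
  rcases mul_eq_zero.mp h1 with h | h
  · exact absurd h hmu0
  · rcases mul_eq_zero.mp h with h | h
    · exact absurd (sub_eq_zero.mp h) hZ1
    · exact sub_eq_zero.mp h

/-- the deformed form -/
noncomputable def BB (M : CoxeterMatrix S) (a r : ℝ) (c d : S) : Matrix S S ℝ := fun s t =>
  if s = t then 1 + a ^ 2 else if (s = c ∧ t = d) ∨ (s = d ∧ t = c) then r
  else if M s t = 2 then 0 else if M s t = 0 then -(2 * a)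
  else -(2 * a * Real.cos (Real.pi / M s t))

lemma BB_good (M : CoxeterMatrix S) (a r : ℝ) (ha : a ≠ 0) (c d : S) (hcd : M c d = 0) :
    Good M a (BB M a r c d) where
  a0 := ha
  diag s := by simp [BB]
  br s t hst h3 := by
    have hdc : M d c = 0 := by rw [← hcd]; exact M.isSymm.apply c d
    have hts : M t s = M s t := M.isSymm.apply s t
    have h1 : ¬ ((s = c ∧ t = d) ∨ (s = d ∧ t = c)) := by
      rintro (⟨rfl, rfl⟩ | ⟨rfl, rfl⟩) <;> omega
    have h1' : ¬ ((t = c ∧ s = d) ∨ (t = d ∧ s = c)) := by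
      rintro (⟨rfl, rfl⟩ | ⟨rfl, rfl⟩) <;> omega
    have h2 : ¬ M s t = 2 := by omega
    have h0 : ¬ M s t = 0 := by omega
    unfold BB
    simp only [if_neg hst, if_neg (Ne.symm hst), if_neg h1, if_neg h1', hts, if_neg h2, if_neg h0]
    ring
  two s t h := by
    have hdc : M d c = 0 := by rw [← hcd]; exact M.isSymm.apply c d
    have hst : s ≠ t := by
      rintro rfl
      have := M.diagonal s
      rw [h] at this
      omega
    have h1 : ¬ ((s = c ∧ t = d) ∨ (s = d ∧ t = c)) := by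
      rintro (⟨rfl, rfl⟩ | ⟨rfl, rfl⟩) <;> omega
    unfold BB
    simp only [if_neg hst, if_neg h1, if_pos h]

end Pool.MP_a3a325_al
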