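import Mathlib
import Pool.Agent.Lib_helper76.AO.Basic
import Pool.Agent.Lib_helper76.AO.Braid
import Pool.Agent.Lib_helper76.AO.Rep
import Pool.Agent.Lib_helper76.AO.Twist

set_option autoImplicit false
set_option linter.unusedSectionVars false

namespace Pool.MP_a3a325_al

open Matrix

variable {S : Type*} [Fintype S] [DecidableEq S]

section twist

variable {M : CoxeterMatrix S}

lemma Msymm (M : CoxeterMatrix S) (s t : S) : M s t = M t s := M.isSymm.apply t s

/-- images of the generators under the twist -/
noncomputable def twistFun (M : CoxeterMatrix S) (C : Set S) (y : ArtinGroup M) (s : S) :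
    ArtinGroup M := by
  classical
  exact if s ∈ C then y * gen M s * y⁻¹ else gen M s

lemma twistFun_in {C : Set S} {y : ArtinGroup M} {s : S} (h : s ∈ C) :
    twistFun M C y s = y * gen M s * y⁻¹ := by
  classical
  simp [twistFun, h]

lemma twistFun_out {C : Set S} {y : ArtinGroup M} {s : S} (h : s ∉ C) :
    twistFun M C y s = gen M s := by
  classical
  simp [twistFun, h]

lemma twistFun_comm {C : Set S} {y : ArtinGroup M} {s : S} (h : Commute y (gen M s)) :
    twistFun M C y s = y * gen M s * y⁻¹ := by
  by_cases hs : s ∈ C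
  · exact twistFun_in hs
  · rw [twistFun_out hs, h.eq, mul_inv_cancel_right]

lemma twist_rel (C : Set S) (y : ArtinGroup M)
    (hsep : ∀ s ∈ C, ∀ t, t ∉ C → M s t = 0 ∨ Commute y (gen M t)) (s t : S) :
    alt (twistFun M C y s) (twistFun M C y t) (M s t) =
      alt (twistFun M C y t) (twistFun M C y s) (M s t) := by
  have hconj : alt (y * gen M s * y⁻¹) (y * gen M t * y⁻¹) (M s t) =
      alt (y * gen M t * y⁻¹) (y * gen M s * y⁻¹) (M s t) := by
    rw [alt_conj, alt_conj, gen_rel]
  by_cases hs : s ∈ C
  · by_cases ht : t ∈ C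
    · rw [twistFun_in hs, twistFun_in ht, hconj]
    · rcases hsep s hs t ht with h | h
      · rw [h]; rfl
      · rw [twistFun_in hs, twistFun_comm h, hconj]
  · by_cases ht : t ∈ C
    · rcases hsep t ht s hs with h | h
      · rw [Msymm M s t, h]; rfl
      · rw [twistFun_comm h, twistFun_in ht, hconj]
    · rw [twistFun_out hs, twistFun_out ht, gen_rel]

/-- the twist -/
noncomputable def twistHom (C : Set S) (y : ArtinGroup M)
    (hsep : ∀ s ∈ C, ∀ t, t ∉ C → M s t = 0 ∨ Commute y (gen M t)) :
    ArtinGroup M →* ArtinGroup M :=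
  lift (twistFun M C y) (twist_rel C y hsep)

lemma fix_closure (φ : ArtinGroup M →* ArtinGroup M) (T : Set S)
    (h : ∀ t ∈ T, φ (gen M t) = gen M t) {z : ArtinGroup M}
    (hz : z ∈ Subgroup.closure (gen M '' T)) : φ z = z := by
  induction hz using Subgroup.closure_induction with
  | mem x hx => obtain ⟨t, ht, rfl⟩ := hx; exact h t ht
  | one => exact map_one φ
  | mul x y _ _ hx hy => rw [map_mul, hx, hy]
  | inv x _ hx => rw [map_inv, hx]

/-- **Twist theorem**. -/
theorem twist_infinite (M : CoxeterMatrix S) (T C : Set S) (z : ArtinGroup M)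
    (hz : z ∈ Subgroup.closure (gen M '' T)) (hcomm : ∀ t ∈ T, Commute z (gen M t))
    (hdeg : degHom M z ≠ 1) (hTC : Disjoint T C)
    (hirr : ∀ U ⊆ T, U.Nonempty → (T \ U).Nonempty → ∃ s ∈ U, ∃ t ∈ T \ U, M s t ≠ 2)
    (hsep : ∀ s ∈ C, ∀ t, t ∉ C → M s t = 0 ∨ Commute z (gen M t))
    {c d : S} (hc : c ∈ C) (hd : d ∉ C) (hdT : d ∉ T) (hcd : M c d = 0)
    (hct : ∃ t ∈ T, M c t ≠ 2) (hdt : ∃ t ∈ T, M d t ≠ 2) : ¬ FiniteOut (ArtinGroup M) := by
  have hTC' : ∀ t ∈ T, t ∉ C := fun t ht htC => Set.disjoint_left.mp hTC ht htC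
  have hcT : c ∉ T := fun h => hTC' c h hc
  have hsepn : ∀ n : ℤ, ∀ s ∈ C, ∀ t, t ∉ C → M s t = 0 ∨ Commute (z ^ n) (gen M t) :=
    fun n s hs t ht => (hsep s hs t ht).imp id (fun h => h.zpow_left n)
  set τ : ℤ → (ArtinGroup M →* ArtinGroup M) := fun n => twistHom C (z ^ n) (hsepn n) with hτ
  have hτin : ∀ n, ∀ s ∈ C, τ n (gen M s) = z ^ n * gen M s * (z ^ n)⁻¹ := by
    intro n s hs
    simp only [hτ, twistHom, lift_gen]
    exact twistFun_in hs
  have hτout : ∀ n, ∀ s, s ∉ C → τ n (gen M s) = gen M s := by
    intro n s hs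
    simp only [hτ, twistHom, lift_gen]
    exact twistFun_out hs
  have hτz : ∀ n, τ n z = z := fun n => fix_closure (τ n) T (fun t ht => hτout n t (hTC' t ht)) hz
  refine not_finiteOut_of_homs τ ?_ ?_ ?_
  · apply hom_ext
    intro s
    by_cases hs : s ∈ C
    · rw [hτin 0 s hs]; simp
    · rw [hτout 0 s hs]; simp
  · intro n m
    apply hom_ext
    intro s
    by_cases hs : s ∈ C
    · rw [hτin _ s hs, MonoidHom.comp_apply, hτin m s hs, map_mul, map_mul, map_inv, map_zpow,
        hτz, hτin n s hs, add_comm n m, _root_.zpow_add]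
      group
    · rw [hτout _ s hs, MonoidHom.comp_apply, hτout m s hs, hτout n s hs]
  · intro n hn g hg
    -- choose the parameters
    set a : ℝ := 1 / (2 * Fintype.card S) with ha
    have hcard : (0 : ℝ) < Fintype.card S := by
      exact_mod_cast Fintype.card_pos_iff.mpr ⟨c⟩
    have hcard1 : (1 : ℝ) ≤ Fintype.card S := by
      exact_mod_cast Fintype.card_pos_iff.mpr ⟨c⟩
    have ha0 : 0 < a := by positivity
    have hac : 2 * a * Fintype.card S ≤ 1 := by
      rw [ha]; field_simp; exact le_refl _
    have ha12 : a ≤ 1 / 2 := by nlinarith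
    have ha2 : a ^ 2 < 1 := by nlinarith
    have hdc : M d c = 0 := by rw [Msymm, hcd]
    -- forms
    have hG : ∀ r, Good M a (BB M a r c d) := fun r => BB_good M a r ha0.ne' c d hcd
    have hrow : ∀ r, ∀ t ∈ T, ∀ j, BB M a r c d t j = BB M a 0 c d t j := by
      intro r t ht j
      have h1 : ¬ ((t = c ∧ j = d) ∨ (t = d ∧ j = c)) := by
        rintro (⟨rfl, _⟩ | ⟨rfl, _⟩)
        · exact hcT ht
        · exact hdT ht
      unfold BB
      simp only [if_neg h1]
    have hcol : ∀ r, ∀ t ∈ T, ∀ j, BB M a r c d j t = BB M a 0 c d j t := by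
      intro r t ht j
      have h1 : ¬ ((j = c ∧ t = d) ∨ (j = d ∧ t = c)) := by
        rintro (⟨_, rfl⟩ | ⟨_, rfl⟩)
        · exact hdT ht
        · exact hcT ht
      unfold BB
      simp only [if_neg h1]
    have hdet : ∀ r, (AA T (BB M a r c d)).det ≠ 0 := by
      intro r
      apply AA_det_ne_zero T _ a ha0 hac
      · intro i _; exact (hG r).diag i
      · intro i hi j hj hij
        rw [hrow r i hi j]
        have h1 : ¬ ((i = c ∧ j = d) ∨ (i = d ∧ j = c)) := by
          rintro (⟨rfl, _⟩ | ⟨rfl, _⟩)
          · exact hcT hi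
          · exact hdT hi
        unfold BB
        rw [if_neg hij, if_neg h1]
        split_ifs
        · simp; exact ha0.le
        · rw [abs_neg, abs_of_pos (by linarith)]
        · rw [abs_neg, abs_mul, abs_of_pos (show (0 : ℝ) < 2 * a by linarith)]
          have := Real.abs_cos_le_one (Real.pi / M i j)
          nlinarith [abs_nonneg (Real.cos (Real.pi / M i j))]
    have hnz : ∀ r, ∀ s t, M s t ≠ 2 → (s ∈ T ∨ t ∈ T) → BB M a r c d s t ≠ 0 := by
      intro r s t h2 hor
      have h1 : ¬ ((s = c ∧ t = d) ∨ (s = d ∧ t = c)) := by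
        rintro (⟨rfl, rfl⟩ | ⟨rfl, rfl⟩) <;> tauto
      unfold BB
      split_ifs with h3 h4
      · positivity
      · exact neg_ne_zero.mpr (by positivity)
      · have h5 : M s t ≠ 1 := M.off_diagonal s t h3
        have h6 : 3 ≤ M s t := by omega
        have h7 : (3 : ℝ) ≤ M s t := by exact_mod_cast h6
        have hcos : 0 < Real.cos (Real.pi / M s t) := by
          apply Real.cos_pos_of_mem_Ioo
          constructor
          · have : 0 < Real.pi / (M s t : ℝ) := by positivity
            linarith [Real.pi_pos]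
          · rw [div_lt_div_iff₀ (by linarith) (by norm_num)]
            nlinarith [Real.pi_pos]
        exact neg_ne_zero.mpr (by positivity)
    -- the value of w
    obtain ⟨w0, hw01, hw02⟩ := exists_w T (BB M a 0 c d) (hdet 0) (fun t => BB M a 0 c d t c)
    set r : ℝ := BB M a 0 c d d ⬝ᵥ w0 + 1 with hr
    -- apply
    have hyT : z ^ n ∈ Subgroup.closure (gen M '' T) := Subgroup.zpow_mem _ hz n
    have hydeg : degHom M (z ^ n) ≠ 1 := by
      rw [map_zpow]
      intro h
      apply hdeg
      have h' := congrArg Multiplicative.toAdd h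
      rw [toAdd_zpow, toAdd_one, smul_eq_mul] at h'
      rcases mul_eq_zero.mp h' with h'' | h''
      · exact absurd h'' hn
      · rw [← ofAdd_toAdd (degHom M z), h'', ofAdd_zero]
    obtain ⟨w, hw1, hw2, hw3⟩ := forced_value (hG r) ha2 T C (hdet r) hirr hTC' (hnz r) hyT
      (fun t ht => (hcomm t ht).zpow_left n) hydeg hc hd hct hdt (g := g)
      (fun s hs => by
        have h1 := hg (gen M s)
        rw [hτout n s hs] at h1
        have h2 : gen M s * g = g * gen M s := by
          nth_rewrite 1 [h1]; group
        exact h2.symm)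
      (fun s hs => by
        have h1 := hg (gen M s)
        rw [hτin n s hs] at h1
        have h2 : (z ^ n)⁻¹ * g * gen M s = gen M s * ((z ^ n)⁻¹ * g) := by
          have h3 : g * gen M s = z ^ n * gen M s * (z ^ n)⁻¹ * g := by rw [h1]; group
          rw [mul_assoc, h3]; group
        exact h2)
    have hww : w - w0 = 0 := by
      apply unique_w T (BB M a 0 c d) (hdet 0)
      · intro i hi; rw [Pi.sub_apply, hw1 i hi, hw01 i hi, sub_zero]
      · intro t ht
        have e1 : BB M a r c d t = BB M a 0 c d t := funext (fun j => hrow r t ht j)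
        have e2 := hw2 t ht
        rw [e1] at e2
        rw [dotProduct_sub, e2, hw02 t ht, sub_self]
    have hww' : w = w0 := sub_eq_zero.mp hww
    have hdw : BB M a r c d d ⬝ᵥ w = BB M a 0 c d d ⬝ᵥ w0 := by
      rw [hww']
      unfold dotProduct
      apply Finset.sum_congr rfl
      intro j _
      by_cases hj : j ∈ T
      · rw [hcol r j hj d]
      · rw [hw01 j hj, mul_zero, mul_zero]
    have hBdc : BB M a r c d d c = r := by
      have hne : d ≠ c := by rintro rfl; exact hd hc
      unfold BB
      rw [if_neg hne, if_pos (Or.inr ⟨rfl, rfl⟩)]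
    rw [hBdc, hdw, hr] at hw3
    linarith

end twist

section transvection

variable {M : CoxeterMatrix S}

lemma alt_mul_central {G : Type*} [Group G] (x y u v : G) (hux : Commute u x) (huy : Commute u y)
    (hvx : Commute v x) (hvy : Commute v y) (huv : Commute u v) (n : ℕ) :
    alt (x * u) (y * v) n = alt x y n * alt u v n := by
  induction n generalizing x y u v with
  | zero => simp
  | succ n ih =>
    rw [alt_succ, alt_succ, alt_succ, ih y x v u hvy hvx huy hux huv.symm]
    have h1 : Commute u (alt y x n) := by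
      clear ih
      induction n generalizing x y with
      | zero => simp
      | succ n ih => rw [alt_succ]; exact huy.mul_right (ih y x huy hux hvy hvx)
    calc x * u * (alt y x n * alt v u n) = x * (u * alt y x n) * alt v u n := by group
      _ = x * (alt y x n * u) * alt v u n := by rw [h1.eq]
      _ = x * alt y x n * (u * alt v u n) := by group

lemma alt_zpow {G : Type*} [Group G] (z : G) (i j : ℤ) (m : ℕ) (h : Even m ∨ i = j) :
    alt (z ^ i) (z ^ j) m = alt (z ^ j) (z ^ i) m := by
  rcases h with ⟨k, rfl⟩ | rfl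
  · rw [← two_mul, alt_even, alt_even, (Commute.zpow_zpow_self z i j).eq]
  · rfl

/-- the weight homomorphism -/
def wHom (M : CoxeterMatrix S) (f : S → ℤ) (hf : ∀ s t, Odd (M s t) → f s = f t) :
    ArtinGroup M →* Multiplicative ℤ :=
  lift (fun s => Multiplicative.ofAdd (f s)) (fun s t => by
    have h1 : ∀ i : ℤ, Multiplicative.ofAdd i = (Multiplicative.ofAdd (1 : ℤ)) ^ i := by
      intro i; rw [← ofAdd_zsmul]; simp
    rw [h1 (f s), h1 (f t)]
    apply alt_zpow
    rcases Nat.even_or_odd (M s t) with h | h
    · exact Or.inl h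
    · exact Or.inr (hf s t h))

/-- **Transvection theorem**. -/
theorem transvection_infinite (M : CoxeterMatrix S) (T : Set S) (f : S → ℤ) (z : ArtinGroup M)
    (hf : ∀ s t, Odd (M s t) → f s = f t)
    (hz : z ∈ Subgroup.closure (gen M '' T))
    (hzf : wHom M f hf z = 1)
    (hT : (∀ t ∈ T, f t = 0) ∨ (∀ t ∈ T, Commute z (gen M t)))
    (hC1 : ∀ s t, s ≠ t → M s t ≠ 0 → f s ≠ 0 → Commute z (gen M t))
    (hC2 : ∀ s t, s ≠ t → M s t ≠ 0 → M s t ≠ 2 → f s ≠ 0 → Commute z (gen M s))
    (hdeg : degHom M z ≠ 1) (hne : ∃ s, f s ≠ 0) : ¬ FiniteOut (ArtinGroup M) := by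
  have hrel : ∀ n : ℤ, ∀ s t, alt (gen M s * z ^ (n * f s)) (gen M t * z ^ (n * f t)) (M s t) =
      alt (gen M t * z ^ (n * f t)) (gen M s * z ^ (n * f s)) (M s t) := by
    intro n s t
    by_cases hst : s = t
    · subst hst; rfl
    by_cases h0 : M s t = 0
    · rw [h0]; rfl
    by_cases hs : f s = 0
    · by_cases ht : f t = 0
      · rw [hs, ht, mul_zero, zpow_zero, mul_one, mul_one, gen_rel]
      · -- f s = 0, f t ≠ 0
        have h0' : M t s ≠ 0 := by rwa [Msymm]
        have hzs : Commute z (gen M s) := hC1 t s (Ne.symm hst) h0' ht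
        by_cases h2 : M s t = 2
        · rw [hs, mul_zero, zpow_zero, mul_one, h2, alt_two, alt_two]
          have hg := gen_rel M s t
          rw [h2, alt_two, alt_two] at hg
          rw [← mul_assoc, hg, mul_assoc, mul_assoc, (hzs.zpow_left (n * f t)).eq]
        · have h2' : M t s ≠ 2 := by rwa [Msymm]
          have hzt : Commute z (gen M t) := hC2 t s (Ne.symm hst) h0' h2' ht
          have hev : Even (M s t) ∨ n * f s = n * f t := by
            rcases Nat.even_or_odd (M s t) with h | h
            · exact Or.inl h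
            · exact Or.inr (by rw [hf s t h])
          rw [alt_mul_central _ _ _ _ (hzs.zpow_left _) (hzt.zpow_left _) (hzs.zpow_left _)
            (hzt.zpow_left _) (Commute.zpow_zpow_self z _ _),
            alt_mul_central _ _ _ _ (hzt.zpow_left _) (hzs.zpow_left _) (hzt.zpow_left _)
            (hzs.zpow_left _) (Commute.zpow_zpow_self z _ _), gen_rel, alt_zpow z _ _ _ hev]
    · have hzt : Commute z (gen M t) := hC1 s t hst h0 hs
      by_cases ht : f t = 0
      · by_cases h2 : M s t = 2
        · rw [ht, mul_zero, zpow_zero, mul_one, h2, alt_two, alt_two]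
          have hg := gen_rel M s t
          rw [h2, alt_two, alt_two] at hg
          rw [mul_assoc, (hzt.zpow_left (n * f s)).eq, ← mul_assoc, hg, mul_assoc]
        · have hzs : Commute z (gen M s) := hC2 s t hst h0 h2 hs
          have hev : Even (M s t) ∨ n * f s = n * f t := by
            rcases Nat.even_or_odd (M s t) with h | h
            · exact Or.inl h
            · exact Or.inr (by rw [hf s t h])
          rw [alt_mul_central _ _ _ _ (hzs.zpow_left _) (hzt.zpow_left _) (hzs.zpow_left _)
            (hzt.zpow_left _) (Commute.zpow_zpow_self z _ _),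
            alt_mul_central _ _ _ _ (hzt.zpow_left _) (hzs.zpow_left _) (hzt.zpow_left _)
            (hzs.zpow_left _) (Commute.zpow_zpow_self z _ _), gen_rel, alt_zpow z _ _ _ hev]
      · have h0' : M t s ≠ 0 := by rwa [Msymm]
        have hzs : Commute z (gen M s) := hC1 t s (Ne.symm hst) h0' ht
        have hev : Even (M s t) ∨ n * f s = n * f t := by
          rcases Nat.even_or_odd (M s t) with h | h
          · exact Or.inl h
          · exact Or.inr (by rw [hf s t h])
        rw [alt_mul_central _ _ _ _ (hzs.zpow_left _) (hzt.zpow_left _) (hzs.zpow_left _)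
          (hzt.zpow_left _) (Commute.zpow_zpow_self z _ _),
          alt_mul_central _ _ _ _ (hzt.zpow_left _) (hzs.zpow_left _) (hzt.zpow_left _)
          (hzs.zpow_left _) (Commute.zpow_zpow_self z _ _), gen_rel, alt_zpow z _ _ _ hev]
  set τ : ℤ → (ArtinGroup M →* ArtinGroup M) :=
    fun n => lift (fun s => gen M s * z ^ (n * f s)) (hrel n) with hτ
  have hτg : ∀ n s, τ n (gen M s) = gen M s * z ^ (n * f s) := by
    intro n s; simp only [hτ, lift_gen]
  have hτz : ∀ n, τ n z = z := by
    intro n
    rcases hT with h | h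
    · apply fix_closure (τ n) T _ hz
      intro t ht
      rw [hτg, h t ht, mul_zero, zpow_zero, mul_one]
    · have key : ∀ x ∈ Subgroup.closure (gen M '' T),
          Commute z x ∧ τ n x = x * z ^ (n * Multiplicative.toAdd (wHom M f hf x)) := by
        intro x hx
        induction hx using Subgroup.closure_induction with
        | mem x hx =>
          obtain ⟨t, ht, rfl⟩ := hx
          refine ⟨h t ht, ?_⟩
          rw [hτg]
          simp [wHom]
        | one => simp
        | mul x y _ _ hx hy =>
          refine ⟨hx.1.mul_right hy.1, ?_⟩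
          rw [map_mul, hx.2, hy.2, map_mul, toAdd_mul, mul_add, _root_.zpow_add]
          have := (hy.1.zpow_left (n * Multiplicative.toAdd (wHom M f hf x))).eq
          calc x * z ^ (n * Multiplicative.toAdd (wHom M f hf x)) *
                (y * z ^ (n * Multiplicative.toAdd (wHom M f hf y)))
              = x * (z ^ (n * Multiplicative.toAdd (wHom M f hf x)) * y) *
                z ^ (n * Multiplicative.toAdd (wHom M f hf y)) := by group
            _ = _ := by rw [this]; group
        | inv x _ hx =>
          refine ⟨hx.1.inv_right, ?_⟩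
          rw [map_inv, hx.2, map_inv, toAdd_inv, mul_neg, _root_.zpow_neg, _root_.mul_inv_rev]
          exact ((hx.1.zpow_left (n * Multiplicative.toAdd (wHom M f hf x))).inv_inv).eq
      have := (key z hz).2
      rw [hzf, toAdd_one, mul_zero, zpow_zero, mul_one] at this
      exact this
  refine not_finiteOut_of_homs τ ?_ ?_ ?_
  · apply hom_ext
    intro s
    rw [hτg]; simp
  · intro n m
    apply hom_ext
    intro s
    rw [hτg, MonoidHom.comp_apply, hτg, map_mul, map_zpow, hτz, hτg, mul_assoc, ← _root_.zpow_add,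
      add_mul]
  · intro n hn g hg
    obtain ⟨s, hs⟩ := hne
    have h1 := congrArg (degHom M) (hg (gen M s))
    rw [hτg, map_mul, map_mul, map_mul, map_inv, map_zpow, mul_comm (degHom M g), mul_assoc,
      mul_inv_cancel, mul_one] at h1
    have h2 : degHom M z ^ (n * f s) = 1 := by
      exact mul_eq_left.mp h1
    apply hdeg
    have h' := congrArg Multiplicative.toAdd h2
    rw [toAdd_zpow, toAdd_one, smul_eq_mul] at h'
    rcases mul_eq_zero.mp h' with h'' | h''
    · exact absurd h'' (mul_ne_zero hn hs)
    · rw [← ofAdd_toAdd (degHom M z), h'', ofAdd_zero]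

end transvection

end Pool.MP_a3a325_al
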