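import Mathlib
import Pool.Agent.Lib_helper76.AO.Basic
import Pool.Agent.Lib_helper76.AO.Braid
import Pool.Agent.Lib_helper76.AO.Rep
import Pool.Agent.Lib_helper76.AO.Twist
import Pool.Agent.Lib_helper76.AO.Moves

set_option autoImplicit false
set_option linter.unusedSectionVars false

namespace Pool.MP_a3a325_al

variable {S : Type*} [Fintype S] [DecidableEq S]

/-- The odd graph: `s`, `t` adjacent when `m_st` is odd; its components are the conjugacy classes
of the generators. -/
def oddGraph {S : Type*} (M : CoxeterMatrix S) : SimpleGraph S where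
  Adj s t := s ≠ t ∧ Odd (M s t)
  symm := ⟨fun s t h => ⟨h.1.symm, by
    have : M t s = M s t := M.isSymm.apply s t
    rw [this]; exact h.2⟩⟩
  loopless := ⟨fun _ h => h.1 rfl⟩

lemma split_of_not_preconnected {V : Type*} (G : SimpleGraph V) (h : ¬ G.Preconnected) :
    ∃ C : Set V, C.Nonempty ∧ Cᶜ.Nonempty ∧ ∀ c ∈ C, ∀ d, d ∉ C → ¬ G.Adj c d := by
  unfold SimpleGraph.Preconnected at h
  push Not at h
  obtain ⟨u, v, huv⟩ := h
  refine ⟨{x | G.Reachable u x}, ⟨u, SimpleGraph.Reachable.refl u⟩, ⟨v, huv⟩, ?_⟩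
  intro c hc d hd hcd
  exact hd (SimpleGraph.Reachable.trans hc hcd.reachable)

variable {M : CoxeterMatrix S}

lemma commute_of_two {s t : S} (h : M s t = 2) : Commute (gen M s) (gen M t) := by
  have := gen_rel M s t
  rwa [h, alt_two, alt_two] at this

lemma commute_closure {T : Set S} {z x : ArtinGroup M}
    (hz : z ∈ Subgroup.closure (gen M '' T)) (h : ∀ t ∈ T, Commute (gen M t) x) :
    Commute z x := by
  induction hz using Subgroup.closure_induction with
  | mem y hy => obtain ⟨t, ht, rfl⟩ := hy; exact h t ht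
  | one => exact Commute.one_left x
  | mul y w _ _ hy hw => exact hy.mul_left hw
  | inv y _ hy => exact hy.inv_left

lemma wHom_closure {f : S → ℤ} (hf : ∀ s t, Odd (M s t) → f s = f t) {T : Set S}
    {z : ArtinGroup M} (hz : z ∈ Subgroup.closure (gen M '' T)) (h : ∀ t ∈ T, f t = 0) :
    wHom M f hf z = 1 := by
  induction hz using Subgroup.closure_induction with
  | mem y hy =>
    obtain ⟨t, ht, rfl⟩ := hy
    simp [wHom, h t ht]
  | one => simp
  | mul y w _ _ hy hw => rw [map_mul, hy, hw, mul_one]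
  | inv y _ hy => rw [map_inv, hy, inv_one]

/-- the transvection half: one side commutes with the separating set -/
theorem side_infinite (M : CoxeterMatrix S) (T C D : Set S) (z : ArtinGroup M)
    (hz : z ∈ Subgroup.closure (gen M '' T)) (hcomm : ∀ t ∈ T, Commute z (gen M t))
    (hdeg : degHom M z ≠ 1)
    (hC : C.Nonempty) (hTC : Disjoint T C)
    (hU : ∀ s, s ∈ T ∨ s ∈ C ∨ s ∈ D)
    (h0 : ∀ c ∈ C, ∀ d ∈ D, M c d = 0) (h2 : ∀ c ∈ C, ∀ t ∈ T, M c t = 2) :
    ¬ FiniteOut (ArtinGroup M) := by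
  classical
  have hTC' : ∀ t ∈ T, t ∉ C := fun t ht h => Set.disjoint_left.mp hTC ht h
  have key : ∀ s ∈ C, ∀ t, t ∉ C → ¬ Odd (M s t) := by
    intro s hs t ht
    rcases hU t with h | h | h
    · rw [h2 s hs t h]; decide
    · exact absurd h ht
    · rw [h0 s hs t h]; decide
  have hzC : ∀ s ∈ C, Commute z (gen M s) := fun s hs =>
    commute_closure hz (fun t ht => (commute_of_two (h2 s hs t ht)).symm)
  have hf : ∀ s t, Odd (M s t) → (if s ∈ C then (1 : ℤ) else 0) = if t ∈ C then 1 else 0 := by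
    intro s t hst
    by_cases hs : s ∈ C
    · by_cases ht : t ∈ C
      · simp [hs, ht]
      · exact absurd hst (key s hs t ht)
    · by_cases ht : t ∈ C
      · exact absurd (by rwa [Msymm] : Odd (M t s)) (key t ht s hs)
      · simp [hs, ht]
  refine transvection_infinite M T (fun s => if s ∈ C then 1 else 0) z hf hz ?_ ?_ ?_ ?_ hdeg ?_
  · exact wHom_closure hf hz (fun t ht => if_neg (hTC' t ht))
  · exact Or.inl (fun t ht => if_neg (hTC' t ht))
  · intro s t _ hM hs
    have hs' : s ∈ C := by by_contra h; exact hs (if_neg h)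
    rcases hU t with h | h | h
    · exact hcomm t h
    · exact hzC t h
    · exact absurd (h0 s hs' t h) hM
  · intro s t _ _ _ hs
    have hs' : s ∈ C := by by_contra h; exact hs (if_neg h)
    exact hzC s hs'
  · obtain ⟨c, hc⟩ := hC
    exact ⟨c, by simp [hc]⟩

/-- a separating set with a central element of non-zero degree -/
theorem separate_infinite (M : CoxeterMatrix S) (T C D : Set S) (z : ArtinGroup M)
    (hz : z ∈ Subgroup.closure (gen M '' T)) (hcomm : ∀ t ∈ T, Commute z (gen M t))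
    (hdeg : degHom M z ≠ 1)
    (hirr : ∀ U ⊆ T, U.Nonempty → (T \ U).Nonempty → ∃ s ∈ U, ∃ t ∈ T \ U, M s t ≠ 2)
    (hC : C.Nonempty) (hD : D.Nonempty) (hTC : Disjoint T C) (hTD : Disjoint T D)
    (hCD : Disjoint C D) (hU : ∀ s, s ∈ T ∨ s ∈ C ∨ s ∈ D)
    (h0 : ∀ c ∈ C, ∀ d ∈ D, M c d = 0) : ¬ FiniteOut (ArtinGroup M) := by
  classical
  by_cases h1 : ∀ c ∈ C, ∀ t ∈ T, M c t = 2
  · exact side_infinite M T C D z hz hcomm hdeg hC hTC hU h0 h1
  by_cases h2 : ∀ d ∈ D, ∀ t ∈ T, M d t = 2
  · exact side_infinite M T D C z hz hcomm hdeg hD hTD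
      (fun s => (hU s).elim Or.inl (fun h => h.elim (fun h => Or.inr (Or.inr h))
        (fun h => Or.inr (Or.inl h))))
      (fun d hd c hc => by rw [Msymm]; exact h0 c hc d hd) h2
  push Not at h1 h2
  obtain ⟨c, hc, tc, htc, hct⟩ := h1
  obtain ⟨d, hd, td, htd, hdt⟩ := h2
  refine twist_infinite M T C z hz hcomm hdeg hTC hirr ?_ (c := c) (d := d) hc ?_ ?_ (h0 c hc d hd)
    ⟨tc, htc, hct⟩ ⟨td, htd, hdt⟩
  · intro s hs t ht
    rcases hU t with h | h | h
    · exact Or.inr (hcomm t h)
    · exact absurd h ht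
    · exact Or.inl (h0 s hs t h)
  · exact fun h => Set.disjoint_left.mp hCD h hd
  · exact fun h => Set.disjoint_left.mp hTD h hd

lemma irr_singleton (M : CoxeterMatrix S) (v : S) :
    ∀ U ⊆ ({v} : Set S), U.Nonempty → (({v} : Set S) \ U).Nonempty →
      ∃ s ∈ U, ∃ t ∈ ({v} : Set S) \ U, M s t ≠ 2 := by
  rintro U hU ⟨u, hu⟩ ⟨w, hw1, hw2⟩
  exfalso
  rw [Set.mem_singleton_iff] at hw1
  have := hU hu
  rw [Set.mem_singleton_iff] at this
  exact hw2 (by rw [hw1, ← this]; exact hu)

lemma irr_pair (M : CoxeterMatrix S) (v w : S) (h : M v w ≠ 2) :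
    ∀ U ⊆ ({v, w} : Set S), U.Nonempty → (({v, w} : Set S) \ U).Nonempty →
      ∃ s ∈ U, ∃ t ∈ ({v, w} : Set S) \ U, M s t ≠ 2 := by
  rintro U hU ⟨u, hu⟩ ⟨x, hx1, hx2⟩
  refine ⟨u, hu, x, ⟨hx1, hx2⟩, ?_⟩
  have hux : u ≠ x := by rintro rfl; exact hx2 hu
  have h1 := hU hu
  simp only [Set.mem_insert_iff, Set.mem_singleton_iff] at h1 hx1
  rcases h1 with rfl | rfl <;> rcases hx1 with rfl | rfl
  · exact absurd rfl hux
  · exact h
  · rw [Msymm]; exact h
  · exact absurd rfl hux

lemma degHom_gen_ne (M : CoxeterMatrix S) (v : S) : degHom M (gen M v) ≠ 1 := by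
  rw [degHom_gen]
  intro h
  have := congrArg Multiplicative.toAdd h
  simp at this

/-- the square of the Garside element of a dihedral parabolic -/
lemma dihedral_comm (M : CoxeterMatrix S) (v w : S) :
    Commute ((gen M v * gen M w) ^ (M v w)) (gen M v) ∧
      Commute ((gen M v * gen M w) ^ (M v w)) (gen M w) := by
  set x := gen M v with hx
  set y := gen M w with hy
  set m := M v w with hm
  have hrel : alt x y m = alt y x m := gen_rel M v w
  have happ : ∀ (x y : ArtinGroup M) (n k : ℕ), alt x y (n + k) =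
      alt x y n * (if Even n then alt x y k else alt y x k) := by
    intro x y n
    induction n generalizing x y with
    | zero => intro k; simp
    | succ n ih =>
      intro k
      rw [show n + 1 + k = (n + k) + 1 by ring, alt_succ, ih y x k, alt_succ]
      by_cases hn : Even n
      · have : ¬ Even (n + 1) := by simpa [Nat.even_add_one] using hn
        rw [if_pos hn, if_neg this, mul_assoc]
      · have : Even (n + 1) := by simpa [Nat.even_add_one] using hn
        rw [if_neg hn, if_pos this, mul_assoc]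
  have hxy : (x * y) ^ m = (y * x) ^ m := by
    rw [← alt_even, ← alt_even, two_mul, happ x y m m, happ y x m m]
    by_cases h : Even m
    · rw [if_pos h, if_pos h, hrel]
    · rw [if_neg h, if_neg h, hrel]
  have hshift : ∀ n : ℕ, x * (y * x) ^ n = (x * y) ^ n * x := by
    intro n
    induction n with
    | zero => simp
    | succ n ih => rw [pow_succ', ← mul_assoc, ← mul_assoc, mul_assoc (x * y), ih, pow_succ',
        ← mul_assoc]
  have hshift' : ∀ n : ℕ, y * (x * y) ^ n = (y * x) ^ n * y := by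
    intro n
    induction n with
    | zero => simp
    | succ n ih => rw [pow_succ', ← mul_assoc, ← mul_assoc, mul_assoc (y * x), ih, pow_succ',
        ← mul_assoc]
  constructor
  · show (x * y) ^ m * x = x * (x * y) ^ m
    rw [← hshift m, hxy]
  · show (x * y) ^ m * y = y * (x * y) ^ m
    rw [hshift' m, hxy]

lemma degHom_pow_ne (M : CoxeterMatrix S) (v w : S) (k : ℕ) (hk : k ≠ 0) :
    degHom M ((gen M v * gen M w) ^ k) ≠ 1 := by
  rw [map_pow, map_mul, degHom_gen, degHom_gen]
  intro h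
  have := congrArg Multiplicative.toAdd h
  simp at this
  exact hk this

/-- a subset of `Tᶜ` as a pair of subsets of `S` -/
lemma induce_split (M : CoxeterMatrix S) (T : Set S)
    (h : ¬ ((artinGraph M).induce Tᶜ).Preconnected) :
    ∃ C D : Set S, C.Nonempty ∧ D.Nonempty ∧ Disjoint T C ∧ Disjoint T D ∧ Disjoint C D ∧
      (∀ s, s ∈ T ∨ s ∈ C ∨ s ∈ D) ∧ ∀ c ∈ C, ∀ d ∈ D, M c d = 0 := by
  classical
  obtain ⟨C, ⟨c, hc⟩, ⟨d, hd⟩, hCD⟩ := split_of_not_preconnected _ h
  refine ⟨Subtype.val '' C, Subtype.val '' Cᶜ, ⟨c, c, hc, rfl⟩, ⟨d, d, hd, rfl⟩, ?_, ?_, ?_, ?_, ?_⟩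
  · rw [Set.disjoint_left]
    rintro x hx ⟨y, _, rfl⟩
    exact y.2 hx
  · rw [Set.disjoint_left]
    rintro x hx ⟨y, _, rfl⟩
    exact y.2 hx
  · rw [Set.disjoint_left]
    rintro x ⟨y, hy, rfl⟩ ⟨y', hy', h⟩
    exact hy' (by rw [Subtype.val_injective h]; exact hy)
  · intro s
    by_cases hs : s ∈ T
    · exact Or.inl hs
    · right
      by_cases hs' : (⟨s, hs⟩ : (Tᶜ : Set S)) ∈ C
      · exact Or.inl ⟨_, hs', rfl⟩
      · exact Or.inr ⟨_, hs', rfl⟩
  · rintro _ ⟨x, hx, rfl⟩ _ ⟨y, hy, rfl⟩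
    have := hCD x hx y hy
    by_contra hM
    apply this
    refine ⟨?_, hM⟩
    intro hxy
    exact hy (by rw [← Subtype.val_injective hxy]; exact hx)

/-- no separating vertex -/
theorem no_cut_vertex (M : CoxeterMatrix S) (h : FiniteOut (ArtinGroup M)) (v : S) :
    ((artinGraph M).induce ({v} : Set S)ᶜ).Preconnected := by
  by_contra hcon
  obtain ⟨C, D, hC, hD, hTC, hTD, hCD, hU, h0⟩ := induce_split M {v} hcon
  refine separate_infinite M {v} C D (gen M v) ?_ ?_ (degHom_gen_ne M v) (irr_singleton M v) hC hD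
    hTC hTD hCD hU h0 h
  · exact Subgroup.subset_closure ⟨v, rfl, rfl⟩
  · intro t ht
    rw [Set.mem_singleton_iff] at ht
    rw [ht]

/-- no separating edge with label at least three -/
theorem no_cut_edge (M : CoxeterMatrix S) (h : FiniteOut (ArtinGroup M)) (v w : S)
    (hvw : 3 ≤ M v w) : ((artinGraph M).induce ({v, w} : Set S)ᶜ).Preconnected := by
  by_contra hcon
  obtain ⟨C, D, hC, hD, hTC, hTD, hCD, hU, h0⟩ := induce_split M {v, w} hcon
  refine separate_infinite M {v, w} C D ((gen M v * gen M w) ^ (M v w)) ?_ ?_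
    (degHom_pow_ne M v w _ (by omega)) (irr_pair M v w (by omega)) hC hD hTC hTD hCD hU h0 h
  · apply Subgroup.pow_mem
    apply Subgroup.mul_mem
    · exact Subgroup.subset_closure ⟨v, by simp, rfl⟩
    · exact Subgroup.subset_closure ⟨w, by simp, rfl⟩
  · intro t ht
    simp only [Set.mem_insert_iff, Set.mem_singleton_iff] at ht
    rcases ht with rfl | rfl
    · exact (dihedral_comm M _ w).1
    · exact (dihedral_comm M v _).2

lemma EdgeSplit.symm {v w : S} {C D : Set S} (h : EdgeSplit M v w C D) : EdgeSplit M v w D C :=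
  ⟨h.hD, h.hC, h.vD, h.wD, h.vC, h.wC,
    fun s => by rcases h.cover s with h | h | h | h <;> tauto,
    fun s hs hs' => h.disj s hs' hs, fun c hc d hd => by rw [Msymm]; exact h.sep d hd c hc⟩

lemma EdgeSplit.swap {v w : S} {C D : Set S} (h : EdgeSplit M v w C D) : EdgeSplit M w v C D :=
  ⟨h.hC, h.hD, h.wC, h.vC, h.wD, h.vD,
    fun s => by rcases h.cover s with h | h | h | h <;> tauto,
    h.disj, h.sep⟩

lemma not_both (h : FiniteOut (ArtinGroup M)) {v w : S} (hvw : M v w = 2) {C D : Set S}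
    (hs : EdgeSplit M v w C D) (hv : ∀ c ∈ C, M c v = 2) (hw : ∀ c ∈ C, M c w = 2) : False := by
  refine side_infinite M {v, w} C D (gen M v) ?_ ?_ (degHom_gen_ne M v) hs.hC ?_ ?_ hs.sep ?_ h
  · exact Subgroup.subset_closure ⟨v, by simp, rfl⟩
  · intro t ht
    simp only [Set.mem_insert_iff, Set.mem_singleton_iff] at ht
    rcases ht with rfl | rfl
    · exact Commute.refl _
    · exact commute_of_two hvw
  · rw [Set.disjoint_left]
    intro t ht
    simp only [Set.mem_insert_iff, Set.mem_singleton_iff] at ht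
    rcases ht with rfl | rfl
    · exact hs.vC
    · exact hs.wC
  · intro s
    rcases hs.cover s with h | h | h | h
    · exact Or.inl (by simp [h])
    · exact Or.inl (by simp [h])
    · exact Or.inr (Or.inl h)
    · exact Or.inr (Or.inr h)
  · intro c hc t ht
    simp only [Set.mem_insert_iff, Set.mem_singleton_iff] at ht
    rcases ht with rfl | rfl
    · exact hv c hc
    · exact hw c hc

lemma one_side (h : FiniteOut (ArtinGroup M)) {v w : S} (hvw : M v w = 2) {C D : Set S}
    (hs : EdgeSplit M v w C D) : (∀ c ∈ C, M c v = 2) ∨ (∀ d ∈ D, M d v = 2) := by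
  by_contra hcon
  push Not at hcon
  obtain ⟨⟨c, hc, hcv⟩, ⟨d, hd, hdv⟩⟩ := hcon
  refine twist_infinite M {v} C (gen M v) (Subgroup.subset_closure ⟨v, rfl, rfl⟩) ?_
      (degHom_gen_ne M v) ?_ (irr_singleton M v) ?_ (c := c) (d := d) hc ?_ ?_
      (hs.sep c hc d hd) ⟨v, rfl, hcv⟩ ⟨v, rfl, hdv⟩ h
  · intro t ht
    rw [Set.mem_singleton_iff] at ht
    rw [ht]
  · rw [Set.disjoint_left]
    intro t ht
    rw [Set.mem_singleton_iff] at ht
    rw [ht]
    exact hs.vC
  · intro s hsC t ht
    rcases hs.cover t with h | h | h | h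
    · exact Or.inr (by rw [h])
    · exact Or.inr (by rw [h]; exact commute_of_two hvw)
    · exact absurd h ht
    · exact Or.inl (hs.sep s hsC t h)
  · exact fun h => hs.disj d h hd
  · intro h
    rw [Set.mem_singleton_iff] at h
    exact hs.vD (h ▸ hd)

/-- the shape of a separating edge with label two -/
theorem cut_edge_two (h : FiniteOut (ArtinGroup M)) {v w : S} (hvw : M v w = 2) {C D : Set S}
    (hs : EdgeSplit M v w C D) :
    ((∀ c ∈ C, M c v = 2) ∧ (∀ d ∈ D, M d w = 2) ∧ (∃ c ∈ C, M c w ≠ 2) ∧ ∃ d ∈ D, M d v ≠ 2) ∨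
    ((∀ c ∈ C, M c w = 2) ∧ (∀ d ∈ D, M d v = 2) ∧ (∃ c ∈ C, M c v ≠ 2) ∧
      ∃ d ∈ D, M d w ≠ 2) := by
  have hwv : M w v = 2 := by rw [Msymm]; exact hvw
  have b1 := one_side h hvw hs
  have b2 := one_side h hwv hs.swap
  have n1 := not_both h hvw hs
  have n2 := not_both h hvw hs.symm
  by_cases a1 : ∀ c ∈ C, M c v = 2 <;> by_cases a2 : ∀ c ∈ C, M c w = 2 <;>
    by_cases a3 : ∀ d ∈ D, M d v = 2 <;> by_cases a4 : ∀ d ∈ D, M d w = 2
  all_goals first
    | exact absurd trivial (fun _ => n1 a1 a2)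
    | exact absurd trivial (fun _ => n2 a3 a4)
    | exact absurd b1 (by rintro (h | h); exacts [a1 h, a3 h])
    | exact absurd b2 (by rintro (h | h); exacts [a2 h, a4 h])
    | exact Or.inl ⟨a1, a4, by push Not at a2; exact a2, by push Not at a3; exact a3⟩
    | exact Or.inr ⟨a2, a3, by push Not at a1; exact a1, by push Not at a4; exact a4⟩

/-- both sides of a separating edge with label two are connected -/
theorem cut_edge_two_connected (h : FiniteOut (ArtinGroup M)) {v w : S} (hvw : M v w = 2)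
    {C D : Set S} (hs : EdgeSplit M v w C D) : ((artinGraph M).induce C).Preconnected := by
  classical
  by_contra hcon
  obtain ⟨E, ⟨e, he⟩, ⟨f, hf⟩, hEF⟩ := split_of_not_preconnected _ hcon
  set C₁ : Set S := Subtype.val '' E with hC₁
  set C₂ : Set S := Subtype.val '' Eᶜ with hC₂
  have h1C : ∀ x ∈ C₁, x ∈ C := by rintro _ ⟨y, _, rfl⟩; exact y.2
  have h2C : ∀ x ∈ C₂, x ∈ C := by rintro _ ⟨y, _, rfl⟩; exact y.2
  have h12 : ∀ x ∈ C₁, x ∉ C₂ := by
    rintro x ⟨y, hy, rfl⟩ ⟨y', hy', h⟩
    exact hy' (by rw [Subtype.val_injective h]; exact hy)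
  have hcov : ∀ x ∈ C, x ∈ C₁ ∨ x ∈ C₂ := by
    intro x hx
    by_cases hs' : (⟨x, hx⟩ : C) ∈ E
    · exact Or.inl ⟨_, hs', rfl⟩
    · exact Or.inr ⟨_, hs', rfl⟩
  have h0 : ∀ x ∈ C₁, ∀ y ∈ C₂, M x y = 0 := by
    rintro _ ⟨x, hx, rfl⟩ _ ⟨y, hy, rfl⟩
    by_contra hM
    refine hEF x hx y hy ⟨?_, hM⟩
    intro hxy
    exact hy (by rw [← Subtype.val_injective hxy]; exact hx)
  have s1 : EdgeSplit M v w C₁ (C₂ ∪ D) := by
    refine ⟨⟨e, e, he, rfl⟩, ⟨f, Or.inl ⟨f, hf, rfl⟩⟩, fun h => hs.vC (h1C _ h),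
      fun h => hs.wC (h1C _ h), ?_, ?_, ?_, ?_, ?_⟩
    · rintro (h | h); exacts [hs.vC (h2C _ h), hs.vD h]
    · rintro (h | h); exacts [hs.wC (h2C _ h), hs.wD h]
    · intro s
      rcases hs.cover s with h | h | h | h
      · exact Or.inl h
      · exact Or.inr (Or.inl h)
      · rcases hcov s h with h | h
        · exact Or.inr (Or.inr (Or.inl h))
        · exact Or.inr (Or.inr (Or.inr (Or.inl h)))
      · exact Or.inr (Or.inr (Or.inr (Or.inr h)))
    · rintro s h (h' | h')
      exacts [h12 s h h', hs.disj s (h1C s h) h']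
    · rintro c hc d (hd | hd)
      exacts [h0 c hc d hd, hs.sep c (h1C c hc) d hd]
  have s2 : EdgeSplit M v w C₂ (C₁ ∪ D) := by
    refine ⟨⟨f, f, hf, rfl⟩, ⟨e, Or.inl ⟨e, he, rfl⟩⟩, fun h => hs.vC (h2C _ h),
      fun h => hs.wC (h2C _ h), ?_, ?_, ?_, ?_, ?_⟩
    · rintro (h | h); exacts [hs.vC (h1C _ h), hs.vD h]
    · rintro (h | h); exacts [hs.wC (h1C _ h), hs.wD h]
    · intro s
      rcases hs.cover s with h | h | h | h
      · exact Or.inl h
      · exact Or.inr (Or.inl h)
      · rcases hcov s h with h | h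
        · exact Or.inr (Or.inr (Or.inr (Or.inl h)))
        · exact Or.inr (Or.inr (Or.inl h))
      · exact Or.inr (Or.inr (Or.inr (Or.inr h)))
    · rintro s h (h' | h')
      exacts [h12 s h' h, hs.disj s (h2C s h) h']
    · rintro c hc d (hd | hd)
      exacts [by rw [Msymm]; exact h0 d hd c hc, hs.sep c (h2C c hc) d hd]
  have n1 := not_both h hvw s1
  have n2 := not_both h hvw s2
  have n3 := not_both h hvw hs.symm
  rcases cut_edge_two h hvw s1 with ⟨p1, p2, p3, p4⟩ | ⟨p1, p2, p3, p4⟩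
  · -- `C₁` commutes with `v`, `C₂ ∪ D` commutes with `w`
    rcases cut_edge_two h hvw s2 with ⟨q1, q2, q3, q4⟩ | ⟨q1, q2, q3, q4⟩
    · exact n1 p1 (fun c hc => q2 c (Or.inl hc))
    · exact n3 (fun d hd => q2 d (Or.inr hd)) (fun d hd => p2 d (Or.inr hd))
  · rcases cut_edge_two h hvw s2 with ⟨q1, q2, q3, q4⟩ | ⟨q1, q2, q3, q4⟩
    · exact n3 (fun d hd => p2 d (Or.inr hd)) (fun d hd => q2 d (Or.inr hd))
    · exact n1 (fun c hc => q2 c (Or.inl hc)) p1

/-- the graph is connected -/
theorem graph_connected (M : CoxeterMatrix S) (h : FiniteOut (ArtinGroup M)) :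
    (artinGraph M).Preconnected := by
  classical
  by_contra hcon
  obtain ⟨C, ⟨c, hc⟩, ⟨d, hd⟩, hCD⟩ := split_of_not_preconnected _ hcon
  have h0 : ∀ c ∈ C, ∀ d, d ∉ C → M c d = 0 := by
    intro c hc d hd
    by_contra hM
    exact hCD c hc d hd ⟨fun h => hd (h ▸ hc), hM⟩
  have h0' : ∀ d, d ∉ C → ∀ c ∈ C, M d c = 0 := fun d hd c hc => by rw [Msymm]; exact h0 c hc d hd
  -- twist if one side is not commutative
  have tw : ∀ (E : Set S) (e e' x : S), e ∉ E → e' ∉ E → x ∈ E → e' ≠ e → M e' e ≠ 2 →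
      (∀ s ∈ E, ∀ t, t ∉ E → M s t = 0) → False := by
    intro E e e' x he he' hx hne hM hE
    refine twist_infinite M {e} E (gen M e) (Subgroup.subset_closure ⟨e, rfl, rfl⟩) ?_
      (degHom_gen_ne M e) ?_ (irr_singleton M e) ?_ (c := x) (d := e') hx he' ?_
      (hE x hx e' he') ⟨e, rfl, ?_⟩ ⟨e, rfl, hM⟩ h
    · intro t ht
      rw [Set.mem_singleton_iff] at ht
      rw [ht]
    · rw [Set.disjoint_left]
      intro t ht hE'
      rw [Set.mem_singleton_iff] at ht
      rw [ht] at hE'
      exact he hE'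
    · intro s hs t ht
      exact Or.inl (hE s hs t ht)
    · simpa using hne
    · rw [hE x hx e he]; decide
  by_cases h1 : ∃ e ∈ C, ∃ e' ∈ C, e' ≠ e ∧ M e' e ≠ 2
  · obtain ⟨e, he, e', he', hne, hM⟩ := h1
    exact tw Cᶜ e e' d (fun h => h he) (fun h => h he') hd hne hM
      (fun s hs t ht => h0' s hs t (by simpa using ht))
  by_cases h2 : ∃ c' ∈ C, c' ≠ c
  · obtain ⟨c', hc', hne⟩ := h2
    push Not at h1
    have hf : ∀ s t, Odd (M s t) → (if s = c then (1 : ℤ) else 0) = if t = c then 1 else 0 := by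
      have key : ∀ t, t ≠ c → ¬ Odd (M c t) := by
        intro t ht
        by_cases htC : t ∈ C
        · rw [h1 t htC c hc (Ne.symm ht)]; decide
        · rw [h0 c hc t htC]; decide
      intro s t hst
      by_cases hs : s = c
      · by_cases ht : t = c
        · rw [hs, ht]
        · exact absurd (hs ▸ hst) (key t ht)
      · by_cases ht : t = c
        · exact absurd (by rw [Msymm, ← ht]; exact hst) (key s hs)
        · simp [hs, ht]
    refine transvection_infinite M {c'} (fun s => if s = c then 1 else 0) (gen M c') hf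
      (Subgroup.subset_closure ⟨c', rfl, rfl⟩) ?_ ?_ ?_ ?_ (degHom_gen_ne M c') ⟨c, by simp⟩ h
    · exact wHom_closure hf (T := {c'}) (Subgroup.subset_closure ⟨c', rfl, rfl⟩)
        (fun t ht => by rw [Set.mem_singleton_iff] at ht; rw [ht]; exact if_neg hne)
    · exact Or.inl (fun t ht => by rw [Set.mem_singleton_iff] at ht; rw [ht]; exact if_neg hne)
    · intro s t hst hM hs
      have hs' : s = c := by by_contra h; exact hs (if_neg h)
      subst hs'
      have htC : t ∈ C := by by_contra htC; exact hM (h0 s hc t htC)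
      by_cases htc : t = c'
      · rw [htc]
      · exact commute_of_two (h1 t htC c' hc' (Ne.symm htc))
    · intro s t hst hM hM2 hs
      exfalso
      have hs' : s = c := by by_contra h; exact hs (if_neg h)
      subst hs'
      have htC : t ∈ C := by by_contra htC; exact hM (h0 s hc t htC)
      exact hM2 (h1 t htC s hc hst)
  · push Not at h2
    have hdc : d ≠ c := fun h => hd (h ▸ hc)
    have hiso : ∀ t, t ≠ c → M c t = 0 := fun t ht => h0 c hc t (fun h => ht (h2 t h))
    have hf : ∀ s t, Odd (M s t) → (if s = c then (1 : ℤ) else 0) = if t = c then 1 else 0 := by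
      intro s t hst
      by_cases hs : s = c
      · by_cases ht : t = c
        · rw [hs, ht]
        · rw [hs, hiso t ht] at hst; exact absurd hst (by decide)
      · by_cases ht : t = c
        · rw [Msymm, ht, hiso s hs] at hst; exact absurd hst (by decide)
        · simp [hs, ht]
    refine transvection_infinite M {d} (fun s => if s = c then 1 else 0) (gen M d) hf
      (Subgroup.subset_closure ⟨d, rfl, rfl⟩) ?_ ?_ ?_ ?_ (degHom_gen_ne M d) ⟨c, by simp⟩ h
    · exact wHom_closure hf (T := {d}) (Subgroup.subset_closure ⟨d, rfl, rfl⟩)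
        (fun t ht => by rw [Set.mem_singleton_iff] at ht; rw [ht]; exact if_neg hdc)
    · exact Or.inl (fun t ht => by rw [Set.mem_singleton_iff] at ht; rw [ht]; exact if_neg hdc)
    · intro s t hst hM hs
      have hs' : s = c := by by_contra h; exact hs (if_neg h)
      subst hs'
      exact absurd (hiso t (Ne.symm hst)) hM
    · intro s t hst hM _ hs
      have hs' : s = c := by by_contra h; exact hs (if_neg h)
      subst hs'
      exact absurd (hiso t (Ne.symm hst)) hM

/-- a central element of non-zero degree forces all generators to be conjugate -/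
theorem odd_connected (M : CoxeterMatrix S) (h : FiniteOut (ArtinGroup M)) (z : ArtinGroup M)
    (hz : ∀ x, Commute z x) (hdeg : degHom M z ≠ 1) : (oddGraph M).Preconnected := by
  classical
  by_contra hcon
  obtain ⟨C, ⟨c, hc⟩, ⟨d, hd⟩, hCD⟩ := split_of_not_preconnected _ hcon
  have h0 : ∀ s t, Odd (M s t) → (s ∈ C ↔ t ∈ C) := by
    intro s t hst
    constructor
    · intro hs
      by_contra ht
      exact hCD s hs t ht ⟨fun h => ht (h ▸ hs), hst⟩
    · intro ht
      by_contra hs
      exact hCD t ht s hs ⟨fun h => hs (h ▸ ht), by rwa [Msymm]⟩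
  have hfab : ∀ p q : ℤ, ∀ s t, Odd (M s t) → (if s ∈ C then p else q) = if t ∈ C then p else q := by
    intro p q s t hst
    by_cases hs : s ∈ C
    · rw [if_pos hs, if_pos ((h0 s t hst).mp hs)]
    · rw [if_neg hs, if_neg (fun ht => hs ((h0 s t hst).mpr ht))]
  set p : ℤ := Multiplicative.toAdd (wHom M (fun s => if s ∈ C then 1 else 0) (hfab 1 0) z) with hp
  set q : ℤ := Multiplicative.toAdd (wHom M (fun s => if s ∈ C then 0 else 1) (hfab 0 1) z) with hq
  have hlin : ∀ α β : ℤ, ∀ x, wHom M (fun s => if s ∈ C then α else β) (hfab α β) x =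
      (wHom M (fun s => if s ∈ C then 1 else 0) (hfab 1 0) x) ^ α *
      (wHom M (fun s => if s ∈ C then 0 else 1) (hfab 0 1) x) ^ β := by
    intro α β x
    have : wHom M (fun s => if s ∈ C then α else β) (hfab α β) =
        ((zpowGroupHom α).comp (wHom M (fun s => if s ∈ C then 1 else 0) (hfab 1 0))) *
        ((zpowGroupHom β).comp (wHom M (fun s => if s ∈ C then 0 else 1) (hfab 0 1))) := by
      apply hom_ext
      intro s
      by_cases hs : s ∈ C
      · simp [wHom, hs, ← ofAdd_zsmul]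
      · simp [wHom, hs, ← ofAdd_zsmul]
    rw [this]; rfl
  have hdegpq : Multiplicative.toAdd (degHom M z) = p + q := by
    have e1 : degHom M = wHom M (fun s => if s ∈ C then 1 else 1) (hfab 1 1) := by
      apply hom_ext
      intro s
      simp [wHom]
    rw [e1, hlin 1 1 z]
    simp [hp, hq]
  have hpq : p + q ≠ 0 := by
    intro h'
    apply hdeg
    rw [← ofAdd_toAdd (degHom M z), hdegpq, h', ofAdd_zero]
  refine transvection_infinite M Set.univ (fun s => if s ∈ C then q else -p) z (hfab q (-p)) ?_ ?_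
    (Or.inr (fun t _ => hz _)) (fun _ _ _ _ _ => hz _) (fun _ _ _ _ _ _ => hz _) hdeg ?_ h
  · have : gen M '' Set.univ = Set.range (gen M) := Set.image_univ
    rw [this, closure_gen]
    exact Subgroup.mem_top _
  · rw [hlin q (-p) z]
    apply Multiplicative.toAdd.injective
    rw [toAdd_mul, toAdd_zpow, toAdd_zpow, ← hp, ← hq, toAdd_one, smul_eq_mul, smul_eq_mul]
    ring
  · by_cases hq0 : q = 0
    · refine ⟨d, ?_⟩
      show (if d ∈ C then q else -p) ≠ 0
      rw [if_neg (show d ∉ C from hd)]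
      rw [hq0, add_zero] at hpq
      exact neg_ne_zero.mpr hpq
    · exact ⟨c, by simp [hc, hq0]⟩

/-- rank two: the label is odd -/
theorem rank_two (M : CoxeterMatrix S) (h : FiniteOut (ArtinGroup M)) (hcard : Fintype.card S = 2)
    (s t : S) (hst : s ≠ t) : Odd (M s t) := by
  classical
  have hall : ∀ x : S, x = s ∨ x = t := by
    intro x
    by_contra hx
    push Not at hx
    have : ({x, s, t} : Finset S).card = 3 := by
      rw [Finset.card_insert_of_notMem (by simp [hx.1, hx.2]), Finset.card_pair hst]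
    have := Finset.card_le_univ ({x, s, t} : Finset S)
    omega
  have hM0 : M s t ≠ 0 := by
    intro h0
    have hp := graph_connected M h s t
    obtain ⟨w⟩ := hp
    cases w with
    | nil => exact hst rfl
    | @cons _ v _ hadj _ =>
      rcases hall v with h' | h'
      · rw [h'] at hadj; exact hadj.1 rfl
      · rw [h'] at hadj; exact hadj.2 h0
  have hz : ∀ x, Commute ((gen M s * gen M t) ^ (M s t)) x := by
    have hgen : ∀ x : S, Commute ((gen M s * gen M t) ^ (M s t)) (gen M x) := by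
      intro x
      rcases hall x with rfl | rfl
      · exact (dihedral_comm M _ t).1
      · exact (dihedral_comm M s _).2
    intro x
    have hx : x ∈ Subgroup.closure (gen M '' Set.univ) := by
      rw [Set.image_univ, closure_gen]; exact Subgroup.mem_top _
    exact (commute_closure hx (fun y _ => (hgen y).symm)).symm
  have hodd := odd_connected M h _ hz (degHom_pow_ne M s t _ hM0) s t
  obtain ⟨w⟩ := hodd
  cases w with
  | nil => exact absurd rfl hst
  | @cons _ v _ hadj _ =>
    rcases hall v with h' | h'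
    · rw [h'] at hadj; exact absurd rfl hadj.1
    · rw [h'] at hadj; exact hadj.2

/-- no separating star -/
theorem no_cut_star (M : CoxeterMatrix S) (h : FiniteOut (ArtinGroup M)) (T : Set S)
    (z : ArtinGroup M)
    (hz : z ∈ Subgroup.closure (gen M '' T)) (hcomm : ∀ t ∈ T, Commute z (gen M t))
    (hdeg : degHom M z ≠ 1)
    (hirr : ∀ U ⊆ T, U.Nonempty → (T \ U).Nonempty → ∃ s ∈ U, ∃ t ∈ T \ U, M s t ≠ 2) :
    ((artinGraph M).induce (T ∪ perp M T)ᶜ).Preconnected := by
  by_contra hcon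
  obtain ⟨C, D, ⟨c, hc⟩, ⟨d, hd⟩, hTC, hTD, hCD, hU, h0⟩ := induce_split M (T ∪ perp M T) hcon
  rw [Set.disjoint_left] at hTC hTD hCD
  have hct : ∃ t ∈ T, M c t ≠ 2 := by
    by_contra hcon
    push Not at hcon
    by_cases hcT : c ∈ T
    · exact hTC (Or.inl hcT) hc
    · exact hTC (Or.inr ⟨hcT, hcon⟩) hc
  have hdt : ∃ t ∈ T, M d t ≠ 2 := by
    by_contra hcon
    push Not at hcon
    by_cases hdT : d ∈ T
    · exact hTD (Or.inl hdT) hd
    · exact hTD (Or.inr ⟨hdT, hcon⟩) hd
  refine twist_infinite M T C z hz hcomm hdeg ?_ hirr ?_ (c := c) (d := d) hc ?_ ?_ (h0 c hc d hd)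
    hct hdt h
  · rw [Set.disjoint_left]
    exact fun t ht htC => hTC (Or.inl ht) htC
  · intro s hs t ht
    rcases hU t with (h | h) | h | h
    · exact Or.inr (hcomm t h)
    · exact Or.inr (commute_closure hz (fun u hu => (commute_of_two (h.2 u hu)).symm))
    · exact absurd h ht
    · exact Or.inl (h0 s hs t h)
  · exact fun h => hCD h hd
  · exact fun h => hTD (Or.inl h) hd

/-- no separating irreducible set with a central element of non-zero degree -/
theorem no_cut_set (M : CoxeterMatrix S) (h : FiniteOut (ArtinGroup M)) (T : Set S)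
    (z : ArtinGroup M)
    (hz : z ∈ Subgroup.closure (gen M '' T)) (hcomm : ∀ t ∈ T, Commute z (gen M t))
    (hdeg : degHom M z ≠ 1)
    (hirr : ∀ U ⊆ T, U.Nonempty → (T \ U).Nonempty → ∃ s ∈ U, ∃ t ∈ T \ U, M s t ≠ 2) :
    ((artinGraph M).induce Tᶜ).Preconnected := by
  by_contra hcon
  obtain ⟨C, D, hC, hD, hTC, hTD, hCD, hU, h0⟩ := induce_split M T hcon
  exact separate_infinite M T C D z hz hcomm hdeg hirr hC hD hTC hTD hCD hU h0 h

lemma irredSet_singleton (M : CoxeterMatrix S) (v : S) : IrredSet M {v} := irr_singleton M v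

lemma irredSet_pair (M : CoxeterMatrix S) (v w : S) (h : 3 ≤ M v w) : IrredSet M {v, w} :=
  irr_pair M v w (by omega)

lemma hasCentral_singleton (M : CoxeterMatrix S) (v : S) : HasCentralElement M {v} := by
  refine ⟨gen M v, Subgroup.subset_closure ⟨v, rfl, rfl⟩, ?_, degHom_gen_ne M v⟩
  intro t ht
  rw [Set.mem_singleton_iff] at ht
  rw [ht]

lemma hasCentral_pair (M : CoxeterMatrix S) (v w : S) (h : 3 ≤ M v w) :
    HasCentralElement M {v, w} := by
  refine ⟨(gen M v * gen M w) ^ (M v w), ?_, ?_, degHom_pow_ne M v w _ (by omega)⟩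
  · apply Subgroup.pow_mem
    apply Subgroup.mul_mem
    · exact Subgroup.subset_closure ⟨v, by simp, rfl⟩
    · exact Subgroup.subset_closure ⟨w, by simp, rfl⟩
  · intro t ht
    simp only [Set.mem_insert_iff, Set.mem_singleton_iff] at ht
    rcases ht with rfl | rfl
    · exact (dihedral_comm M _ w).1
    · exact (dihedral_comm M v _).2

end Pool.MP_a3a325_al
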