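import Mathlib
import Pool.Agent.Lib_helper76.AO.Defs
import Pool.Agent.Lib_helper76.AO.Separate

set_option autoImplicit false
set_option linter.unusedSectionVars false

namespace Pool.MP_a3a325_al

variable {S : Type*} [Fintype S] [DecidableEq S]

lemma commute_of_perp {M : CoxeterMatrix S} {T : Set S} {z : ArtinGroup M}
    (hz : z ∈ Subgroup.closure (gen M '' T)) {s : S} (hs : s ∈ perp M T) :
    Commute z (gen M s) :=
  commute_closure hz (fun u hu => (commute_of_two (hs.2 u hu)).symm)

theorem no_dominated_set (M : CoxeterMatrix S) (h : FiniteOut (ArtinGroup M)) (T : Set S)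
    (hT : HasCentralElement M T) (C : Set S) (hC : C.Nonempty) (hTC : Disjoint T C)
    (hodd : ∀ s ∈ C, ∀ t, Odd (M s t) → t ∈ C)
    (hnb : ∀ s ∈ C, ∀ t, s ≠ t → M s t ≠ 0 → t ∈ T ∪ perp M T)
    (hself : ∀ s ∈ C, (∀ t, s ≠ t → M s t ≠ 0 → M s t = 2) ∨ s ∈ perp M T) : False := by
  classical
  obtain ⟨z, hz, hcomm, hdeg⟩ := hT
  have hTC' : ∀ t ∈ T, t ∉ C := fun t ht h => Set.disjoint_left.mp hTC ht h
  have hf : ∀ s t, Odd (M s t) → (if s ∈ C then (1 : ℤ) else 0) = if t ∈ C then 1 else 0 := by
    intro s t hst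
    by_cases hs : s ∈ C
    · rw [if_pos hs, if_pos (hodd s hs t hst)]
    · by_cases ht : t ∈ C
      · exact absurd (hodd t ht s (by rwa [Msymm])) hs
      · rw [if_neg hs, if_neg ht]
  refine transvection_infinite M T (fun s => if s ∈ C then 1 else 0) z hf hz ?_ ?_ ?_ ?_ hdeg ?_ h
  · exact wHom_closure hf hz (fun t ht => if_neg (hTC' t ht))
  · exact Or.inl (fun t ht => if_neg (hTC' t ht))
  · intro s t hst hM hs
    have hs' : s ∈ C := by by_contra h; exact hs (if_neg h)
    rcases hnb s hs' t hst hM with h | h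
    · exact hcomm t h
    · exact commute_of_perp hz h
  · intro s t hst hM hM2 hs
    have hs' : s ∈ C := by by_contra h; exact hs (if_neg h)
    rcases hself s hs' with h | h
    · exact absurd (h t hst hM) hM2
    · exact commute_of_perp hz h
  · obtain ⟨c, hc⟩ := hC
    exact ⟨c, by simp [hc]⟩

theorem central_odd (M : CoxeterMatrix S) (h : FiniteOut (ArtinGroup M))
    (hc : HasCentralElement M Set.univ) : (oddGraph M).Preconnected := by
  obtain ⟨z, hz, hcomm, hdeg⟩ := hc
  refine odd_connected M h z ?_ hdeg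
  intro x
  have hx : x ∈ Subgroup.closure (gen M '' Set.univ) := by
    rw [Set.image_univ, closure_gen]; exact Subgroup.mem_top _
  exact (commute_closure hx (fun y _ => (hcomm y trivial).symm)).symm

end Pool.MP_a3a325_al
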