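import Mathlib
import Pool.Agent.Lib_helper76.AO.ChordDefs
import Pool.Agent.Lib_helper76.AO.Separate
import Pool.Agent.Lib_helper76.AO.Transv

set_option autoImplicit false
set_option linter.unusedSectionVars false

namespace Pool.MP_a3a325_al

variable {S : Type*} [Fintype S] [DecidableEq S] {M : CoxeterMatrix S}

/-- all labels in `K` are finite -/
def Clq (M : CoxeterMatrix S) (K : Set S) : Prop := ∀ s ∈ K, ∀ t ∈ K, M s t ≠ 0

/-- the Coxeter component of `c` in `X` -/
def comp (M : CoxeterMatrix S) (X : Set S) (c : S) : Set S :=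
  {t | Relation.ReflTransGen (fun a b => b ∈ X ∧ M a b ≠ 2) c t}

lemma comp_self (X : Set S) (c : S) : c ∈ comp M X c := Relation.ReflTransGen.refl

lemma comp_subset {X : Set S} {c : S} (hc : c ∈ X) : comp M X c ⊆ X := by
  intro t ht
  induction ht with
  | refl => exact hc
  | tail _ h _ => exact h.1

lemma comp_irred (X : Set S) (c : S) : IrredSet M (comp M X c) := by
  intro U hU hUne hUc
  by_contra hcon
  push Not at hcon
  have hsymm : ∀ s t, M s t = M t s := fun s t => M.isSymm.apply t s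
  by_cases hc : c ∈ U
  · have : ∀ t ∈ comp M X c, t ∈ U := by
      intro t ht
      induction ht with
      | refl => exact hc
      | @tail a b hab h ih =>
        by_contra hb
        exact h.2 (hcon a ih b ⟨Relation.ReflTransGen.tail hab h, hb⟩)
    obtain ⟨x, hx⟩ := hUc
    exact hx.2 (this x hx.1)
  · have : ∀ t ∈ comp M X c, t ∉ U := by
      intro t ht
      induction ht with
      | refl => exact hc
      | @tail a b hab h ih =>
        intro hb
        exact h.2 (by rw [hsymm]; exact hcon b hb a ⟨hab, ih⟩)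
    obtain ⟨x, hx⟩ := hUne
    exact this x (hU hx) hx

lemma comp_perp {X : Set S} {c s t : S} (hs : s ∈ comp M X c) (ht : t ∈ X)
    (htc : t ∉ comp M X c) : M t s = 2 := by
  by_contra h
  apply htc
  refine Relation.ReflTransGen.tail hs ⟨ht, ?_⟩
  rw [show M s t = M t s from M.isSymm.apply t s]
  exact h

lemma mem_perp_comp {X : Set S} {c t : S} (ht : t ∈ X)
    (htc : t ∉ comp M X c) : t ∈ perp M (comp M X c) :=
  ⟨htc, fun _ hs => comp_perp hs ht htc⟩

lemma Clq.mono {K L : Set S} (h : Clq M K) (hL : L ⊆ K) : Clq M L :=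
  fun s hs t ht => h s (hL hs) t (hL ht)

/-- no separating star of an irreducible clique -/
lemma sigma (h : FiniteOut (ArtinGroup M)) (hcen : CentralCliques M) {T : Set S}
    (hne : T.Nonempty) (hclq : Clq M T) (hirr : IrredSet M T) :
    ((artinGraph M).induce (T ∪ perp M T)ᶜ).Preconnected := by
  obtain ⟨z, hz, hcomm, hdeg⟩ := hcen T hne hclq hirr
  exact no_cut_star M h T z hz hcomm hdeg hirr

/-- maximal irreducible cliques -/
structure MIC (M : CoxeterMatrix S) (K : Set S) : Prop where
  ne : K.Nonempty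
  clq : Clq M K
  irr : IrredSet M K
  max : ∀ L, K ⊆ L → Clq M L → IrredSet M L → L ⊆ K

lemma exists_mic (s : S) : ∃ K, MIC M K ∧ s ∈ K := by
  have h1 : ({s} : Set S) ∈ {K : Set S | s ∈ K ∧ Clq M K ∧ IrredSet M K} := by
    refine ⟨rfl, ?_, irredSet_singleton M s⟩
    intro a ha b hb
    rw [Set.mem_singleton_iff] at ha hb
    subst ha; subst hb
    rw [M.diagonal]; exact one_ne_zero
  obtain ⟨K, hK1, hK2⟩ := (Set.toFinite
    {K : Set S | s ∈ K ∧ Clq M K ∧ IrredSet M K}).exists_le_maximal h1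
  refine ⟨K, ⟨⟨s, hK2.prop.1⟩, hK2.prop.2.1, hK2.prop.2.2, ?_⟩, hK2.prop.1⟩
  intro L hKL hL1 hL2
  exact hK2.le_of_ge ⟨hKL hK2.prop.1, hL1, hL2⟩ hKL

/-- a vertex joined to a whole maximal irreducible clique commutes with it -/
lemma MIC.perp_of_adj {K : Set S} (hK : MIC M K) {f : S} (hf : f ∉ K)
    (hadj : ∀ k ∈ K, M f k ≠ 0) : f ∈ perp M K := by
  refine ⟨hf, ?_⟩
  intro t ht
  by_contra h2
  have hsymm : ∀ s t, M s t = M t s := fun s t => M.isSymm.apply t s
  have h3 : insert f K ⊆ K := by
    refine hK.max (insert f K) (Set.subset_insert f K) ?_ ?_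
    · intro a ha b hb
      rcases ha with rfl | ha
      · rcases hb with rfl | hb
        · rw [M.diagonal]; exact one_ne_zero
        · exact hadj b hb
      · rcases hb with rfl | hb
        · rw [hsymm]; exact hadj a ha
        · exact hK.clq a ha b hb
    · intro U hU hUne hUc
      by_cases h4 : (K ∩ U).Nonempty
      · by_cases h5 : (K \ U).Nonempty
        · have h6 : K \ (K ∩ U) = K \ U := by
            ext x; simp
          obtain ⟨a, ha, b, hb, hab⟩ := hK.irr (K ∩ U) Set.inter_subset_left h4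
            (by rw [h6]; exact h5)
          rw [h6] at hb
          exact ⟨a, ha.2, b, ⟨Or.inr hb.1, hb.2⟩, hab⟩
        · have h6 : ∀ k ∈ K, k ∈ U := by
            intro k hk
            by_contra hkU
            exact h5 ⟨k, hk, hkU⟩
          have hfU : f ∉ U := by
            intro hfU
            obtain ⟨x, hx, hxU⟩ := hUc
            rcases hx with rfl | hx
            · exact hxU hfU
            · exact hxU (h6 x hx)
          refine ⟨t, h6 t ht, f, ⟨Or.inl rfl, hfU⟩, ?_⟩
          rw [hsymm]; exact h2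
      · have h6 : ∀ k ∈ K, k ∉ U := fun k hk hkU => h4 ⟨k, hk, hkU⟩
        have hfU : f ∈ U := by
          obtain ⟨x, hx⟩ := hUne
          rcases hU hx with h | h
          · rwa [h] at hx
          · exact absurd hx (h6 x h)
        exact ⟨f, hfU, t, ⟨Or.inr ht, h6 t ht⟩, h2⟩
  exact hf (h3 (Set.mem_insert f K))

/-- the vertices outside `K` not joined to all of `K` -/
def rest (M : CoxeterMatrix S) (K : Set S) : Set S := {s | ∃ k ∈ K, M s k = 0}

lemma MIC.compl_eq {K : Set S} (hK : MIC M K) : (K ∪ perp M K)ᶜ = rest M K := by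
  ext s
  constructor
  · intro hs
    have h1 : s ∉ K := fun h => hs (Or.inl h)
    by_contra h2
    apply hs
    right
    refine hK.perp_of_adj h1 ?_
    intro k hk h0
    exact h2 ⟨k, hk, h0⟩
  · rintro ⟨k, hk, h0⟩ (h | h)
    · exact hK.clq s h k hk h0
    · rw [h.2 k hk] at h0; omega

/-- a maximal irreducible clique `K` with `rest M K` empty is everything -/
lemma MIC.all_of_rest_empty {K : Set S} (hK : MIC M K) (h : FiniteOut (ArtinGroup M))
    (hcen : CentralCliques M) (hR : rest M K = ∅) : ∀ s, s ∈ K := by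
  obtain ⟨z, hz, hcomm, hdeg⟩ := hcen K hK.ne hK.clq hK.irr
  have hall : ∀ s, s ∈ K ∪ perp M K := by
    intro s
    by_contra hs
    have : s ∈ (K ∪ perp M K)ᶜ := hs
    rw [hK.compl_eq, hR] at this
    exact this
  have hc : HasCentralElement M Set.univ := by
    refine ⟨z, Subgroup.closure_mono (Set.image_mono (Set.subset_univ K)) hz, ?_, hdeg⟩
    intro t _
    rcases hall t with ht | ht
    · exact hcomm t ht
    · exact commute_of_perp hz ht
  have hodd := central_odd M h hc
  intro s
  by_contra hs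
  obtain ⟨k, hk⟩ := hK.ne
  obtain ⟨w⟩ := hodd k s
  obtain ⟨d, _, h1, h2⟩ := w.exists_boundary_dart K hk hs
  have h3 : Odd (M d.fst d.snd) := d.adj.2
  have h4 : d.snd ∈ perp M K := (hall d.snd).resolve_left h2
  rw [show M d.fst d.snd = M d.snd d.fst from M.isSymm.apply _ _, h4.2 d.fst h1] at h3
  exact absurd h3 (by decide)

/-- Structure of a maximal irreducible clique in the chordal case. -/
structure Block (M : CoxeterMatrix S) (K : Set S) (y : S) : Prop where
  mic : MIC M K
  mem : y ∈ K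
  notFull : ¬ Full M y
  full : ∀ u ∈ K, u ≠ y → Full M u
  two : ∀ u ∈ K, u ≠ y → ∀ s, s ∉ K → M u s = 2
  twoZero : ∀ s, s ∉ K → M y s = 2 ∨ M y s = 0
  restEq : rest M K = {s | M y s = 0}
  conn : ((artinGraph M).induce {s | M y s = 0}).Preconnected

theorem exists_block (h : FiniteOut (ArtinGroup M)) (hcen : CentralCliques M)
    (hch : Chordal (artinGraph M)) {K : Set S} (hK : MIC M K) (hR : (rest M K).Nonempty) :
    ∃ y, Block M K y := by
  classical
  have hsymm : ∀ s t, M s t = M t s := fun s t => M.isSymm.apply t s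
  have hconn : ((artinGraph M).induce (rest M K)).Preconnected := by
    rw [← hK.compl_eq]; exact sigma h hcen hK.ne hK.clq hK.irr
  have hKR : ∀ k ∈ K, k ∉ rest M K := by
    rintro k hk ⟨k', hk', h0⟩
    exact hK.clq k hk k' hk' h0
  have hcases : ∀ s, s ∈ K ∨ s ∈ perp M K ∨ s ∈ rest M K := by
    intro s
    by_cases hs : s ∈ K ∪ perp M K
    · rcases hs with h1 | h1
      · exact Or.inl h1
      · exact Or.inr (Or.inl h1)
    · right; right
      rw [← hK.compl_eq]; exact hs
  -- some vertex of K has no neighbour in the rest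
  have hk0 : ∃ k0 ∈ K, ∀ r ∈ rest M K, M r k0 = 0 := by
    by_contra hcon
    push Not at hcon
    obtain ⟨r, hr, hall⟩ := chordal_clique hch hconn hR
      (K := K) (fun a ha b hb hab => ⟨hab, hK.clq a ha b hb⟩) hKR
      (fun k hk => by
        obtain ⟨r, hr, h0⟩ := hcon k hk
        exact ⟨r, hr, fun h => hKR k hk (h ▸ hr), h0⟩)
    obtain ⟨k, hk, h0⟩ := hr
    exact (hall k hk).2 h0
  obtain ⟨k0, hk0K, hk0R⟩ := hk0
  set K0 : Set S := {k ∈ K | ∀ r ∈ rest M K, M r k = 0} with hK0
  set K1 : Set S := {k ∈ K | ¬ ∀ r ∈ rest M K, M r k = 0} with hK1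
  have hK1K : K1 ⊆ K := fun k hk => hk.1
  -- the key connectivity argument
  have key : ∀ T ⊆ K, T.Nonempty → IrredSet M T → (∀ k ∈ K1, k ∈ T ∪ perp M T) →
      (∃ c ∈ K, c ∉ T ∪ perp M T) → ∀ r ∈ rest M K, r ∈ perp M T := by
    intro T hTK hTne hTirr hK1T ⟨c, hcK, hcT⟩ r hr
    by_contra hrT
    have hrT' : r ∈ (T ∪ perp M T)ᶜ := by
      rintro (h1 | h1)
      · exact hKR r (hTK h1) hr
      · exact hrT h1
    have hcK1 : c ∉ K1 := fun hc => hcT (hK1T c hc)
    have hcK0 : c ∈ K0 := by
      refine ⟨hcK, ?_⟩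
      by_contra h1
      exact hcK1 ⟨hcK, h1⟩
    obtain ⟨x, hx, y, hy, hxA, hyA, hadj⟩ := exists_crossing
      (sigma h hcen hTne (hK.clq.mono hTK) hTirr) (a := c) (b := r) hcT hrT' K0 hcK0
      (fun h1 => hKR r h1.1 hr)
    rcases hcases y with h1 | h1 | h1
    · by_cases hy1 : y ∈ K1
      · exact hy (hK1T y hy1)
      · apply hyA
        refine ⟨h1, ?_⟩
        by_contra h2
        exact hy1 ⟨h1, h2⟩
    · apply hy
      right
      exact ⟨fun h2 => h1.1 (hTK h2), fun t ht => h1.2 t (hTK ht)⟩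
    · have := hxA.2 y h1
      rw [hsymm] at this
      exact hadj.2 this
  have hsub : ∀ T ⊆ K, T.Nonempty → (K \ T).Nonempty → ∃ c ∈ K, c ∉ T ∪ perp M T := by
    intro T hTK hTne hKT
    obtain ⟨t, ht, c, hc, htc⟩ := hK.irr T hTK hTne hKT
    refine ⟨c, hc.1, ?_⟩
    rintro (h1 | h1)
    · exact hc.2 h1
    · exact htc (by rw [hsymm]; exact h1.2 t ht)
  -- K1 commutes with the rest
  have hK1R : ∀ u ∈ K1, ∀ r ∈ rest M K, M u r = 2 := by
    intro u hu r hr
    have h1 := key (comp M K1 u) ((comp_subset hu).trans hK1K) ⟨u, comp_self K1 u⟩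
      (comp_irred K1 u) (fun k hk => by
        by_cases hkc : k ∈ comp M K1 u
        · exact Or.inl hkc
        · exact Or.inr (mem_perp_comp hk hkc))
      (hsub _ ((comp_subset hu).trans hK1K) ⟨u, comp_self K1 u⟩
        ⟨k0, hk0K, fun h2 => (comp_subset hu h2).2 hk0R⟩) r hr
    rw [hsymm]
    exact h1.2 u (comp_self K1 u)
  -- K0 has only one element
  have hK0one : ∀ c ∈ K0, c = k0 := by
    intro c hc
    by_contra hne
    obtain ⟨r, hr⟩ := hR
    have hXK : insert c K1 ⊆ K := by
      rintro x (rfl | hx)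
      · exact hc.1
      · exact hK1K hx
    have hsubK : comp M (insert c K1) c ⊆ K := (comp_subset (Set.mem_insert c K1)).trans hXK
    have h1 := key (comp M (insert c K1) c) hsubK ⟨c, comp_self _ c⟩ (comp_irred _ c)
      (fun k hk => by
        by_cases hkc : k ∈ comp M (insert c K1) c
        · exact Or.inl hkc
        · exact Or.inr (mem_perp_comp (Set.mem_insert_of_mem c hk) hkc))
      (hsub _ hsubK ⟨c, comp_self _ c⟩ ⟨k0, hk0K, fun h2 => by
        rcases comp_subset (Set.mem_insert c K1) h2 with h3 | h3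
        · exact hne h3.symm
        · exact h3.2 hk0R⟩) r hr
    have h2 := h1.2 c (comp_self _ c)
    rw [hc.2 r hr] at h2
    omega
  have hK1of : ∀ u ∈ K, u ≠ k0 → u ∈ K1 := by
    intro u hu hne
    refine ⟨hu, fun h1 => hne (hK0one u ⟨hu, h1⟩)⟩
  have htwo : ∀ u ∈ K, u ≠ k0 → ∀ s, s ∉ K → M u s = 2 := by
    intro u hu hne s hs
    rcases hcases s with h1 | h1 | h1
    · exact absurd h1 hs
    · rw [hsymm]; exact h1.2 u hu
    · exact hK1R u (hK1of u hu hne) s h1
  have hrest : rest M K = {s | M k0 s = 0} := by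
    ext s
    constructor
    · intro hs
      change M k0 s = 0
      rw [hsymm]; exact hk0R s hs
    · intro hs
      exact ⟨k0, hk0K, by rw [hsymm]; exact hs⟩
  refine ⟨k0, hK, hk0K, ?_, ?_, htwo, ?_, hrest, ?_⟩
  · intro hfull
    obtain ⟨r, hr⟩ := hR
    rw [hrest] at hr
    exact hfull r hr
  · intro u hu hne s
    by_cases hs : s ∈ K
    · exact hK.clq u hu s hs
    · rw [htwo u hu hne s hs]; exact two_ne_zero
  · intro s hs
    rcases hcases s with h1 | h1 | h1
    · exact absurd h1 hs
    · left; rw [hsymm]; exact h1.2 k0 hk0K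
    · right; rw [hsymm]; exact hk0R s h1
  · rw [← hrest]; exact hconn

end Pool.MP_a3a325_al
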