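import Mathlib
import Pool.Agent.Lib_helper76.AO.ChordDefs
import Pool.Agent.Lib_helper76.AO.ChordArtin

set_option autoImplicit false
set_option linter.unusedSectionVars false

namespace Pool.MP_a3a325_al

variable {S : Type*} [Fintype S] [DecidableEq S] {M : CoxeterMatrix S}

lemma Block.eq_of_inter {K K' : Set S} {y : S} (hK : Block M K y) (hK' : MIC M K') {a : S}
    (ha : a ∈ K) (ha' : a ∈ K') : K' = K := by
  have h1 : K' ⊆ K := by
    by_contra hcon
    have hne : (K' \ K).Nonempty := by
      rw [Set.not_subset] at hcon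
      obtain ⟨x, hx, hx'⟩ := hcon
      exact ⟨x, hx, hx'⟩
    have h2 : K' \ (K' ∩ K) = K' \ K := by ext x; simp
    obtain ⟨u, hu, v, hv, huv⟩ := hK'.irr (K' ∩ K) Set.inter_subset_left ⟨a, ha', ha⟩
      (by rw [h2]; exact hne)
    rw [h2] at hv
    by_cases huy : u = y
    · subst huy
      rcases hK.twoZero v hv.2 with h3 | h3
      · exact huv h3
      · exact hK'.clq u hu.1 v hv.1 h3
    · exact huv (hK.two u hu.2 huy v hv.2)
  exact Set.Subset.antisymm h1 (hK'.max K h1 hK.mic.clq hK.mic.irr)

theorem chordal_structure (h : FiniteOut (ArtinGroup M)) (hcen : CentralCliques M)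
    (hch : Chordal (artinGraph M)) (hnc : ∃ s t, M s t = 0) :
    ∃ β : S → S, (∀ s, ¬ Full M (β s)) ∧ (∀ s, ¬ Full M s → β s = s) ∧
      (∀ s t, β s ≠ β t → M s t = 2 ∨ (β s = s ∧ β t = t ∧ M s t = 0)) ∧
      (∀ y, ¬ Full M y → IrredSet M {s | β s = y} ∧
        (∃ u, u ≠ y ∧ β u = y ∧ Odd (M y u)) ∧
        ((artinGraph M).induce {s | M y s = 0}).Preconnected) := by
  classical
  have hsymm : ∀ s t, M s t = M t s := fun s t => M.isSymm.apply t s
  have hblock : ∀ s, ∃ K y, Block M K y ∧ s ∈ K := by
    intro s
    obtain ⟨K, hK, hs⟩ := exists_mic (M := M) s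
    have hR : (rest M K).Nonempty := by
      rw [Set.nonempty_iff_ne_empty]
      intro h0
      obtain ⟨a, b, hab⟩ := hnc
      have hall := hK.all_of_rest_empty h hcen h0
      exact hK.clq a (hall a) b (hall b) hab
    obtain ⟨y, hy⟩ := exists_block h hcen hch hK hR
    exact ⟨K, y, hy, hs⟩
  choose Kf β hB hmem using hblock
  have hKeq : ∀ s t, t ∈ Kf s → Kf t = Kf s := fun s t ht =>
    (hB s).eq_of_inter (hB t).mic ht (hmem t)
  have hβself : ∀ s, ¬ Full M s → β s = s := by
    intro s hs
    by_contra hne
    exact hs ((hB s).full s (hmem s) (fun h1 => hne h1.symm))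
  have hβmem : ∀ s, β s ∈ Kf s := fun s => (hB s).mem
  have hβnf : ∀ s, ¬ Full M (β s) := fun s => (hB s).notFull
  have hβeq : ∀ s t, Kf s = Kf t → β s = β t := by
    intro s t hst
    by_contra hne
    have h1 : β s ∈ Kf t := by rw [← hst]; exact hβmem s
    exact hβnf s ((hB t).full (β s) h1 hne)
  have hβmem' : ∀ s t, t ∈ Kf s → β t = β s := fun s t ht => hβeq t s (hKeq s t ht)
  have hβK : ∀ s t, β s = β t → t ∈ Kf s := by
    intro s t hst
    have h1 : Kf (β s) = Kf s := hKeq s (β s) (hβmem s)
    have h2 : Kf (β t) = Kf t := hKeq t (β t) (hβmem t)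
    rw [hst, h2] at h1
    rw [← h1]; exact hmem t
  have hcross : ∀ s t, β s ≠ β t → M s t = 2 ∨ (β s = s ∧ β t = t ∧ M s t = 0) := by
    intro s t hst
    have ht : t ∉ Kf s := fun h1 => hst (hβmem' s t h1).symm
    by_cases hs : s = β s
    · have h1 := (hB s).twoZero t ht
      rw [← hs] at h1
      rcases h1 with h1 | h1
      · exact Or.inl h1
      · right
        refine ⟨hs.symm, hβself t ?_, h1⟩
        intro hf
        exact hf s (by rw [hsymm]; exact h1)
    · exact Or.inl ((hB s).two s (hmem s) hs t ht)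
  have hlab : ∀ s t, β s ≠ β t → M s t = 2 ∨ M s t = 0 := by
    intro s t hst
    rcases hcross s t hst with h1 | h1
    · exact Or.inl h1
    · exact Or.inr h1.2.2
  refine ⟨β, hβnf, hβself, hcross, ?_⟩
  intro y hy
  have hβy : β y = y := hβself y hy
  have hset : {s | β s = y} = Kf y := by
    ext s
    constructor
    · intro hs
      exact hβK y s (by rw [hβy]; exact hs.symm)
    · intro hs
      change β s = y
      rw [hβmem' y s hs, hβy]
  have hconn : ∀ z, ¬ Full M z → ((artinGraph M).induce {s | M z s = 0}).Preconnected := by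
    intro z hz
    have := (hB z).conn
    rwa [hβself z hz] at this
  refine ⟨by rw [hset]; exact (hB y).mic.irr, ?_, hconn y hy⟩
  -- odd neighbours
  have nf_of_zero : ∀ s t, M s t = 0 → ¬ Full M s ∧ ¬ Full M t := by
    intro s t h0
    exact ⟨fun hf => hf t h0, fun hf => hf s (by rw [hsymm]; exact h0)⟩
  have claim1 : ∀ z, ¬ Full M z → (∀ u, u ≠ z → ¬ Odd (M z u)) → ∀ z', M z z' = 0 →
      ∀ u, β u = z' → u = z' := by
    intro z hz hodd z' hzz' u hu
    by_contra hne
    have hz' : ¬ Full M z' := (nf_of_zero z z' hzz').2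
    have hβz' : β z' = z' := hβself z' hz'
    have huK : u ∈ Kf z' := hβK z' u (by rw [hβz', hu])
    set X : Set S := Kf z' \ {z'} with hX
    have huX : u ∈ X := ⟨huK, hne⟩
    have hTX : comp M X u ⊆ X := comp_subset huX
    have hzK : z ∉ Kf z' := by
      intro hzK
      have h1 := hβmem' z' z hzK
      rw [hβself z hz, hβz'] at h1
      rw [h1, M.diagonal] at hzz'
      omega
    have htwo : ∀ x ∈ X, ∀ s, s ∉ Kf z' → M x s = 2 := by
      intro x hx s hs
      exact (hB z').two x hx.1 (by rw [hβz']; exact hx.2) s hs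
    refine no_dominated_set M h (comp M X u) (hcen _ ⟨u, comp_self X u⟩
      ((hB z').mic.clq.mono (hTX.trans Set.diff_subset)) (comp_irred X u)) {z} ⟨z, rfl⟩ ?_ ?_ ?_ ?_
    · rw [Set.disjoint_singleton_right]
      exact fun h1 => hzK (hTX h1).1
    · rintro s hs t ht
      rw [Set.mem_singleton_iff] at hs
      rw [hs] at ht
      by_contra htz
      exact hodd t htz ht
    · rintro s hs t hst h0
      rw [Set.mem_singleton_iff] at hs
      rw [hs] at h0
      by_cases htK : t ∈ Kf z'
      · have htX : t ∈ X := by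
          refine ⟨htK, ?_⟩
          intro h1
          rw [Set.mem_singleton_iff] at h1
          rw [h1] at h0
          exact h0 hzz'
        by_cases htc : t ∈ comp M X u
        · exact Or.inl htc
        · exact Or.inr (mem_perp_comp htX htc)
      · right
        refine ⟨fun h1 => htK (hTX h1).1, ?_⟩
        intro x hx
        rw [hsymm]
        exact htwo x (hTX hx) t htK
    · rintro s hs
      rw [Set.mem_singleton_iff] at hs
      rw [hs]
      right
      refine ⟨fun h1 => hzK (hTX h1).1, ?_⟩
      intro x hx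
      rw [hsymm]
      exact htwo x (hTX hx) z hzK
  by_contra hno
  -- `y` has no odd neighbour, so it is thin
  have hyodd : ∀ u, u ≠ y → ¬ Odd (M y u) := by
    intro u hu ho
    by_cases hβu : β u = y
    · exact hno ⟨u, hu, hβu, ho⟩
    · rcases hlab y u (by rw [hβy]; exact fun h1 => hβu h1.symm) with h1 | h1
      · rw [h1] at ho; exact absurd ho (by decide)
      · rw [h1] at ho; exact absurd ho (by decide)
  have thinlab : ∀ z, ¬ Full M z → (∀ u, β u = z → u = z) → ∀ u, u ≠ z →
      M z u = 2 ∨ M z u = 0 := by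
    intro z hz hthin u hu
    apply hlab
    rw [hβself z hz]
    exact fun h1 => hu (hthin u h1.symm)
  have thinodd : ∀ z, ¬ Full M z → (∀ u, β u = z → u = z) → ∀ u, u ≠ z → ¬ Odd (M z u) := by
    intro z hz hthin u hu ho
    rcases thinlab z hz hthin u hu with h1 | h1
    · rw [h1] at ho; exact absurd ho (by decide)
    · rw [h1] at ho; exact absurd ho (by decide)
  have zeroex : ∀ z, ¬ Full M z → ∃ r, M z r = 0 := by
    intro z hz
    by_contra h1
    push Not at h1
    exact hz h1
  have hythin : ∀ u, β u = y → u = y := by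
    obtain ⟨r, hr⟩ := zeroex y hy
    have hrnf := (nf_of_zero y r hr).2
    have hrthin := claim1 y hy hyodd r hr
    exact claim1 r hrnf (thinodd r hrnf hrthin) y (by rw [hsymm]; exact hr)
  -- all non-neighbours of thin vertices are thin
  have thinzero : ∀ z, ¬ Full M z → (∀ u, β u = z → u = z) → ∀ s, M z s = 0 →
      (∀ u, β u = s → u = s) := fun z hz hthin s hs =>
    claim1 z hz (thinodd z hz hthin) s hs
  have hdiag : ∀ s, M s s ≠ 0 := fun s => by rw [M.diagonal]; exact one_ne_zero
  set R : Set S := {s | M y s = 0} with hR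
  have hyR : y ∉ R := fun h1 => hdiag y h1
  have hsing : ∀ a b : S, M b a = 2 → b ∈ perp M ({a} : Set S) := by
    intro a b hab
    refine ⟨?_, ?_⟩
    · intro h1
      rw [Set.mem_singleton_iff] at h1
      rw [h1, M.diagonal] at hab; omega
    · intro t ht
      rw [Set.mem_singleton_iff] at ht
      rw [ht]; exact hab
  have h2ne : ∀ a b : S, M a b = 2 → a ≠ b := by
    intro a b hab h1
    rw [h1, M.diagonal] at hab; omega
  have stepa : ∀ x, ¬ Full M x → (∀ u, β u = x → u = x) → M y x = 2 → ∃ r ∈ R, M r x ≠ 0 := by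
    intro x hx hxthin hyx
    by_contra hcon
    push Not at hcon
    refine no_dominated_set M h {y} (hasCentral_singleton M y) {x} ⟨x, rfl⟩ ?_ ?_ ?_ ?_
    · rw [Set.disjoint_singleton]
      exact h2ne y x hyx
    · rintro s hs t ht
      rw [Set.mem_singleton_iff] at hs
      rw [hs] at ht
      by_contra htx
      exact thinodd x hx hxthin t htx ht
    · rintro s hs t hst h0
      rw [Set.mem_singleton_iff] at hs
      rw [hs] at h0 hst
      by_cases hty : t = y
      · left; exact hty
      · right
        apply hsing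
        rw [hsymm]
        rcases thinlab y hy hythin t hty with h1 | h1
        · exact h1
        · exact absurd (hcon t h1) (by rw [hsymm]; exact h0)
    · rintro s hs
      rw [Set.mem_singleton_iff] at hs
      rw [hs]
      right
      exact hsing y x (by rw [hsymm]; exact hyx)
  have stepb : ∀ a, ¬ Full M a → (∀ u, β u = a → u = a) → M y a = 2 →
      ∀ b, ¬ Full M b → (∀ u, β u = b → u = b) → M y b = 2 → a ≠ b → M a b = 2 := by
    intro a ha hat hya b hb hbt hyb hab
    obtain ⟨r, hr, hra⟩ := stepa a ha hat hya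
    obtain ⟨r', hr', hrb⟩ := stepa b hb hbt hyb
    have haR : a ∉ R := by
      intro h1
      have h2 : M y a = 0 := h1
      omega
    have hbR : b ∉ R := by
      intro h1
      have h2 : M y b = 0 := h1
      omega
    have h1 := chordal_pair hch (hconn y hy) (z := y) (a := a) (b := b)
      ⟨h2ne y a hya, by rw [hya]; exact two_ne_zero⟩
      ⟨h2ne y b hyb, by rw [hyb]; exact two_ne_zero⟩ hyR haR hbR
      (fun r hr h1 => h1.2 hr)
      ⟨r, hr, fun h1 => haR (h1 ▸ hr), hra⟩ ⟨r', hr', fun h1 => hbR (h1 ▸ hr'), hrb⟩ hab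
    rcases thinlab a ha hat b (fun h2 => hab h2.symm) with h2 | h2
    · exact h2
    · exact absurd h2 h1.2
  by_cases hex : ∃ x, ¬ Full M x ∧ (∀ u, β u = x → u = x) ∧ M y x = 2
  · obtain ⟨x, hx, hxthin, hyx⟩ := hex
    refine no_dominated_set M h {x} (hasCentral_singleton M x) {y} ⟨y, rfl⟩ ?_ ?_ ?_ ?_
    · rw [Set.disjoint_singleton]
      exact (h2ne y x hyx).symm
    · rintro s hs t ht
      rw [Set.mem_singleton_iff] at hs
      rw [hs] at ht
      by_contra hty
      exact hyodd t hty ht
    · rintro s hs t hst h0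
      rw [Set.mem_singleton_iff] at hs
      rw [hs] at h0 hst
      by_cases htx : t = x
      · left; exact htx
      · right
        apply hsing
        have hyt : M y t = 2 := (thinlab y hy hythin t (fun h1 => hst h1.symm)).resolve_right h0
        by_cases hthin : ¬ Full M t ∧ (∀ u, β u = t → u = t)
        · exact stepb t hthin.1 hthin.2 hyt x hx hxthin hyx htx
        · rw [hsymm]
          rcases thinlab x hx hxthin t htx with h1 | h1
          · exact h1
          · exact absurd ⟨(nf_of_zero x t h1).2, thinzero x hx hxthin t h1⟩ hthin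
    · rintro s hs
      rw [Set.mem_singleton_iff] at hs
      rw [hs]
      right
      exact hsing x y hyx
  · push Not at hex
    obtain ⟨r, hr⟩ := zeroex y hy
    have hrnf := (nf_of_zero y r hr).2
    have hrthin := thinzero y hy hythin r hr
    refine no_dominated_set M h {r} (hasCentral_singleton M r) {y} ⟨y, rfl⟩ ?_ ?_ ?_ ?_
    · rw [Set.disjoint_singleton]
      rintro rfl
      exact hdiag _ hr
    · rintro s hs t ht
      rw [Set.mem_singleton_iff] at hs
      rw [hs] at ht
      by_contra hty
      exact hyodd t hty ht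
    · rintro s hs t hst h0
      rw [Set.mem_singleton_iff] at hs
      rw [hs] at h0 hst
      have hyt : M y t = 2 := (thinlab y hy hythin t (fun h1 => hst h1.symm)).resolve_right h0
      right
      apply hsing
      have htr : t ≠ r := by
        rintro rfl
        exact h0 hr
      rw [hsymm]
      rcases thinlab r hrnf hrthin t htr with h1 | h1
      · exact h1
      · exact absurd hyt (hex t (nf_of_zero r t h1).2 (thinzero r hrnf hrthin t h1))
    · rintro s hs
      rw [Set.mem_singleton_iff] at hs
      rw [hs]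
      left
      intro t hst h0
      exact (thinlab y hy hythin t (fun h1 => hst h1.symm)).resolve_right h0

end Pool.MP_a3a325_al
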