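import Mathlib
import Pool.Agent.Lib_helper76.AO.ChordMain

set_option autoImplicit false
set_option linter.unusedSectionVars false

namespace Pool.MP_a3a325_al

variable {S : Type*} [Fintype S] [DecidableEq S] {M : CoxeterMatrix S}

/-- the case of a complete graph -/
theorem complete_odd (h : FiniteOut (ArtinGroup M)) (hcen : CentralCliques M)
    (hc : ∀ s t, M s t ≠ 0) (s t : S) : Relation.ReflTransGen (fun a b => Odd (M a b)) s t := by
  classical
  obtain ⟨K, hK, _⟩ := exists_mic (M := M) s
  have hR : rest M K = ∅ := by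
    rw [Set.eq_empty_iff_forall_notMem]
    rintro x ⟨k, _, h0⟩
    exact hc x k h0
  have hall := hK.all_of_rest_empty h hcen hR
  have hKu : K = Set.univ := Set.eq_univ_of_forall hall
  have hcu : HasCentralElement M Set.univ := by
    rw [← hKu]
    exact hcen K hK.ne hK.clq hK.irr
  have h1 := central_odd M h hcu s t
  rw [SimpleGraph.reachable_iff_reflTransGen] at h1
  exact Relation.ReflTransGen.mono (fun a b hab => hab.2) s t h1

/-- at least half of the vertices are joined to all others -/
lemma half_full {β : S → S} (h1 : ∀ s, ¬ Full M s → β s = s)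
    (h2 : ∀ y, ¬ Full M y → ∃ u, u ≠ y ∧ β u = y) :
    Nat.card S ≤ 2 * Nat.card {s // Full M s} := by
  classical
  choose! u hu using h2
  have hfull : ∀ y, ¬ Full M y → Full M (u y) := by
    intro y hy
    by_contra hn
    have h3 := h1 (u y) hn
    rw [(hu y hy).2] at h3
    exact (hu y hy).1 h3.symm
  have hinj : Function.Injective
      (fun y : {s // ¬ Full M s} => (⟨u y.1, hfull y.1 y.2⟩ : {s // Full M s})) := by
    intro a b hab
    have h3 : u a.1 = u b.1 := congrArg Subtype.val hab
    have h4 := (hu a.1 a.2).2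
    rw [h3, (hu b.1 b.2).2] at h4
    exact Subtype.ext h4.symm
  have hle := Nat.card_le_card_of_injective _ hinj
  have hsum : Nat.card {s // Full M s} + Nat.card {s // ¬ Full M s} = Nat.card S := by
    rw [← Nat.card_sum]
    exact Nat.card_congr (Equiv.sumCompl (fun s => Full M s))
  omega

theorem chordal_dichotomy (h : FiniteOut (ArtinGroup M)) (hcen : CentralCliques M)
    (hch : Chordal (artinGraph M)) :
    (∀ s t, M s t ≠ 0 ∧ Relation.ReflTransGen (fun a b => Odd (M a b)) s t) ∨
    (Nat.card S ≤ 2 * Nat.card {s // Full M s} ∧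
    ∃ β : S → S, (∀ s, ¬ Full M (β s)) ∧ (∀ s, ¬ Full M s → β s = s) ∧
      (∀ s t, β s ≠ β t → M s t = 2 ∨ (β s = s ∧ β t = t ∧ M s t = 0)) ∧
      (∀ y, ¬ Full M y → IrredSet M {s | β s = y} ∧
        (∃ u, u ≠ y ∧ β u = y ∧ Odd (M y u)) ∧
        ((artinGraph M).induce {s | M y s = 0}).Preconnected)) := by
  by_cases hc : ∀ s t, M s t ≠ 0
  · exact Or.inl (fun s t => ⟨hc s t, complete_odd h hcen hc s t⟩)
  · right
    push Not at hc
    obtain ⟨β, h1, h2, h3, h4⟩ := chordal_structure h hcen hch hc
    refine ⟨half_full h2 (fun y hy => ?_), β, h1, h2, h3, h4⟩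
    obtain ⟨u, hu1, hu2, _⟩ := (h4 y hy).2.1
    exact ⟨u, hu1, hu2⟩

end Pool.MP_a3a325_al
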