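import Mathlib
import Pool.Agent.Lib_helper76.AO.Rep

set_option autoImplicit false
set_option linter.unusedSectionVars false

/-!
# The order of `s_i s_j` in a Coxeter group

In a Coxeter group of finite rank, `(s_i s_j)^r = 1` with `0 < r` forces `M i j ≤ r`.
-/

namespace Pool.MP_a3a325_al

open Matrix

section Inv

variable {G : Type*} [Group G]

lemma alt_mul_inv (x y : G) (hx : x * x = 1) (hy : y * y = 1) (n : ℕ) :
    alt x y n * (alt y x n)⁻¹ = (x * y) ^ n := by
  have hx' : x⁻¹ = x := inv_eq_of_mul_eq_one_left hx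
  have hy' : y⁻¹ = y := inv_eq_of_mul_eq_one_left hy
  induction n with
  | zero => simp [alt]
  | succ n ih =>
    change x * alt y x n * (y * alt x y n)⁻¹ = _
    have h1 : x * alt y x n * (y * alt x y n)⁻¹ = x * (alt x y n * (alt y x n)⁻¹)⁻¹ * y := by
      rw [_root_.mul_inv_rev, hy', _root_.mul_inv_rev, inv_inv]; group
    rw [h1, ih, ← inv_pow, _root_.mul_inv_rev, hx', hy']
    have h2 : ∀ k : ℕ, x * (y * x) ^ k * y = (x * y) ^ (k + 1) := by
      intro k
      induction k with
      | zero => simp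
      | succ k ihk =>
        rw [pow_succ (y * x) k, pow_succ (x * y) (k + 1), ← ihk]
        group
    exact h2 n

end Inv

variable {B : Type*} [Fintype B] [DecidableEq B]

/-- the form of the geometric representation -/
noncomputable def geoForm (N : CoxeterMatrix B) : Matrix B B ℝ := fun s t =>
  if s = t then 2 else - 2 * Real.cos (Real.pi / N s t)

lemma geoForm_diag (N : CoxeterMatrix B) (s : B) : geoForm N s s = 2 := by simp [geoForm]

lemma geoForm_off (N : CoxeterMatrix B) {s t : B} (h : s ≠ t) :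
    geoForm N s t = - 2 * Real.cos (Real.pi / N s t) := by simp [geoForm, h]

lemma geo_good (N : CoxeterMatrix B) : Good N 1 (geoForm N) where
  a0 := one_ne_zero
  diag s := by rw [geoForm_diag]; norm_num
  br s t hst _ := by
    have h1 : N t s = N s t := N.isSymm.apply s t
    rw [geoForm_off N hst, geoForm_off N hst.symm, h1]
    ring
  two s t h2 := by
    have hst : s ≠ t := by
      rintro rfl
      rw [N.diagonal] at h2; omega
    rw [geoForm_off N hst, h2]
    have : Real.pi / ((2 : ℕ) : ℝ) = Real.pi / 2 := by norm_num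
    rw [this, Real.cos_pi_div_two]; ring

lemma geo_refl_sq (N : CoxeterMatrix B) (s : B) :
    refl (geo_good N) s * refl (geo_good N) s = 1 := by
  apply Units.ext
  rw [Units.val_mul, refl_val, Units.val_one]
  have h := EE_mul_self (geoForm N) s
  rw [geoForm_diag] at h
  have : (1 - EE (geoForm N) s) * (1 - EE (geoForm N) s)
      = 1 - (2 : ℝ) • EE (geoForm N) s + EE (geoForm N) s * EE (geoForm N) s := by
    rw [two_smul]
    simp only [sub_mul, mul_sub, one_mul, mul_one]
    abel
  rw [this, h]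
  abel

lemma geo_liftable (N : CoxeterMatrix B) : N.IsLiftable (refl (geo_good N)) := by
  intro i i'
  rw [← alt_mul_inv _ _ (geo_refl_sq N i) (geo_refl_sq N i'), mul_inv_eq_one]
  exact refl_braid (geo_good N) i i'

lemma EE_mulVec (C : Matrix B B ℝ) (s : B) (v : B → ℝ) :
    EE C s *ᵥ v = (C s ⬝ᵥ v) • Pi.single s (1 : ℝ) := by
  unfold EE
  rw [vecMulVec_mulVec]
  ext x
  simp [mul_comm]

theorem order_ge {N : CoxeterMatrix B} {W : Type*} [Group W] (cs : CoxeterSystem N W) {i j : B}
    (hij : i ≠ j) (hN : N i j ≠ 0) {r : ℕ} (hr : 0 < r)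
    (h : (cs.simple i * cs.simple j) ^ r = 1) : N i j ≤ r := by
  by_contra hlt
  push Not at hlt
  set φ : W →* (Matrix B B ℝ)ˣ := cs.lift ⟨refl (geo_good N), geo_liftable N⟩ with hφ
  have hφs : ∀ s, φ (cs.simple s) = refl (geo_good N) s := fun s =>
    cs.lift_apply_simple (geo_liftable N) s
  have h1 : (refl (geo_good N) i * refl (geo_good N) j) ^ r = 1 := by
    rw [← hφs, ← hφs, ← map_mul, ← map_pow, h, map_one]
  have h2 : ((1 - EE (geoForm N) i) * (1 - EE (geoForm N) j)) ^ r = 1 := by
    have := congrArg Units.val h1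
    rw [Units.val_pow_eq_pow_val, Units.val_mul, refl_val, refl_val, Units.val_one] at this
    exact this
  set θ : ℝ := Real.pi / N i j with hθ
  have hNji : N j i = N i j := N.isSymm.apply i j
  have hji : geoForm N j i = - 2 * Real.cos θ := by rw [geoForm_off N hij.symm, hNji]
  have hij' : geoForm N i j = - 2 * Real.cos θ := geoForm_off N hij
  have hX : ∀ p q : ℝ, (1 - EE (geoForm N) i) *ᵥ
      (p • Pi.single i (1 : ℝ) + q • Pi.single j (1 : ℝ)) =
      (2 * Real.cos θ * q - p) • Pi.single i (1 : ℝ) + q • Pi.single j (1 : ℝ) := by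
    intro p q
    rw [sub_mulVec, one_mulVec, EE_mulVec]
    have : geoForm N i ⬝ᵥ (p • Pi.single i (1 : ℝ) + q • Pi.single j (1 : ℝ)) =
        2 * p - 2 * Real.cos θ * q := by
      rw [dotProduct_add, dotProduct_smul, dotProduct_smul, dotProduct_single_one,
        dotProduct_single_one, geoForm_diag, hij', smul_eq_mul, smul_eq_mul]
      ring
    rw [this]
    module
  have hY : ∀ p q : ℝ, (1 - EE (geoForm N) j) *ᵥ
      (p • Pi.single i (1 : ℝ) + q • Pi.single j (1 : ℝ)) =
      p • Pi.single i (1 : ℝ) + (2 * Real.cos θ * p - q) • Pi.single j (1 : ℝ) := by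
    intro p q
    rw [sub_mulVec, one_mulVec, EE_mulVec]
    have : geoForm N j ⬝ᵥ (p • Pi.single i (1 : ℝ) + q • Pi.single j (1 : ℝ)) =
        2 * q - 2 * Real.cos θ * p := by
      rw [dotProduct_add, dotProduct_smul, dotProduct_smul, dotProduct_single_one,
        dotProduct_single_one, geoForm_diag, hji, smul_eq_mul, smul_eq_mul]
      ring
    rw [this]
    module
  have hpow : ∀ k : ℕ, ((1 - EE (geoForm N) i) * (1 - EE (geoForm N) j)) ^ k *ᵥ
      (Real.sin θ • Pi.single i (1 : ℝ)) =
      Real.sin ((2 * k + 1 : ℝ) * θ) • Pi.single i (1 : ℝ) +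
        Real.sin ((2 * k : ℝ) * θ) • Pi.single j (1 : ℝ) := by
    intro k
    induction k with
    | zero => simp
    | succ k ih =>
      rw [pow_succ', ← mulVec_mulVec, ih, ← mulVec_mulVec, hY, hX]
      have e1 : 2 * Real.cos θ * Real.sin ((2 * k + 1 : ℝ) * θ) - Real.sin ((2 * k : ℝ) * θ) =
          Real.sin ((2 * k + 2 : ℝ) * θ) := by
        have a1 : (2 * k + 2 : ℝ) * θ = (2 * k + 1 : ℝ) * θ + θ := by ring
        have a2 : (2 * k : ℝ) * θ = (2 * k + 1 : ℝ) * θ - θ := by ring
        rw [a1, a2, Real.sin_add, Real.sin_sub]; ring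
      have e2 : 2 * Real.cos θ * Real.sin ((2 * k + 2 : ℝ) * θ) - Real.sin ((2 * k + 1 : ℝ) * θ) =
          Real.sin ((2 * k + 3 : ℝ) * θ) := by
        have a1 : (2 * k + 3 : ℝ) * θ = (2 * k + 2 : ℝ) * θ + θ := by ring
        have a2 : (2 * k + 1 : ℝ) * θ = (2 * k + 2 : ℝ) * θ - θ := by ring
        rw [a1, a2, Real.sin_add, Real.sin_sub]; ring
      rw [e1, e2]
      have c1 : (2 * ((k + 1 : ℕ) : ℝ) + 1) = 2 * k + 3 := by push_cast; ring
      have c2 : (2 * ((k + 1 : ℕ) : ℝ)) = 2 * k + 2 := by push_cast; ring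
      rw [c1, c2]
  have h3 := hpow r
  rw [h2, one_mulVec] at h3
  have hi := congrFun h3 i
  have hj := congrFun h3 j
  simp only [Pi.smul_apply, Pi.add_apply, smul_eq_mul, Pi.single_eq_same,
    Pi.single_eq_of_ne hij, Pi.single_eq_of_ne hij.symm, mul_one, mul_zero, zero_add,
    add_zero] at hi hj
  have hNpos : (0 : ℝ) < N i j := by exact_mod_cast Nat.pos_of_ne_zero hN
  have hN2 : 2 ≤ N i j := by
    have := N.off_diagonal i j hij
    omega
  have hθ0 : 0 < θ := by positivity
  have hs : 0 < Real.sin θ := by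
    apply Real.sin_pos_of_pos_of_lt_pi hθ0
    rw [hθ, div_lt_iff₀ hNpos]
    have : (2 : ℝ) ≤ N i j := by exact_mod_cast hN2
    nlinarith [Real.pi_pos]
  have e3 : Real.sin ((2 * r + 1 : ℝ) * θ) = Real.cos ((2 * r : ℝ) * θ) * Real.sin θ := by
    have a1 : (2 * r + 1 : ℝ) * θ = (2 * r : ℝ) * θ + θ := by ring
    rw [a1, Real.sin_add, ← hj]; ring
  rw [e3] at hi
  have hcos : Real.cos ((2 * r : ℝ) * θ) = 1 := by
    have : (Real.cos ((2 * r : ℝ) * θ) - 1) * Real.sin θ = 0 := by linarith
    rcases mul_eq_zero.mp this with h4 | h4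
    · linarith
    · exact absurd h4 hs.ne'
  have hrpos : (0 : ℝ) < r := by exact_mod_cast hr
  have hlt' : (r : ℝ) < N i j := by exact_mod_cast hlt
  have hb1 : (2 * r : ℝ) * θ < 2 * Real.pi := by
    rw [hθ]
    have : (2 * r : ℝ) * (Real.pi / N i j) = 2 * Real.pi * (r / N i j) := by ring
    rw [this]
    have h5 : (r : ℝ) / N i j < 1 := by rw [div_lt_one hNpos]; exact hlt'
    nlinarith [Real.pi_pos]
  have hb0 : 0 < (2 * r : ℝ) * θ := by positivity
  rw [Real.cos_eq_one_iff_of_lt_of_lt (by linarith [Real.pi_pos]) hb1] at hcos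
  linarith

end Pool.MP_a3a325_al
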