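import Mathlib
import Pool.Agent.Lib_helper16.CoxParity
import Pool.Agent.Lib_helper76.AO.CoxOrder

set_option autoImplicit false
set_option linter.unusedSectionVars false

/-!
# Exchange property and Matsumoto's theorem
-/

namespace Pool.MP_a3a325_al

open CoxeterSystem Pool.Agent.Lib_helper16

variable {B : Type*} {N : CoxeterMatrix B} {W : Type*} [Group W] (cs : CoxeterSystem N W)

lemma mem_ris_of_eta (ω : List B) (t : W) (h : eta cs (cs.wordProd ω) t ≠ 0) :
    t ∈ cs.rightInvSeq ω := by
  induction ω with
  | nil => rw [wordProd_nil, eta_one] at h; exact absurd rfl h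
  | cons i ω ih =>
    rw [wordProd_cons, eta_mul, eta_simple] at h
    change t ∈ ((cs.wordProd ω)⁻¹ * cs.simple i * cs.wordProd ω) :: cs.rightInvSeq ω
    rw [List.mem_cons]
    by_cases h1 : eta cs (cs.wordProd ω) t = 0
    · rw [h1, zero_add] at h
      have h2 : cs.wordProd ω * t * (cs.wordProd ω)⁻¹ = cs.simple i := by
        by_contra hc; exact h (ind_false hc)
      left
      rw [← h2]; group
    · right; exact ih h1

lemma eta_of_descent (w : W) (i : B) (h : cs.length (w * cs.simple i) < cs.length w) :
    eta cs w (cs.simple i) ≠ 0 := by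
  intro h0
  obtain ⟨ω, hω, hw⟩ := cs.exists_isReduced (w * cs.simple i)
  have h1 : eta cs (w * cs.simple i) (cs.simple i) ≠ 0 := by
    have e : cs.simple i * cs.simple i * (cs.simple i)⁻¹ = cs.simple i := by group
    rw [eta_mul, eta_simple, e, h0, add_zero, ind_true rfl]
    exact one_ne_zero
  rw [hw] at h1
  have h2 := cs.isRightInversion_of_mem_rightInvSeq hω (mem_ris_of_eta cs ω _ h1)
  have h3 := h2.2
  rw [← hw, mul_assoc, cs.simple_mul_simple_self, mul_one] at h3
  omega

/-- exchange: a right descent lies in the right inversion sequence of every word -/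
lemma descent_mem_ris (ω : List B) (i : B)
    (h : cs.length (cs.wordProd ω * cs.simple i) < cs.length (cs.wordProd ω)) :
    cs.simple i ∈ cs.rightInvSeq ω :=
  mem_ris_of_eta cs ω _ (eta_of_descent cs _ i h)

lemma deletion {ω : List B} {t : W} (h : t ∈ cs.rightInvSeq ω) :
    ∃ ω' : List B, ω'.length + 1 = ω.length ∧ cs.wordProd ω' = cs.wordProd ω * t := by
  obtain ⟨j, hj, rfl⟩ := List.mem_iff_getElem.mp h
  have hj' : j < ω.length := by rwa [cs.length_rightInvSeq] at hj
  refine ⟨ω.eraseIdx j, List.length_eraseIdx_add_one hj', ?_⟩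
  rw [← cs.wordProd_mul_getD_rightInvSeq ω j, List.getD_eq_getElem _ 1 hj]

lemma mem_ris_append (ω₁ ω₂ : List B) (t : W) (h : t ∈ cs.rightInvSeq (ω₁ ++ ω₂)) :
    cs.wordProd ω₂ * t * (cs.wordProd ω₂)⁻¹ ∈ cs.rightInvSeq ω₁ ∨ t ∈ cs.rightInvSeq ω₂ := by
  induction ω₁ with
  | nil => right; exact h
  | cons i ω ih =>
    have h' : t ∈ ((cs.wordProd (ω ++ ω₂))⁻¹ * cs.simple i * cs.wordProd (ω ++ ω₂)) ::
      cs.rightInvSeq (ω ++ ω₂) := h
    rw [List.mem_cons] at h'
    rcases h' with h' | h'
    · left
      change _ ∈ ((cs.wordProd ω)⁻¹ * cs.simple i * cs.wordProd ω) :: cs.rightInvSeq ω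
      rw [List.mem_cons]
      left
      rw [h', wordProd_append]; group
    · rcases ih h' with h2 | h2
      · left
        change _ ∈ ((cs.wordProd ω)⁻¹ * cs.simple i * cs.wordProd ω) :: cs.rightInvSeq ω
        rw [List.mem_cons]
        exact Or.inr h2
      · exact Or.inr h2

lemma conj_pow_aux {G : Type*} [Group G] (x y : G) (l : ℕ) :
    x * (y * x) ^ l = (x * y) ^ l * x := by
  induction l with
  | zero => simp
  | succ l ih =>
    rw [pow_succ (y * x) l, ← mul_assoc x, ih, pow_succ (x * y) l]
    group

lemma inv_pow_aux' {G : Type*} [Group G] (x y : G) (hx : x * x = 1) (hy : y * y = 1) (l : ℕ) :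
    ((y * x) ^ l)⁻¹ = (x * y) ^ l := by
  have hx' : x⁻¹ = x := inv_eq_of_mul_eq_one_left hx
  have hy' : y⁻¹ = y := inv_eq_of_mul_eq_one_left hy
  rw [← inv_pow, mul_inv_rev, hx', hy']

/-- reflections of the dihedral word -/
lemma mem_ris_alt (i j : B) (k : ℕ) (t : W) (h : t ∈ cs.rightInvSeq (alternatingWord j i k)) :
    ∃ q < k, t = (cs.simple i * cs.simple j) ^ q * cs.simple i := by
  have hi := cs.simple_mul_simple_self i
  have hj := cs.simple_mul_simple_self j
  induction k with
  | zero => simp [alternatingWord] at h
  | succ k ih =>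
    rw [alternatingWord_succ'] at h
    have h' : t ∈ ((cs.wordProd (alternatingWord j i k))⁻¹ *
        cs.simple (if Even k then i else j) * cs.wordProd (alternatingWord j i k)) ::
      cs.rightInvSeq (alternatingWord j i k) := h
    rw [List.mem_cons] at h'
    rcases h' with h' | h'
    · refine ⟨k, by omega, ?_⟩
      rw [h', cs.prod_alternatingWord_eq_mul_pow]
      by_cases hk : Even k
      · rw [if_pos hk, if_pos hk, one_mul, inv_pow_aux' _ _ hi hj, mul_assoc,
          conj_pow_aux, ← mul_assoc, ← pow_add]
        congr 2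
        obtain ⟨l, hl⟩ := hk
        omega
      · rw [if_neg hk, if_neg hk, mul_inv_rev, inv_pow_aux' _ _ hi hj, cs.inv_simple]
        have e1 : (cs.simple i * cs.simple j) ^ (k / 2) * cs.simple i * cs.simple j *
            (cs.simple i * (cs.simple j * cs.simple i) ^ (k / 2)) =
            (cs.simple i * cs.simple j) ^ (k / 2) * (cs.simple i * cs.simple j) *
            (cs.simple i * (cs.simple j * cs.simple i) ^ (k / 2)) := by group
        rw [e1, conj_pow_aux, ← pow_succ, ← mul_assoc, ← pow_add]
        congr 2
        rw [Nat.not_even_iff_odd] at hk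
        obtain ⟨l, hl⟩ := hk
        omega
    · obtain ⟨q, hq, hq'⟩ := ih h'
      exact ⟨q, by omega, hq'⟩

section Fin

variable [Fintype B] [DecidableEq B]

/-- two right descents give reduced words ending with the alternating words -/
lemma exists_alt_suffix (w : W) (m : ℕ) : ∀ k ≤ m, ∀ i j : B, i ≠ j → N i j = m →
    cs.length (w * cs.simple i) < cs.length w → cs.length (w * cs.simple j) < cs.length w →
    ∃ ω : List B, w = cs.wordProd (ω ++ alternatingWord i j k) ∧ ω.length + k = cs.length w := by
  intro k
  induction k with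
  | zero =>
    intro _ i j _ _ _ _
    obtain ⟨ω, hω, hw⟩ := cs.exists_isReduced w
    refine ⟨ω, by simpa [alternatingWord] using hw, ?_⟩
    have : cs.length (cs.wordProd ω) = ω.length := hω
    rw [← hw] at this
    omega
  | succ k ih =>
    intro hk i j hij hN hi hj
    have hNji : N j i = m := by rw [← hN]; exact N.isSymm.apply i j
    obtain ⟨ω, hw, hlen⟩ := ih (by omega) j i hij.symm hNji hj hi
    have h1 : cs.simple j ∈ cs.rightInvSeq (ω ++ alternatingWord j i k) := by
      apply descent_mem_ris
      rw [← hw]; exact hj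
    rcases mem_ris_append cs _ _ _ h1 with h2 | h2
    · obtain ⟨ω', hl, hp⟩ := deletion cs h2
      refine ⟨ω', ?_, by omega⟩
      have e : cs.wordProd (ω' ++ alternatingWord i j (k + 1)) =
          cs.wordProd ω' * cs.wordProd (alternatingWord j i k) * cs.simple j := by
        rw [alternatingWord_succ, wordProd_append, List.concat_eq_append, wordProd_append,
          wordProd_cons, wordProd_nil, mul_one, mul_assoc]
      rw [e, hp]
      have e2 : cs.wordProd ω * (cs.wordProd (alternatingWord j i k) * cs.simple j *
          (cs.wordProd (alternatingWord j i k))⁻¹) * cs.wordProd (alternatingWord j i k) *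
          cs.simple j = cs.wordProd ω * cs.wordProd (alternatingWord j i k) *
          (cs.simple j * cs.simple j) := by group
      rw [e2, cs.simple_mul_simple_self, mul_one, ← wordProd_append]
      exact hw
    · exfalso
      obtain ⟨q, hq, hq'⟩ := mem_ris_alt cs i j k _ h2
      have h3 : (cs.simple i * cs.simple j) ^ (q + 1) = 1 := by
        rw [pow_succ, ← mul_assoc, ← hq', cs.simple_mul_simple_self]
      have := order_ge cs hij (by omega) (Nat.succ_pos q) h3
      omega

variable {G : Type*} [Group G] (a : B → G)

lemma prod_alternatingWord (i j : B) (m : ℕ) :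
    ((alternatingWord i j m).map a).prod =
      if Even m then alt (a i) (a j) m else alt (a j) (a i) m := by
  induction m with
  | zero => simp [alternatingWord, alt]
  | succ m ih =>
    rw [alternatingWord_succ', List.map_cons, List.prod_cons, ih]
    by_cases hm : Even m
    · have h2 : ¬ Even (m + 1) := by rw [Nat.even_add_one]; simpa using hm
      rw [if_pos hm, if_pos hm, if_neg h2]; rfl
    · have h2 : Even (m + 1) := by rw [Nat.even_add_one]; exact hm
      rw [if_neg hm, if_neg hm, if_pos h2]; rfl

/-- **Matsumoto's theorem** for groups: reduced words of the same element have the same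
product. -/
theorem matsumoto (hbr : ∀ i j, alt (a i) (a j) (N i j) = alt (a j) (a i) (N i j))
    (hfin : ∀ i j, N i j ≠ 0) : ∀ n : ℕ, ∀ ω ω' : List B, cs.IsReduced ω → cs.IsReduced ω' →
      ω.length = n → cs.wordProd ω = cs.wordProd ω' →
      (ω.map a).prod = (ω'.map a).prod := by
  intro n
  induction n with
  | zero =>
    intro ω ω' hω hω' hn hp
    have h1 : ω'.length = ω.length := by
      have e1 : cs.length (cs.wordProd ω) = ω.length := hω
      have e2 : cs.length (cs.wordProd ω') = ω'.length := hω'
      rw [← e1, ← e2, hp]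
    have h2 : ω = [] := List.length_eq_zero_iff.mp hn
    have h3 : ω' = [] := List.length_eq_zero_iff.mp (by omega)
    rw [h2, h3]
  | succ n ih =>
    -- same last letter
    have same : ∀ (ω₁ ω₂ : List B) (i : B), cs.IsReduced (ω₁ ++ [i]) → cs.IsReduced (ω₂ ++ [i]) →
        (ω₁ ++ [i]).length = n + 1 → cs.wordProd (ω₁ ++ [i]) = cs.wordProd (ω₂ ++ [i]) →
        ((ω₁ ++ [i]).map a).prod = ((ω₂ ++ [i]).map a).prod := by
      intro ω₁ ω₂ i h1 h2 hl hp
      have r1 : cs.IsReduced ω₁ := by
        have := h1.take ω₁.length
        rwa [List.take_left] at this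
      have r2 : cs.IsReduced ω₂ := by
        have := h2.take ω₂.length
        rwa [List.take_left] at this
      rw [wordProd_append, wordProd_append] at hp
      have hp' := mul_right_cancel hp
      rw [List.map_append, List.map_append, List.prod_append, List.prod_append,
        ih ω₁ ω₂ r1 r2 (by simpa using hl) hp']
    intro ω ω' hω hω' hn hp
    have hn' : ω'.length = n + 1 := by
      have e1 : cs.length (cs.wordProd ω) = ω.length := hω
      have e2 : cs.length (cs.wordProd ω') = ω'.length := hω'
      rw [← hn, ← e1, ← e2, hp]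
    obtain ⟨ω₁, i, rfl⟩ : ∃ ω₁ i, ω = ω₁ ++ [i] := by
      rcases List.eq_nil_or_concat ω with h | ⟨l, b, h⟩
      · rw [h] at hn; simp at hn
      · exact ⟨l, b, by rw [h, List.concat_eq_append]⟩
    obtain ⟨ω₂, j, rfl⟩ : ∃ ω₂ j, ω' = ω₂ ++ [j] := by
      rcases List.eq_nil_or_concat ω' with h | ⟨l, b, h⟩
      · rw [h] at hn'; simp at hn'
      · exact ⟨l, b, by rw [h, List.concat_eq_append]⟩
    by_cases hij : i = j
    · subst hij
      exact same ω₁ ω₂ i hω hω' hn hp
    set w : W := cs.wordProd (ω₁ ++ [i]) with hw
    have hlw : cs.length w = n + 1 := by rw [hw, ← hn]; exact hω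
    have hdi : cs.length (w * cs.simple i) < cs.length w := by
      have : w * cs.simple i = cs.wordProd ω₁ := by
        rw [hw, wordProd_append, wordProd_cons, wordProd_nil, mul_one, mul_assoc,
          cs.simple_mul_simple_self, mul_one]
      rw [this, hlw]
      have h1 := cs.length_wordProd_le ω₁
      rw [List.length_append] at hn
      simp at hn
      omega
    have hdj : cs.length (w * cs.simple j) < cs.length w := by
      have : w * cs.simple j = cs.wordProd ω₂ := by
        rw [hp, wordProd_append, wordProd_cons, wordProd_nil, mul_one, mul_assoc,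
          cs.simple_mul_simple_self, mul_one]
      rw [this, hlw]
      have h1 := cs.length_wordProd_le ω₂
      rw [List.length_append] at hn'
      simp at hn'
      omega
    set m := N i j with hm
    have hm0 : m ≠ 0 := hfin i j
    have hNji : N j i = m := N.isSymm.apply i j
    obtain ⟨k, hk⟩ : ∃ k, m = k + 1 := ⟨m - 1, by omega⟩
    obtain ⟨ω₃, h3, hl3⟩ := exists_alt_suffix cs w m m le_rfl i j hij rfl hdi hdj
    have hbraid : cs.wordProd (alternatingWord i j m) = cs.wordProd (alternatingWord j i m) := by
      have h4 := cs.prod_alternatingWord_eq_prod_alternatingWord_sub i j m (by omega)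
      rw [h4]
      congr 2
      omega
    have hA : ∃ l, ω₃ ++ alternatingWord i j m = l ++ [j] :=
      ⟨ω₃ ++ alternatingWord j i k, by
        rw [hk, alternatingWord_succ, List.concat_eq_append, List.append_assoc]⟩
    have hB : ∃ l, ω₃ ++ alternatingWord j i m = l ++ [i] :=
      ⟨ω₃ ++ alternatingWord i j k, by
        rw [hk, alternatingWord_succ, List.concat_eq_append, List.append_assoc]⟩
    obtain ⟨lA, hA⟩ := hA
    obtain ⟨lB, hB⟩ := hB
    have hwA : w = cs.wordProd (lA ++ [j]) := by rw [← hA]; exact h3
    have hwB : w = cs.wordProd (lB ++ [i]) := by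
      rw [← hB, wordProd_append, ← hbraid, ← wordProd_append]; exact h3
    have hlA : (lA ++ [j]).length = n + 1 := by
      rw [← hA, List.length_append, length_alternatingWord]; omega
    have hlB : (lB ++ [i]).length = n + 1 := by
      rw [← hB, List.length_append, length_alternatingWord]; omega
    have rA : cs.IsReduced (lA ++ [j]) := by
      change cs.length (cs.wordProd (lA ++ [j])) = _
      rw [← hwA, hlw, hlA]
    have rB : cs.IsReduced (lB ++ [i]) := by
      change cs.length (cs.wordProd (lB ++ [i])) = _
      rw [← hwB, hlw, hlB]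
    have e1 := same ω₁ lB i hω rB hn (by rw [← hw]; exact hwB)
    have e2 := same ω₂ lA j hω' rA hn' (by rw [← hp]; exact hwA)
    rw [e1, e2, ← hA, ← hB, List.map_append, List.map_append, List.prod_append,
      List.prod_append, prod_alternatingWord, prod_alternatingWord]
    have h5 := hbr i j
    rw [← hm] at h5
    rw [h5]

/-- In a finite Coxeter group, an element `w` of maximal length: every element is a suffix. -/
lemma longest_suffix {w : W} (hw : ∀ v, cs.length v ≤ cs.length w) :
    ∀ n : ℕ, ∀ y : W, cs.length y = n → ∃ x : List B, w = cs.wordProd x * y ∧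
      x.length + n = cs.length w := by
  intro n
  induction n with
  | zero =>
    intro y hy
    have hy1 : y = 1 := (cs.length_eq_zero_iff).mp hy
    obtain ⟨ω, hω, hw'⟩ := cs.exists_isReduced w
    refine ⟨ω, by rw [hy1, mul_one]; exact hw', ?_⟩
    have : cs.length (cs.wordProd ω) = ω.length := hω
    rw [← hw'] at this
    omega
  | succ n ih =>
    intro y hy
    -- write y = y' * s i
    obtain ⟨ωy, hωy, hyy⟩ := cs.exists_isReduced y
    have hly : ωy.length = n + 1 := by
      have : cs.length (cs.wordProd ωy) = ωy.length := hωy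
      rw [← hyy, hy] at this
      exact this.symm
    obtain ⟨ω₁, i, rfl⟩ : ∃ ω₁ i, ωy = ω₁ ++ [i] := by
      rcases List.eq_nil_or_concat ωy with h | ⟨l, b, h⟩
      · rw [h] at hly; simp at hly
      · exact ⟨l, b, by rw [h, List.concat_eq_append]⟩
    have r1 : cs.IsReduced ω₁ := by
      have := hωy.take ω₁.length
      rwa [List.take_left] at this
    have hl1 : ω₁.length = n := by simpa using hly
    have hy' : y = cs.wordProd ω₁ * cs.simple i := by
      rw [hyy, wordProd_append, wordProd_cons, wordProd_nil, mul_one]
    -- prepend version: y⁻¹ is used through the word for `y` read on the right of `w`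
    obtain ⟨x, hx, hxl⟩ := ih (cs.wordProd ω₁) (by
      have : cs.length (cs.wordProd ω₁) = ω₁.length := r1
      rw [this, hl1])
    -- the element `w * s i` has smaller length
    have hdesc : cs.length (cs.wordProd (x ++ ω₁) * cs.simple i) <
        cs.length (cs.wordProd (x ++ ω₁)) := by
      rw [wordProd_append, ← hx]
      have h1 := hw (w * cs.simple i)
      have h2 := cs.length_mul_simple_ne w i
      omega
    have h3 := descent_mem_ris cs (x ++ ω₁) i hdesc
    rcases mem_ris_append cs _ _ _ h3 with h4 | h4
    · obtain ⟨x', hx', hp⟩ := deletion cs h4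
      refine ⟨x', ?_, by omega⟩
      rw [hp, hy']
      have e : cs.wordProd x * (cs.wordProd ω₁ * cs.simple i * (cs.wordProd ω₁)⁻¹) *
          (cs.wordProd ω₁ * cs.simple i) =
          cs.wordProd x * cs.wordProd ω₁ * (cs.simple i * cs.simple i) := by group
      rw [e, cs.simple_mul_simple_self, mul_one, ← hx]
    · exfalso
      have h5 := (cs.isRightInversion_of_mem_rightInvSeq r1 h4).2
      have h6 : cs.length (cs.wordProd ω₁ * cs.simple i) = n + 1 := by rw [← hy', hy]
      have h7 : cs.length (cs.wordProd ω₁) = n := by
        have : cs.length (cs.wordProd ω₁) = ω₁.length := r1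
        rw [this, hl1]
      omega

lemma simple_inj (hfin : ∀ i j, N i j ≠ 0) {i j : B} (h : cs.simple i = cs.simple j) : i = j := by
  by_contra hij
  have h1 : (cs.simple i * cs.simple j) ^ 1 = 1 := by
    rw [h, cs.simple_mul_simple_self, one_pow]
  have h2 := order_ge cs hij (hfin i j) one_pos h1
  have h3 := N.off_diagonal i j hij
  have h4 := hfin i j
  omega

/-- **Garside element.** If `W` is finite and the elements `a i` satisfy the braid relations, a
power of the product along a longest word commutes with all `a i`. -/
theorem exists_central_word (cs : CoxeterSystem N W) [Finite W] [Nonempty B]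
    (hbr : ∀ i j, alt (a i) (a j) (N i j) = alt (a j) (a i) (N i j))
    (hfin : ∀ i j, N i j ≠ 0) :
    ∃ ω : List B, ω ≠ [] ∧ ∀ i, Commute ((ω.map a).prod) (a i) := by
  classical
  obtain ⟨w, hw⟩ : ∃ w : W, ∀ v, cs.length v ≤ cs.length w := Finite.exists_max cs.length
  obtain ⟨i0⟩ := ‹Nonempty B›
  have hpos : 0 < cs.length w := by
    have := hw (cs.simple i0)
    rw [cs.length_simple] at this
    omega
  -- the permutation of the generators
  have hσ : ∀ i, ∃ j, w * cs.simple i = cs.simple j * w := by
    intro i
    have h1 := hw (w * cs.simple i)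
    have h2 := cs.length_mul_simple w i
    have h3 : cs.length (w * cs.simple i) + 1 = cs.length w := by
      rcases h2 with h2 | h2
      · omega
      · exact h2
    obtain ⟨x, hx, hxl⟩ := longest_suffix cs hw (cs.length (w * cs.simple i)) _ rfl
    have hx1 : x.length = 1 := by omega
    obtain ⟨j, rfl⟩ := List.length_eq_one_iff.mp hx1
    refine ⟨j, ?_⟩
    have h4 : w = cs.simple j * (w * cs.simple i) := by
      have := hx
      rwa [wordProd_cons, wordProd_nil, mul_one] at this
    have h5 : cs.simple j * w = cs.simple j * (cs.simple j * (w * cs.simple i)) := by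
      rw [← h4]
    rw [h5, ← mul_assoc, cs.simple_mul_simple_self, one_mul]
  choose σ hσ using hσ
  have hσinj : Function.Injective σ := by
    intro i j hij
    apply simple_inj cs hfin
    have h1 := hσ i
    rw [hij, ← hσ j] at h1
    exact mul_left_cancel h1
  obtain ⟨ω, hω, hwω⟩ := cs.exists_isReduced w
  have hωl : ω.length = cs.length w := by rw [hwω]; exact hω.symm
  set Δ : G := (ω.map a).prod with hΔ
  -- `a (σ i) * Δ = Δ * a i`
  have hcomm : ∀ i, a (σ i) * Δ = Δ * a i := by
    intro i
    obtain ⟨u, hu, hwu⟩ := cs.exists_isReduced (w * cs.simple i)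
    have hlu : u.length + 1 = cs.length w := by
      have h1 := hw (w * cs.simple i)
      have h2 := cs.length_mul_simple w i
      have h3 : cs.length (cs.wordProd u) = u.length := hu
      rw [← hwu] at h3
      rcases h2 with h2 | h2 <;> omega
    have p1 : cs.wordProd (u ++ [i]) = w := by
      rw [wordProd_append, ← hwu, wordProd_cons, wordProd_nil, mul_one, mul_assoc,
        cs.simple_mul_simple_self, mul_one]
    have p2 : cs.wordProd (σ i :: u) = w := by
      rw [wordProd_cons, ← hwu, hσ i, ← mul_assoc, cs.simple_mul_simple_self, one_mul]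
    have r1 : cs.IsReduced (u ++ [i]) := by
      change cs.length (cs.wordProd (u ++ [i])) = _
      rw [p1]; simp; omega
    have r2 : cs.IsReduced (σ i :: u) := by
      change cs.length (cs.wordProd (σ i :: u)) = _
      rw [p2]; simp; omega
    have e1 : Δ = (u.map a).prod * a i := by
      rw [hΔ, matsumoto cs a hbr hfin ω.length ω (u ++ [i]) hω r1 rfl (by rw [p1]; exact hwω.symm)]
      simp
    have e2 : Δ = a (σ i) * (u.map a).prod := by
      rw [hΔ, matsumoto cs a hbr hfin ω.length ω (σ i :: u) hω r2 rfl (by rw [p2]; exact hwω.symm)]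
      simp
    calc a (σ i) * Δ = a (σ i) * ((u.map a).prod * a i) := by rw [← e1]
      _ = a (σ i) * (u.map a).prod * a i := by rw [mul_assoc]
      _ = Δ * a i := by rw [← e2]
  have hpow : ∀ (k : ℕ) (i : B), a (σ^[k] i) * Δ ^ k = Δ ^ k * a i := by
    intro k
    induction k with
    | zero => intro i; simp
    | succ k ih =>
      intro i
      rw [Function.iterate_succ_apply', pow_succ']
      calc a (σ (σ^[k] i)) * (Δ * Δ ^ k) = a (σ (σ^[k] i)) * Δ * Δ ^ k := by rw [mul_assoc]
        _ = Δ * (a (σ^[k] i) * Δ ^ k) := by rw [hcomm, mul_assoc]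
        _ = Δ * Δ ^ k * a i := by rw [ih, mul_assoc]
  -- a power of the permutation is trivial
  obtain ⟨k, hk, hkid⟩ : ∃ k, 0 < k ∧ ∀ i, σ^[k] i = i := by
    let e : Equiv.Perm B := Equiv.ofBijective σ (Finite.injective_iff_bijective.mp hσinj)
    refine ⟨orderOf e, orderOf_pos e, ?_⟩
    intro i
    have h1 : e ^ orderOf e = 1 := pow_orderOf_eq_one e
    have h2 : ∀ n : ℕ, ∀ i, (e ^ n) i = σ^[n] i := by
      intro n
      induction n with
      | zero => intro i; rfl
      | succ n ih =>
        intro i
        rw [pow_succ, Equiv.Perm.mul_apply, ih, Function.iterate_succ_apply]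
        rfl
    rw [← h2, h1]; rfl
  refine ⟨(List.replicate k ω).flatten, ?_, ?_⟩
  · intro h0
    have h1 : (List.replicate k ω).flatten.length = 0 := by rw [h0]; rfl
    rw [List.length_flatten, List.map_replicate, List.sum_replicate, hωl, smul_eq_mul] at h1
    rcases Nat.mul_eq_zero.mp h1 with h2 | h2 <;> omega
  · intro i
    have h1 : ((List.replicate k ω).flatten.map a).prod = Δ ^ k := by
      rw [List.map_flatten, List.map_replicate, List.prod_flatten, List.map_replicate,
        List.prod_replicate]
    rw [h1]
    have h2 := hpow k i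
    rw [hkid i] at h2
    exact h2.symm

end Fin

end Pool.MP_a3a325_al
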