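import Mathlib
import Pool.Agent.Lib_helper76.AO.Defs

set_option autoImplicit false

namespace Pool.MP_a3a325_al

/-- The Coxeter matrix of the labels between the elements of `T`. -/
def restr {S : Type*} (M : CoxeterMatrix S) (T : Set S) : CoxeterMatrix T where
  M := fun s t => M s t
  isSymm := by ext s t; exact M.isSymm.apply s t
  diagonal := fun s => M.diagonal s
  off_diagonal := fun s t h => M.off_diagonal s t (fun h' => h (Subtype.ext h'))

/-- The set `T` of vertices is of finite type: its Coxeter group is finite. -/
def FiniteType {S : Type*} (M : CoxeterMatrix S) (T : Set S) : Prop := Finite (restr M T).Group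

/-- `M` is of FC type: every set of pairwise joined vertices of `Γ_M` is of finite type. -/
def FCType {S : Type*} (M : CoxeterMatrix S) : Prop :=
  ∀ T : Set S, (∀ s ∈ T, ∀ t ∈ T, M s t ≠ 0) → FiniteType M T

end Pool.MP_a3a325_al
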