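import Mathlib
import Pool.Agent.Lib_helper76.AO.FinDefs
import Pool.Agent.Lib_helper76.AO.Cox

set_option autoImplicit false
set_option linter.unusedSectionVars false

namespace Pool.MP_a3a325_al

variable {S : Type*} [Fintype S] [DecidableEq S]

lemma restr_apply (M : CoxeterMatrix S) (T : Set S) (s t : T) : restr M T s t = M s t := rfl

/-- A non-empty set of finite type with finite labels has a central element of non-zero
degree. -/
theorem hasCentral_of_finiteType (M : CoxeterMatrix S) (T : Set S) (hne : T.Nonempty)
    (hclq : ∀ s ∈ T, ∀ t ∈ T, M s t ≠ 0) (hT : FiniteType M T) : HasCentralElement M T := by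
  classical
  have : Finite (restr M T).Group := hT
  have : Nonempty T := hne.to_subtype
  have : Fintype T := Fintype.ofFinite T
  obtain ⟨ω, hω, hcomm⟩ := exists_central_word (fun t : T => gen M (t : S))
    (restr M T).toCoxeterSystem (fun i j => gen_rel M i j)
    (fun i j => hclq i i.2 j j.2)
  refine ⟨(ω.map (fun t : T => gen M (t : S))).prod, ?_, fun t ht => hcomm ⟨t, ht⟩, ?_⟩
  · apply Subgroup.list_prod_mem
    intro x hx
    rw [List.mem_map] at hx
    obtain ⟨t, _, rfl⟩ := hx
    exact Subgroup.subset_closure ⟨t, t.2, rfl⟩
  · have h1 : ∀ l : List T, degHom M ((l.map (fun t : T => gen M (t : S))).prod) =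
        Multiplicative.ofAdd (l.length : ℤ) := by
      intro l
      induction l with
      | nil => simp
      | cons t l ih =>
        rw [List.map_cons, List.prod_cons, map_mul, ih]
        have h2 : degHom M (gen M (t : S)) = Multiplicative.ofAdd 1 := lift_gen _ _ _
        rw [h2, ← ofAdd_add]
        congr 1
        rw [List.length_cons]; push_cast; ring
    rw [h1]
    intro h0
    have h3 : (ω.length : ℤ) = 0 := by
      have := congrArg Multiplicative.toAdd h0
      simpa using this
    exact hω (List.length_eq_zero_iff.mp (by exact_mod_cast h3))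

end Pool.MP_a3a325_al
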