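import Mathlib
import Pool.Agent.Lib_helper76.AO.FinCentral

set_option autoImplicit false
set_option linter.unusedSectionVars false

namespace Pool.MP_a3a325_al

open Matrix

/-- `s_i s_j` has infinite order if the label is infinite -/
theorem order_inf {B : Type*} [Fintype B] [DecidableEq B] {N : CoxeterMatrix B} {W : Type*}
    [Group W] (cs : CoxeterSystem N W) {i j : B}
    (hij : i ≠ j) (hN : N i j = 0) {r : ℕ} (hr : 0 < r) :
    (cs.simple i * cs.simple j) ^ r ≠ 1 := by
  intro h
  set φ : W →* (Matrix B B ℝ)ˣ := cs.lift ⟨refl (geo_good N), geo_liftable N⟩ with hφ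
  have hφs : ∀ s, φ (cs.simple s) = refl (geo_good N) s := fun s =>
    cs.lift_apply_simple (geo_liftable N) s
  have h1 : (refl (geo_good N) i * refl (geo_good N) j) ^ r = 1 := by
    rw [← hφs, ← hφs, ← map_mul, ← map_pow, h, map_one]
  have h2 : ((1 - EE (geoForm N) i) * (1 - EE (geoForm N) j)) ^ r = 1 := by
    have := congrArg Units.val h1
    rw [Units.val_pow_eq_pow_val, Units.val_mul, refl_val, refl_val, Units.val_one] at this
    exact this
  have hNji : N j i = 0 := by rw [← hN]; exact N.isSymm.apply i j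
  have hji : geoForm N j i = - 2 := by rw [geoForm_off N hij.symm, hNji]; simp
  have hij' : geoForm N i j = - 2 := by rw [geoForm_off N hij, hN]; simp
  have hX : ∀ p q : ℝ, (1 - EE (geoForm N) i) *ᵥ
      (p • Pi.single i (1 : ℝ) + q • Pi.single j (1 : ℝ)) =
      (2 * q - p) • Pi.single i (1 : ℝ) + q • Pi.single j (1 : ℝ) := by
    intro p q
    rw [sub_mulVec, one_mulVec, EE_mulVec]
    have : geoForm N i ⬝ᵥ (p • Pi.single i (1 : ℝ) + q • Pi.single j (1 : ℝ)) =
        2 * p - 2 * q := by
      rw [dotProduct_add, dotProduct_smul, dotProduct_smul, dotProduct_single_one,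
        dotProduct_single_one, geoForm_diag, hij', smul_eq_mul, smul_eq_mul]
      ring
    rw [this]
    module
  have hY : ∀ p q : ℝ, (1 - EE (geoForm N) j) *ᵥ
      (p • Pi.single i (1 : ℝ) + q • Pi.single j (1 : ℝ)) =
      p • Pi.single i (1 : ℝ) + (2 * p - q) • Pi.single j (1 : ℝ) := by
    intro p q
    rw [sub_mulVec, one_mulVec, EE_mulVec]
    have : geoForm N j ⬝ᵥ (p • Pi.single i (1 : ℝ) + q • Pi.single j (1 : ℝ)) =
        2 * q - 2 * p := by
      rw [dotProduct_add, dotProduct_smul, dotProduct_smul, dotProduct_single_one,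
        dotProduct_single_one, geoForm_diag, hji, smul_eq_mul, smul_eq_mul]
      ring
    rw [this]
    module
  have hpow : ∀ k : ℕ, ((1 - EE (geoForm N) i) * (1 - EE (geoForm N) j)) ^ k *ᵥ
      ((1 : ℝ) • Pi.single i (1 : ℝ)) =
      (2 * k + 1 : ℝ) • Pi.single i (1 : ℝ) + (2 * k : ℝ) • Pi.single j (1 : ℝ) := by
    intro k
    induction k with
    | zero =>
      rw [pow_zero, one_mulVec]
      simp
    | succ k ih =>
      rw [pow_succ', ← mulVec_mulVec, ih, ← mulVec_mulVec, hY, hX]
      have e1 : 2 * (2 * k + 1 : ℝ) - (2 * k : ℝ) = (2 * ((k + 1 : ℕ) : ℝ)) := by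
        push_cast; ring
      have e2 : 2 * (2 * ((k + 1 : ℕ) : ℝ)) - (2 * k + 1 : ℝ) =
          (2 * ((k + 1 : ℕ) : ℝ) + 1) := by push_cast; ring
      rw [e1, e2]
  have h3 := hpow r
  rw [h2, one_mulVec] at h3
  have hj := congrFun h3 j
  simp only [Pi.smul_apply, Pi.add_apply, smul_eq_mul, Pi.single_eq_same,
    Pi.single_eq_of_ne hij.symm, mul_one, mul_zero, zero_add] at hj
  have hrpos : (0 : ℝ) < r := by exact_mod_cast hr
  linarith

variable {S : Type*} [Fintype S] [DecidableEq S]

/-- the labels of a set of finite type are finite -/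
theorem finiteType_labels (M : CoxeterMatrix S) (T : Set S) (hT : FiniteType M T) :
    ∀ s ∈ T, ∀ t ∈ T, M s t ≠ 0 := by
  classical
  intro s hs t ht h0
  have hst : s ≠ t := by
    rintro rfl
    rw [M.diagonal] at h0; omega
  have : Finite (restr M T).Group := hT
  have : Fintype T := Fintype.ofFinite T
  set x := (restr M T).toCoxeterSystem.simple ⟨s, hs⟩ * (restr M T).toCoxeterSystem.simple ⟨t, ht⟩
    with hx
  exact order_inf (restr M T).toCoxeterSystem (i := ⟨s, hs⟩) (j := ⟨t, ht⟩)
    (fun h => hst (congrArg Subtype.val h)) h0 (orderOf_pos x) (pow_orderOf_eq_one x)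

/-- A non-empty set of finite type has a central element of non-zero degree. -/
theorem finiteType_central (M : CoxeterMatrix S) (T : Set S) (hne : T.Nonempty)
    (hT : FiniteType M T) : HasCentralElement M T :=
  hasCentral_of_finiteType M T hne (finiteType_labels M T hT) hT

end Pool.MP_a3a325_al
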