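import Mathlib
import Pool.Agent.Lib_helper76.AO.Defs
import Pool.Agent.Lib_helper76.AO.Separate
import Pool.Agent.Lib_helper76.AO.Transv

set_option autoImplicit false
set_option linter.unusedSectionVars false

namespace Pool.MP_a3a325_al

variable {S : Type*} [Fintype S] [DecidableEq S] {M : CoxeterMatrix S}

/-- transvection by a vertex `v` on a set `E` of vertices commuting with `v` -/
lemma transv_vertex (h : FiniteOut (ArtinGroup M)) {v : S} {E : Set S} (hE : E.Nonempty)
    (hvE : ∀ s ∈ E, M s v = 2) (hodd : ∀ s ∈ E, ∀ t, Odd (M s t) → t ∈ E)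
    (hnb : ∀ s ∈ E, ∀ t, s ≠ t → M s t ≠ 0 → t = v ∨ M t v = 2) : False := by
  have hv : v ∉ E := by
    intro hv
    have := hvE v hv
    have h1 : M v v = 1 := M.diagonal v
    omega
  refine no_dominated_set M h {v} (hasCentral_singleton M v) E hE ?_ hodd ?_ ?_
  · rw [Set.disjoint_left]
    intro t ht htE
    rw [Set.mem_singleton_iff] at ht
    exact hv (ht ▸ htE)
  · intro s hs t hst hM
    by_cases htv : t = v
    · exact Or.inl htv
    · rcases hnb s hs t hst hM with h | h
      · exact Or.inl h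
      · refine Or.inr ⟨by simpa using htv, ?_⟩
        intro u hu
        rw [Set.mem_singleton_iff] at hu
        rw [hu]; exact h
  · intro s hs
    refine Or.inr ⟨?_, ?_⟩
    · rw [Set.mem_singleton_iff]
      rintro rfl
      exact hv hs
    · intro u hu
      rw [Set.mem_singleton_iff] at hu
      rw [hu]; exact hvE s hs

/-- one side of a separating edge with label two is a single vertex -/
theorem side_single (h : FiniteOut (ArtinGroup M)) {v w : S} (hvw : M v w = 2)
    {C D : Set S} (hs : EdgeSplit M v w C D) (hv : ∀ c ∈ C, M c v = 2) :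
    ∃ c, C = {c} ∧ Odd (M c w) := by
  classical
  have hwv : M w v = 2 := by rw [Msymm]; exact hvw
  -- an odd label
  have hodd : ∃ c ∈ C, Odd (M c w) := by
    by_contra hcon
    push Not at hcon
    refine transv_vertex h hs.hC hv ?_ ?_
    · intro s hsC t hst
      rcases hs.cover t with ht | ht | ht | ht
      · rw [ht, hv s hsC] at hst; exact absurd hst (by decide)
      · rw [ht] at hst; exact absurd hst (hcon s hsC)
      · exact ht
      · rw [hs.sep s hsC t ht] at hst; exact absurd hst (by decide)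
    · intro s hsC t hst hM
      rcases hs.cover t with ht | ht | ht | ht
      · exact Or.inl ht
      · exact Or.inr (by rw [ht]; exact hwv)
      · exact Or.inr (hv t ht)
      · exact absurd (hs.sep s hsC t ht) hM
  obtain ⟨c, hc, hcw⟩ := hodd
  have hcw' : c ≠ w := by rintro rfl; exact hs.wC hc
  have hwc3 : 3 ≤ M w c := by
    rw [Msymm]
    have h1 : M c w ≠ 1 := fun h => M.off_diagonal c w hcw' h
    obtain ⟨k, hk⟩ := hcw
    omega
  obtain ⟨d, hd⟩ := hs.hD
  -- the others commute with `w` and `c`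
  have hoth : ∀ c' ∈ C, c' ≠ c → ∀ t ∈ ({w, c} : Set S), M c' t = 2 := by
    intro c' hc' hne
    by_contra hcon
    push Not at hcon
    obtain ⟨t, ht, htne⟩ := hcon
    have hzc := dihedral_comm M w c
    refine twist_infinite M {w, c} D ((gen M w * gen M c) ^ (M w c)) ?_ ?_
      (degHom_pow_ne M w c _ (by omega)) ?_ (irr_pair M w c (by omega)) ?_ (c := d) (d := c')
      hd ?_ ?_ (by rw [Msymm]; exact hs.sep c' hc' d hd)
      ⟨c, by simp, by rw [Msymm, hs.sep c hc d hd]; decide⟩ ⟨t, ht, htne⟩ h
    · apply Subgroup.pow_mem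
      apply Subgroup.mul_mem
      · exact Subgroup.subset_closure ⟨w, by simp, rfl⟩
      · exact Subgroup.subset_closure ⟨c, by simp, rfl⟩
    · intro t ht
      simp only [Set.mem_insert_iff, Set.mem_singleton_iff] at ht
      rcases ht with rfl | rfl
      · exact hzc.1
      · exact hzc.2
    · rw [Set.disjoint_left]
      intro t ht htD
      simp only [Set.mem_insert_iff, Set.mem_singleton_iff] at ht
      rcases ht with rfl | rfl
      · exact hs.wD htD
      · exact hs.disj _ hc htD
    · intro s hsD t ht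
      rcases hs.cover t with h | h | h | h
      · right
        rw [h]
        refine Commute.pow_left (Commute.mul_left ?_ ?_) _
        · exact commute_of_two hwv
        · exact commute_of_two (hv c hc)
      · right
        rw [h]; exact hzc.1
      · exact Or.inl (by rw [Msymm]; exact hs.sep t h s hsD)
      · exact absurd h ht
    · exact hs.disj c' hc'
    · intro h
      simp only [Set.mem_insert_iff, Set.mem_singleton_iff] at h
      rcases h with h | h
      · rw [h] at hc'; exact hs.wC hc'
      · exact hne h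
  refine ⟨c, ?_, hcw⟩
  by_contra hne
  have hE : (C \ {c}).Nonempty := by
    by_contra hemp
    rw [Set.not_nonempty_iff_eq_empty, Set.sdiff_eq_empty] at hemp
    exact hne (Set.Subset.antisymm hemp (by rintro x hx; rw [Set.mem_singleton_iff] at hx; exact hx ▸ hc))
  refine transv_vertex h hE (fun s hs' => hv s hs'.1) ?_ ?_
  · rintro s ⟨hsC, hsc⟩ t hst
    rw [Set.mem_singleton_iff] at hsc
    have h2 := hoth s hsC hsc
    rcases hs.cover t with ht | ht | ht | ht
    · rw [ht, hv s hsC] at hst; exact absurd hst (by decide)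
    · rw [ht, h2 w (by simp)] at hst; exact absurd hst (by decide)
    · refine ⟨ht, ?_⟩
      rw [Set.mem_singleton_iff]
      rintro rfl
      rw [h2 t (by simp)] at hst; exact absurd hst (by decide)
    · rw [hs.sep s hsC t ht] at hst; exact absurd hst (by decide)
  · rintro s ⟨hsC, hsc⟩ t hst hM
    rcases hs.cover t with ht | ht | ht | ht
    · exact Or.inl ht
    · exact Or.inr (by rw [ht]; exact hwv)
    · exact Or.inr (hv t ht)
    · exact absurd (hs.sep s hsC t ht) hM

/-- the only matrices with a separating edge and a possibly finite `Out` -/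
theorem cut_edge_exceptional (h : FiniteOut (ArtinGroup M)) {v w : S} (hvw : M v w = 2)
    {C D : Set S} (hs : EdgeSplit M v w C D) :
    ∃ c d : S, c ≠ w ∧ d ≠ v ∧ (∀ s, s = v ∨ s = w ∨ s = c ∨ s = d) ∧
      M c v = 2 ∧ M d w = 2 ∧ Odd (M c w) ∧ Odd (M d v) ∧ M c d = 0 := by
  have hwv : M w v = 2 := by rw [Msymm]; exact hvw
  rcases cut_edge_two h hvw hs with ⟨h1, h2, _, _⟩ | ⟨h1, h2, _, _⟩
  · obtain ⟨c, hC, hcw⟩ := side_single h hvw hs h1
    obtain ⟨d, hD, hdv⟩ := side_single h hwv hs.symm.swap h2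
    have hcC : c ∈ C := by rw [hC]; rfl
    have hdD : d ∈ D := by rw [hD]; rfl
    refine ⟨c, d, ?_, ?_, ?_, h1 c hcC, h2 d hdD, hcw, hdv, hs.sep c hcC d hdD⟩
    · rintro rfl; exact hs.wC hcC
    · rintro rfl; exact hs.vD hdD
    · intro s
      rcases hs.cover s with h | h | h | h
      · exact Or.inl h
      · exact Or.inr (Or.inl h)
      · rw [hC, Set.mem_singleton_iff] at h; exact Or.inr (Or.inr (Or.inl h))
      · rw [hD, Set.mem_singleton_iff] at h; exact Or.inr (Or.inr (Or.inr h))
  · obtain ⟨d, hC, hdv⟩ := side_single h hwv hs.swap h1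
    obtain ⟨c, hD, hcw⟩ := side_single h hvw hs.symm h2
    have hdC : d ∈ C := by rw [hC]; rfl
    have hcD : c ∈ D := by rw [hD]; rfl
    refine ⟨c, d, ?_, ?_, ?_, h2 c hcD, h1 d hdC, hcw, hdv, by rw [Msymm]; exact hs.sep d hdC c hcD⟩
    · rintro rfl; exact hs.wD hcD
    · rintro rfl; exact hs.vC hdC
    · intro s
      rcases hs.cover s with h | h | h | h
      · exact Or.inl h
      · exact Or.inr (Or.inl h)
      · rw [hC, Set.mem_singleton_iff] at h; exact Or.inr (Or.inr (Or.inr h))
      · rw [hD, Set.mem_singleton_iff] at h; exact Or.inr (Or.inr (Or.inl h))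

lemma edgeSplit_of_not (M : CoxeterMatrix S) (v w : S)
    (h : ¬ ((artinGraph M).induce ({v, w} : Set S)ᶜ).Preconnected) :
    ∃ C D : Set S, EdgeSplit M v w C D := by
  obtain ⟨C, D, hC, hD, hTC, hTD, hCD, hU, h0⟩ := induce_split M {v, w} h
  rw [Set.disjoint_left] at hTC hTD hCD
  refine ⟨C, D, hC, hD, hTC (by simp), hTC (by simp), hTD (by simp), hTD (by simp), ?_,
    fun s hs hs' => hCD hs hs', h0⟩
  intro s
  rcases hU s with h | h | h
  · simp only [Set.mem_insert_iff, Set.mem_singleton_iff] at h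
    rcases h with h | h
    · exact Or.inl h
    · exact Or.inr (Or.inl h)
  · exact Or.inr (Or.inr (Or.inl h))
  · exact Or.inr (Or.inr (Or.inr h))

/-- separating edges -/
theorem cut_edge (M : CoxeterMatrix S) (h : FiniteOut (ArtinGroup M)) (v w : S) (hne : v ≠ w)
    (hvw : M v w ≠ 0) :
    ((artinGraph M).induce ({v, w} : Set S)ᶜ).Preconnected ∨
    (M v w = 2 ∧ ∃ c d : S, c ≠ w ∧ d ≠ v ∧ (∀ s, s = v ∨ s = w ∨ s = c ∨ s = d) ∧
      M c v = 2 ∧ M d w = 2 ∧ Odd (M c w) ∧ Odd (M d v) ∧ M c d = 0) := by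
  by_contra hcon
  push Not at hcon
  obtain ⟨hp, hex⟩ := hcon
  have h1 : M v w ≠ 1 := fun h => M.off_diagonal v w hne h
  by_cases h2 : M v w = 2
  · obtain ⟨C, D, hs⟩ := edgeSplit_of_not M v w hp
    obtain ⟨c, d, hcw, hdv, hS, a1, a2, a3, a4, a5⟩ := cut_edge_exceptional h h2 hs
    exact hex h2 c d hcw hdv hS a1 a2 a3 a4 a5
  · exact hp (no_cut_edge M h v w (by omega))

end Pool.MP_a3a325_al
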